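import Pool.Agent.P.MP_1fec7a_co.F.Iface

set_option autoImplicit false
set_option linter.unusedSectionVars false

namespace Pool.Agent.P.MP_1fec7a_co.F

open Finset S

lemma apx_one {V Λ : Type} [DecidableEq V] [DecidableEq Λ] {ln : Λ → Finset V}
    {P X : Finset V} {hub : V → Λ} {D C : ℕ} (hS : St ln P X hub D) (h : Λ)
    (hb : C * (D + 1) + D < (gen P X hub h).card) :
    ∃ A : Finset V, (∀ x ∈ A, x ∈ P ∧ x ∉ ln h) ∧
      (gen P X hub h).card ≤ (fl (gen P X hub h) fun u => ∀ x ∈ A, Coll ln u x).card + C * D ∧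
      D < (fl (gen P X hub h) fun u => ∀ x ∈ A, Coll ln u x).card ∧
      ∀ x ∈ P, x ∉ ln h → x ∉ A →
        C ≤ (fl (fl (gen P X hub h) fun u => ∀ x ∈ A, Coll ln u x) fun u => ¬ Coll ln u x).card := by
  classical
  obtain ⟨A, hA, hmax⟩ := exists_max_image
    (fl (fl P fun x => x ∉ ln h).powerset fun A => A.card ≤ D + 1 ∧ (gen P X hub h).card ≤
      (fl (gen P X hub h) fun u => ∀ x ∈ A, Coll ln u x).card + C * A.card) card
    ⟨∅, mem_fl.2 ⟨empty_mem_powerset _, by simp, by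
      have : (fl (gen P X hub h) fun u => ∀ x ∈ (∅ : Finset V), Coll ln u x) = gen P X hub h := by
        ext u; simp
      rw [this]; simp⟩⟩
  obtain ⟨hA1, hA2, hA3⟩ := mem_fl.1 hA
  have hA1' : ∀ x ∈ A, x ∈ P ∧ x ∉ ln h := fun x hx => mem_fl.1 (mem_powerset.1 hA1 hx)
  have h1 : C * A.card ≤ C * (D + 1) := Nat.mul_le_mul_left _ hA2
  have hU : D < (fl (gen P X hub h) fun u => ∀ x ∈ A, Coll ln u x).card := by omega
  obtain ⟨u, hu⟩ : (fl (gen P X hub h) fun u => ∀ x ∈ A, Coll ln u x).Nonempty :=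
    card_pos.1 (by omega)
  obtain ⟨hu1, hu2⟩ := mem_fl.1 hu
  obtain ⟨hu3, hu4⟩ := mem_fl.1 hu1
  have hAD : A.card ≤ D := by
    refine le_trans (card_le_card fun x hx => ?_) (hS.out u hu3)
    exact mem_fl.2 ⟨(hA1' x hx).1, hu2 x hx, hu4 ▸ (hA1' x hx).2⟩
  have h2 : C * A.card ≤ C * D := Nat.mul_le_mul_left _ hAD
  refine ⟨A, hA1', by omega, hU, fun x hx hxl hxA => ?_⟩
  by_contra hlt
  have hsub : (fl (gen P X hub h) fun u => ∀ x ∈ A, Coll ln u x) ⊆
      (fl (gen P X hub h) fun u => ∀ y ∈ insert x A, Coll ln u y) ∪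
      fl (fl (gen P X hub h) fun u => ∀ x ∈ A, Coll ln u x) fun u => ¬ Coll ln u x := by
    intro v hv
    by_cases hc : Coll ln v x
    · refine mem_union_left _ (mem_fl.2 ⟨(mem_fl.1 hv).1, fun y hy => ?_⟩)
      rcases mem_insert.1 hy with rfl | hy
      · exact hc
      · exact (mem_fl.1 hv).2 y hy
    · exact mem_union_right _ (mem_fl.2 ⟨hv, hc⟩)
  have h3 := (card_le_card hsub).trans (card_union_le _ _)
  have h4 : (insert x A).card = A.card + 1 := card_insert_of_notMem hxA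
  have h5 := hmax (insert x A) (mem_fl.2 ⟨mem_powerset.2 (insert_subset (mem_fl.2 ⟨hx, hxl⟩)
    (mem_powerset.1 hA1)), by omega, by rw [h4, mul_add, mul_one]; omega⟩)
  omega

theorem p_APX : S_APX := by
  intro V Λ _ _ ln P X hub D C hS hb
  classical
  have key : ∀ h, ∃ A : Finset V, (∀ x ∈ A, x ∈ P ∧ x ∉ ln h ∧
        D < (fl (gen P X hub h) fun u => ∀ x ∈ A, Coll ln u x).card) ∧
      (gen P X hub h).card ≤ (fl (gen P X hub h) fun u => ∀ x ∈ A, Coll ln u x).card + C * D ∧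
      (h ∈ hubs P X hub → ∀ x ∈ P, x ∉ ln h → x ∉ A →
        C ≤ (fl (fl (gen P X hub h) fun u => ∀ x ∈ A, Coll ln u x) fun u =>
          ¬ Coll ln u x).card) := by
    intro h
    by_cases hh : h ∈ hubs P X hub
    · obtain ⟨A, a1, a2, a3, a4⟩ := apx_one hS h (hb h hh)
      exact ⟨A, fun x hx => ⟨(a1 x hx).1, (a1 x hx).2, a3⟩, a2, fun _ => a4⟩
    · refine ⟨∅, by simp, ?_, fun e => absurd e hh⟩
      have : (fl (gen P X hub h) fun u => ∀ x ∈ (∅ : Finset V), Coll ln u x) = gen P X hub h := by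
        ext u; simp
      rw [this]; omega
  choose A h1 h2 h3 using key
  refine ⟨fun h => fl (gen P X hub h) fun u => ∀ x ∈ A h, Coll ln u x, A,
    ⟨fun h => fl_subset _ _, fun h x hx => ⟨?_, (h1 h x hx).2.1⟩,
      fun h u hu x hx => (mem_fl.1 hu).2 x hx, h3⟩, h2⟩
  obtain ⟨a1, a2, a3⟩ := h1 h x hx
  refine mem_fl.2 ⟨a1, fun h' _ hx' => ?_⟩
  have b1 : x ∈ P \ X := (mem_fl.1 (mem_fl.1 hx').1).1
  refine absurd (le_trans (card_le_card fun u hu => ?_) (hS.out x b1)) (not_le.2 a3)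
  obtain ⟨c1, c2⟩ := mem_fl.1 hu
  obtain ⟨c3, c4⟩ := mem_fl.1 c1
  refine mem_fl.2 ⟨(mem_sdiff.1 c3).1, (c2 x hx).symm, fun e => a2 ?_⟩
  have := hS.uniq u c3 x b1 e
  rw [← c4, this]
  exact hS.mem x b1

end Pool.Agent.P.MP_1fec7a_co.F
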