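import Pool.Agent.P.MP_1fec7a_co.F.Iface

/-! The budget of the weights of the hubs. -/

set_option autoImplicit false
set_option linter.unusedSectionVars false

namespace Pool.Agent.P.MP_1fec7a_co.F

open Finset S

section
variable {V Λ : Type} [DecidableEq V] [DecidableEq Λ]

/-- The points of `U` on a line other than `h` with two points of `Y`. -/
noncomputable def bud_bad (ln : Λ → Finset V) (U Y : Finset V) (h : Λ) : Finset V :=
  fl U fun u => ∃ w ∈ Y, ∃ w' ∈ Y, w ≠ w' ∧ ∃ i, i ≠ h ∧ u ∈ ln i ∧ w ∈ ln i ∧ w' ∈ ln i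

lemma bud_bad_card {ln : Λ → Finset V} (hl : Lin ln) {U : Finset V} (Y : Finset V) {h : Λ}
    (hU : ∀ u ∈ U, u ∈ ln h) : (bud_bad ln U Y h).card ≤ Y.card * Y.card := by
  rw [← card_product]
  refine card_le_card_of_forall_subsingleton
    (fun u (e : V × V) => e.1 ≠ e.2 ∧ ∃ i, i ≠ h ∧ u ∈ ln i ∧ e.1 ∈ ln i ∧ e.2 ∈ ln i) ?_ ?_
  · intro u hu
    obtain ⟨-, w, hw, w', hw', hne, i, hi⟩ := mem_fl.1 hu
    exact ⟨(w, w'), mem_product.2 ⟨hw, hw'⟩, hne, i, hi⟩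
  · rintro e - u ⟨hu, hne, i, hi, a1, a2, a3⟩ u' ⟨hu', -, i', -, b1, b2, b3⟩
    by_contra e'
    obtain rfl : i = i' := hl i i' _ _ hne a2 a3 b2 b3
    exact hi (hl i h u u' e' a1 b1 (hU u (mem_fl.1 hu).1) (hU u' (mem_fl.1 hu').1))

lemma bud_inj [Fintype Λ] {ln : Λ → Finset V} {U Y Y' : Finset V} {h : Λ} {u : V} (hY : Y' ⊆ Y)
    (hu : u ∈ U) (huh : u ∉ bud_bad ln U Y h) :
    (fl Y' fun w => w ∉ ln h ∧ Coll ln u w).card ≤
      (fl univ fun i => u ∈ ln i ∧ i ≠ h ∧ ∃ y ∈ Y, y ∈ ln i).card := by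
  refine card_le_card_of_forall_subsingleton (fun w i => w ∈ ln i) ?_ ?_
  · intro w hw
    obtain ⟨h1, h2, -, i, h3, h4⟩ := mem_fl.1 hw
    exact ⟨i, mem_fl.2 ⟨mem_univ _, h3, fun e => h2 (e ▸ h4), w, hY h1, h4⟩, h4⟩
  · rintro i hi w ⟨hw, a⟩ w' ⟨hw', b⟩
    by_contra e
    obtain ⟨-, h1, h2, -⟩ := mem_fl.1 hi
    exact huh (mem_fl.2 ⟨hu, w, hY (mem_fl.1 hw).1, w', hY (mem_fl.1 hw').1, e, i, h2, h1, a, b⟩)

end

theorem p_BUD (h : S_E4) : S_BUD := by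
  intro V Λ _ _ _ ln P X hub g D C L U hl hep hst hU hcard hL H' hH' h3 y hy
  classical
  have hy' : ∀ i, ∃ Y : Finset V, i ∈ H' → Y ⊆ gam P (hubs P X hub) U ∧ Y.card ≤ 7 ∧
      Sees ln U C i Y (y i) := fun i => by
    by_cases hi : i ∈ H'
    · obtain ⟨Y, hY⟩ := (hy i hi).1
      exact ⟨Y, fun _ => hY⟩
    · exact ⟨∅, fun e => absurd e hi⟩
  choose Yh hYh using hy'
  set Y := H'.biUnion Yh with hYdef
  have cY : Y.card ≤ 21 :=
    (card_biUnion_le_card_mul H' Yh 7 fun i hi => (hYh i hi).2.1).trans (by omega)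
  have gU : ∀ i, ∀ u ∈ U i, u ∈ P \ X ∧ hub u = i := fun i u hu => mem_fl.1 (hU i hu)
  have lU : ∀ i, ∀ u ∈ U i, u ∈ ln i := fun i u hu =>
    (gU i u hu).2 ▸ hst.mem u (gU i u hu).1
  have hA : ∀ i, ∃ A : Finset V, i ∈ H' → A.card = L ∧ ∀ u ∈ A, u ∈ U i ∧
      y i ≤ (fl univ fun j => u ∈ ln j ∧ j ≠ hub u ∧ ∃ y ∈ Y, y ∈ ln j).card := fun i => by
    by_cases hi : i ∈ H'
    · let E := fl (U i) fun u => (fl (Yh i) fun w => w ∉ ln i ∧ Coll ln u w).card < y i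
      have e1 : E.card ≤ 3 * C := (hYh i hi).2.2
      have e2 : (bud_bad ln (U i) Y i).card ≤ 441 :=
        (bud_bad_card hl Y (lU i)).trans (Nat.mul_le_mul cY cY)
      have e3 := le_card_sdiff (E ∪ bud_bad ln (U i) Y i) (U i)
      have e4 := card_union_le E (bud_bad ln (U i) Y i)
      have e5 := hcard i (hH' hi)
      obtain ⟨A, hA1, hA2⟩ := exists_subset_card_eq
        (s := U i \ (E ∪ bud_bad ln (U i) Y i)) (n := L) (by omega)
      refine ⟨A, fun _ => ⟨hA2, fun u hu => ?_⟩⟩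
      obtain ⟨u1, u2⟩ := mem_sdiff.1 (hA1 hu)
      rw [mem_union, not_or] at u2
      refine ⟨u1, ?_⟩
      rw [(gU i u u1).2]
      exact (not_lt.1 fun e => u2.1 (mem_fl.2 ⟨u1, e⟩)).trans
        (bud_inj (subset_biUnion_of_mem Yh hi) u1 u2.2)
    · exact ⟨∅, fun e => absurd e hi⟩
  choose A hA using hA
  have dj : (H' : Set Λ).PairwiseDisjoint A := fun i hi j hj hij =>
    disjoint_left.2 fun u a b =>
      hij ((gU i u ((hA i hi).2 u a).1).2.symm.trans (gU j u ((hA j hj).2 u b).1).2)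
  have key := h V Λ ln g D P X hub (H'.biUnion A) Y hl hep hst
    (fun u hu => by
      obtain ⟨i, hi, hu⟩ := mem_biUnion.1 hu
      exact (gU i u ((hA i hi).2 u hu).1).1)
    (disjoint_left.2 fun u hu hu' => by
      obtain ⟨i, hi, hu⟩ := mem_biUnion.1 hu
      obtain ⟨j, hj, hu'⟩ := mem_biUnion.1 hu'
      exact (mem_fl.1 ((hYh j hj).1 hu')).2 i (hH' hi) ((hA i hi).2 u hu).1)
  have c1 : (H'.biUnion A).card ≤ H'.card * L :=
    card_biUnion_le_card_mul H' A L fun i hi => (hA i hi).1.le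
  have c2 : ((H'.biUnion A).image hub).card ≤ H'.card := card_le_card fun i hi => by
    obtain ⟨u, hu, rfl⟩ := mem_image.1 hi
    obtain ⟨j, hj, hu⟩ := mem_biUnion.1 hu
    rw [(gU j u ((hA j hj).2 u hu).1).2]
    exact hj
  rw [sum_biUnion dj] at key
  have c3 : ∑ i ∈ H', L * (2 + (y i - 1)) ≤ ∑ i ∈ H', ∑ u ∈ A i,
      (1 + (fl univ fun j => u ∈ ln j ∧ j ≠ hub u ∧ ∃ y ∈ Y, y ∈ ln j).card) :=
    sum_le_sum fun i hi => by
      have := card_nsmul_le_sum (A i) (fun u =>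
        1 + (fl univ fun j => u ∈ ln j ∧ j ≠ hub u ∧ ∃ y ∈ Y, y ∈ ln j).card) (2 + (y i - 1))
        fun u hu => by
          have := ((hA i hi).2 u hu).2
          have := (hy i hi).2
          omega
      rwa [(hA i hi).1, smul_eq_mul] at this
  rw [← mul_sum, sum_add_distrib, sum_const, smul_eq_mul] at c3
  by_contra hc
  have c4 : 3 ≤ ∑ i ∈ H', (y i - 1) := by omega
  have c5 := Nat.mul_le_mul_left L c4
  have c6 : L * (H'.card * 2 + ∑ i ∈ H', (y i - 1)) =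
      2 * (H'.card * L) + L * ∑ i ∈ H', (y i - 1) := by ring
  omega

end Pool.Agent.P.MP_1fec7a_co.F
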