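import Pool.Agent.P.MP_1fec7a_co.F.Iface

/-! Colouring the points outside the cores so that the given pairs share a colour. -/

set_option autoImplicit false
set_option linter.unusedSectionVars false

namespace Pool.Agent.P.MP_1fec7a_co.F

open Finset S

section
variable {V : Type} [DecidableEq V] {N : V → V → Prop} {O : Finset (V × V)}

theorem col_fst (hO : Valid N O) {e e' : V × V} (he : e ∈ O) (he' : e' ∈ O) (h : e.1 = e'.1) :
    e = e' := by
  by_contra k
  exact (hO.2 e he e' he' k).1 h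

theorem col_snd (hO : Valid N O) {e e' : V × V} (he : e ∈ O) (he' : e' ∈ O) (h : e.2 = e'.2) :
    e = e' := by
  by_contra k
  exact (hO.2 e he e' he' k).2.2.2 h

theorem col_mix (hO : Valid N O) (hN : ∀ p q, N p q → p ≠ q) {e e' : V × V} (he : e ∈ O)
    (he' : e' ∈ O) : e.1 ≠ e'.2 := fun h => by
  by_cases k : e = e'
  · subst k
    exact hN _ _ (hO.1 e he) h
  · exact (hO.2 e he e' he' k).2.1 h

theorem col_ex (G : Finset V) {K : ℕ} (hK : G.card ≤ K) (hO : Valid N O)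
    (hN : ∀ p q, N p q → p ≠ q) (hG : ∀ p q, N p q → p ∈ G) :
    ∃ c : V → ℕ, (∀ v ∈ G, c v < K) ∧ (∀ e ∈ O, c e.1 = c e.2) ∧
      ∀ u ∈ G, ∀ v ∈ G, c u = c v → u = v ∨ (u, v) ∈ O ∨ (v, u) ∈ O := by
  classical
  obtain ⟨c0, a1, a2⟩ : ∃ c0 : V → ℕ, (∀ v ∈ G, c0 v < K) ∧
      ∀ u ∈ G, ∀ v ∈ G, c0 u = c0 v → u = v := by
    refine ⟨fun v => if h : v ∈ G then (G.equivFin ⟨v, h⟩ : ℕ) else 0, fun v hv => ?_,
      fun u hu v hv h => ?_⟩
    · simp only [dif_pos hv]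
      exact (G.equivFin ⟨v, hv⟩).2.trans_le hK
    · simp only [dif_pos hu, dif_pos hv] at h
      exact congrArg Subtype.val (G.equivFin.injective (Fin.ext h))
  obtain ⟨r, r1, r2, r3⟩ : ∃ r : V → V, (∀ e ∈ O, r e.2 = e.1) ∧ (∀ e ∈ O, r e.1 = e.1) ∧
      ∀ v, r v = v ∨ (r v, v) ∈ O := by
    refine ⟨fun v => if h : ∃ e ∈ O, e.2 = v then h.choose.1 else v, fun e he => ?_,
      fun e he => ?_, fun v => ?_⟩
    · have h : ∃ e' ∈ O, e'.2 = e.2 := ⟨e, he, rfl⟩
      simp only [dif_pos h]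
      rw [col_snd hO h.choose_spec.1 he h.choose_spec.2]
    · have h : ¬ ∃ e' ∈ O, e'.2 = e.1 := fun ⟨e', he', k⟩ => col_mix hO hN he he' k.symm
      simp only [dif_neg h]
    · by_cases h : ∃ e ∈ O, e.2 = v
      · right
        simp only [dif_pos h]
        have h1 := h.choose_spec
        generalize h.choose = e at h1
        obtain ⟨h1, rfl⟩ := h1
        exact h1
      · left
        simp only [dif_neg h]
  have r4 : ∀ v ∈ G, r v ∈ G := fun v hv =>
    (r3 v).elim (fun h => h.symm ▸ hv) fun h => hG _ _ (hO.1 _ h)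
  refine ⟨fun v => c0 (r v), fun v hv => a1 _ (r4 v hv), fun e he => by
    simp only [r1 e he, r2 e he], fun u hu v hv h => ?_⟩
  have e := a2 _ (r4 u hu) _ (r4 v hv) h
  rcases r3 u with h1 | h1 <;> rcases r3 v with h2 | h2
  · exact Or.inl (h1.symm.trans (e.trans h2))
  · rw [← e, h1] at h2
    exact Or.inr (Or.inl h2)
  · rw [e, h2] at h1
    exact Or.inr (Or.inr h1)
  · exact Or.inl (congrArg Prod.snd (col_fst hO h1 h2 e))

theorem col_card (hO : Valid N O) (hN : ∀ p q, N p q → p ≠ q) (c : V → ℕ)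
    (hc : ∀ e ∈ O, c e.1 = c e.2) (Z : Finset V) :
    (Z.image c).card + (fl O fun e => e.1 ∈ Z ∧ e.2 ∈ Z).card ≤ Z.card := by
  have h1 : (fl O fun e => e.1 ∈ Z ∧ e.2 ∈ Z).image Prod.snd ⊆ Z := fun v hv => by
    obtain ⟨e, he, rfl⟩ := mem_image.1 hv
    exact (mem_fl.1 he).2.2
  have h2 : ((fl O fun e => e.1 ∈ Z ∧ e.2 ∈ Z).image Prod.snd).card =
      (fl O fun e => e.1 ∈ Z ∧ e.2 ∈ Z).card :=
    card_image_of_injOn fun e he e' he' h =>
      col_snd hO (mem_fl.1 (mem_coe.1 he)).1 (mem_fl.1 (mem_coe.1 he')).1 h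
  have h3 : Z.image c ⊆ (Z \ (fl O fun e => e.1 ∈ Z ∧ e.2 ∈ Z).image Prod.snd).image c := by
    intro a ha
    obtain ⟨v, hv, rfl⟩ := mem_image.1 ha
    by_cases k : v ∈ (fl O fun e => e.1 ∈ Z ∧ e.2 ∈ Z).image Prod.snd
    · obtain ⟨e, he, rfl⟩ := mem_image.1 k
      refine mem_image.2 ⟨e.1, mem_sdiff.2 ⟨(mem_fl.1 he).2.1, fun k' => ?_⟩, hc e (mem_fl.1 he).1⟩
      obtain ⟨e', he', k''⟩ := mem_image.1 k'
      exact col_mix hO hN (mem_fl.1 he).1 (mem_fl.1 he').1 k''.symm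
    · exact mem_image.2 ⟨v, mem_sdiff.2 ⟨hv, k⟩, rfl⟩
  have h4 := (card_le_card h3).trans card_image_le
  have h5 := card_sdiff_add_card_eq_card h1
  omega

theorem col_miss {S T : Finset V} (p : V → Prop) (hT : T ⊆ S) (h : ∀ u ∈ T, ¬ p u) :
    (fl S p).card + T.card ≤ S.card := by
  rw [← card_union_of_disjoint (disjoint_left.2 fun u hu hu' => h u hu' (mem_fl.1 hu).2)]
  exact card_le_card (union_subset (fl_subset _ _) hT)

end

theorem p_COL (h : S_EXT) : S_COL := by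
  intro V Λ _ _ ln P X hub K D C U A O hsub hSt hAp hD hC hK hO hcnt
  have hN : ∀ p q, Non ln (gam P (hubs P X hub) U) p q → p ≠ q := fun p q k => k.2.2.1
  obtain ⟨c, c1, c2, c3⟩ := col_ex _ hK hO hN fun p q k => k.1
  refine h V Λ ln P X hub K D U c (fun h => (kk ln U A h).image c ∪
    (fl O (Cov ln U A C h)).image fun e => c e.1) hsub hSt hAp.usub
    ⟨c1, fun u hu v hv k e => ?_⟩ fun h hh => ⟨fun w hw => ?_, ?_, fun α hα => ?_⟩
  · rcases c3 u hu v hv e with e | e | e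
    · exact k.1 e
    · exact (hO.1 _ e).2.2.2 k
    · obtain ⟨k1, i, k2, k3⟩ := k
      exact (hO.1 _ e).2.2.2 ⟨k1.symm, i, k3, k2⟩
  · exact mem_union_left _ (mem_image_of_mem c (mem_union_left _ hw))
  · have h1 := col_card hO hN c c2 (kk ln U A h)
    have h2 := card_union_le ((kk ln U A h).image c)
      ((fl O (Cov ln U A C h)).image fun e => c e.1)
    have h3 := card_image_le (s := fl O (Cov ln U A C h)) (f := fun e => c e.1)
    have h4 := hcnt h hh
    omega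
  · have off : ∀ x, c x = α → x ∉ kk ln U A h := fun x hx k =>
      hα (mem_union_left _ (mem_image.2 ⟨x, k, hx⟩))
    suffices H : ∃ T ⊆ U h, C ≤ T.card ∧
        ∀ u ∈ T, ¬ ∃ w ∈ gam P (hubs P X hub) U, Coll ln u w ∧ c w = α by
      obtain ⟨T, t1, t2, t3⟩ := H
      have := col_miss _ t1 t3
      omega
    by_cases h1 : ∃ e ∈ O, c e.1 = α
    · obtain ⟨e, he, e1⟩ := h1
      have e2 : c e.2 = α := (c2 e he).symm.trans e1
      refine ⟨fl (U h) fun u => ¬ Coll ln u e.1 ∧ ¬ Coll ln u e.2, fl_subset _ _, ?_, ?_⟩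
      · by_contra k
        exact hα (mem_union_right _ (mem_image.2
          ⟨e, mem_fl.2 ⟨he, off _ e1, off _ e2, not_le.1 k⟩, e1⟩))
      · rintro u hu ⟨w, hw, k1, k2⟩
        rcases c3 w hw e.1 (hO.1 e he).1 (k2.trans e1.symm) with k | k | k
        · exact (mem_fl.1 hu).2.1 (k ▸ k1)
        · exact col_mix hO hN he k rfl
        · have : w = e.2 := congrArg Prod.snd (col_fst hO k he rfl)
          exact (mem_fl.1 hu).2.2 (this ▸ k1)
    · by_cases h2 : ∃ x ∈ gam P (hubs P X hub) U, c x = α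
      · obtain ⟨x, hx, e1⟩ := h2
        have x1 := off x e1
        have x2 := mem_fl.1 hx
        refine ⟨fl (U h) fun u => ¬ Coll ln u x, fl_subset _ _, hAp.max h hh x x2.1
          (fun k => x1 (mem_union_left _ (mem_sdiff.2 ⟨k, x2.2 h hh⟩)))
          (fun k => x1 (mem_union_right _ k)), ?_⟩
        rintro u hu ⟨w, hw, k1, k2⟩
        rcases c3 w hw x hx (k2.trans e1.symm) with k | k | k
        · exact (mem_fl.1 hu).2 (k ▸ k1)
        · exact h1 ⟨_, k, k2⟩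
        · exact h1 ⟨_, k, e1⟩
      · exact ⟨U h, Subset.refl _, hC h hh, fun u _ ⟨w, hw, _, k⟩ => h2 ⟨w, hw, k⟩⟩

end Pool.Agent.P.MP_1fec7a_co.F
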