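import Pool.Agent.P.MP_1fec7a_co.F.Iface

/-! The finite combinatorics of the end game. -/

set_option autoImplicit false
set_option linter.unusedSectionVars false

namespace Pool.Agent.P.MP_1fec7a_co.F

open Finset S

theorem p_GR : S_GR := by
  intro V _ N Z hV hs hi
  obtain ⟨x₀⟩ := hV
  have hne : ∀ p q, N p q → p ≠ q := fun p q h e => hi q (e ▸ h)
  refine ⟨fun h => ?_, fun h => ?_, fun Z' he h => ?_⟩
  · obtain ⟨p, hp, q, hq, hpq, -, -⟩ := h x₀
    have key : ∀ u ∈ Z, ∀ v ∈ Z, N u v →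
        (∃ e e' : V × V, e.1 ∈ Z ∧ e.2 ∈ Z ∧ e'.1 ∈ Z ∧ e'.2 ∈ Z ∧ N e.1 e.2 ∧ N e'.1 e'.2 ∧
          Dj e e') ∨ ∃ s ∈ Z, N v s ∧ s ≠ u := by
      intro u hu v hv huv
      obtain ⟨s, hs', t, ht, hst, hsu, htu⟩ := h u
      by_cases h1 : s = v
      · exact Or.inr ⟨t, ht, h1 ▸ hst, htu⟩
      by_cases h2 : t = v
      · exact Or.inr ⟨s, hs', h2 ▸ hs _ _ hst, hsu⟩
      exact Or.inl ⟨(u, v), (s, t), hu, hv, hs', ht, huv, hst, hsu.symm, htu.symm,
        fun e => h1 e.symm, fun e => h2 e.symm⟩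
    rcases key p hp q hq hpq with h1 | ⟨s, hs', hqs, hsp⟩
    · exact Or.inl h1
    rcases key q hq p hp (hs _ _ hpq) with h2 | ⟨t, ht, hpt, htq⟩
    · exact Or.inl h2
    by_cases hst : s = t
    · exact Or.inr ⟨p, hp, q, hq, s, hs', hpq, hst ▸ hpt, hqs⟩
    · exact Or.inl ⟨(q, s), (p, t), hq, hs', hp, ht, hqs, hpt, (hne _ _ hpq).symm, htq.symm,
        hsp, hst⟩
  · obtain ⟨p, hp, q, hq, hpq, -⟩ := h x₀ x₀
    obtain ⟨s, hs', t, ht, hst, h1, h2, h3, h4⟩ := h p q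
    exact ⟨(p, q), (s, t), hp, hq, hs', ht, hpq, hst, h1.symm, h2.symm, h3.symm, h4.symm⟩
  · obtain ⟨p, hp, q, hq, hpq⟩ := he
    by_cases h1 : p ∈ Z'
    · by_cases h2 : q ∈ Z'
      · exact ⟨(p, q), (p, q), hp, hq, h1, h2, hpq, hpq, Or.inl rfl⟩
      · obtain ⟨s, hs', t, ht, hst, h3, h4⟩ := h p
        exact ⟨(p, q), (s, t), hp, hq, hs', ht, hpq, hst, Or.inr ⟨h3.symm, h4.symm,
          fun e => h2 (by rw [show q = s from e]; exact hs'),
          fun e => h2 (by rw [show q = t from e]; exact ht)⟩⟩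
    · obtain ⟨s, hs', t, ht, hst, h3, h4⟩ := h q
      exact ⟨(p, q), (s, t), hp, hq, hs', ht, hpq, hst, Or.inr
        ⟨fun e => h1 (by rw [show p = s from e]; exact hs'),
          fun e => h1 (by rw [show p = t from e]; exact ht), h3.symm, h4.symm⟩⟩

section core

variable {V Λ : Type} [DecidableEq V] [DecidableEq Λ] {H : Finset Λ} {N : V → V → Prop}
  {Kk : Λ → Finset V} {a : Λ → ℕ} {f : Λ → ℤ} {Cv : Λ → V × V → Prop} {W : Λ → ℕ → Prop}

lemma core_b1 (hb : Bud H W) {h : Λ} (hh : h ∈ H) {y : ℕ} (hy : W h y) : y ≤ 3 := by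
  by_contra hc
  have := hb {h} (by simpa using hh) (by simp) (fun _ => y) (by
    intro t ht
    rw [mem_singleton.1 ht]
    exact ⟨hy, by omega⟩)
  rw [sum_singleton] at this
  omega

lemma core_b2 (hb : Bud H W) {h j : Λ} (hh : h ∈ H) (hj : j ∈ H) (hne : h ≠ j) {y z : ℕ}
    (hy : W h y) (hz : W j z) (h1 : 1 ≤ y) (h2 : 1 ≤ z) : y + z ≤ 4 := by
  have := hb {h, j} (by simp [insert_subset_iff, hh, hj]) (card_le_two.trans (by norm_num))
    (fun t => if t = h then y else z) (by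
      intro t ht
      rcases mem_insert.1 ht with rfl | ht
      · simp [hy, h1]
      · rw [mem_singleton.1 ht]
        simp [hne.symm, hz, h2])
  rw [sum_pair hne] at this
  simp [hne.symm] at this
  omega

lemma core_b3 (hb : Bud H W) {h j k : Λ} (hh : h ∈ H) (hj : j ∈ H) (hk : k ∈ H) (hhj : h ≠ j)
    (hhk : h ≠ k) (hjk : j ≠ k) {y z w : ℕ} (hy : W h y) (hz : W j z) (hw : W k w) (h1 : 2 ≤ y)
    (h2 : 2 ≤ z) (h3 : 2 ≤ w) : False := by
  have := hb {h, j, k} (by simp [insert_subset_iff, hh, hj, hk]) card_le_three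
    (fun t => if t = h then y else if t = j then z else w) (by
      intro t ht
      rcases mem_insert.1 ht with rfl | ht
      · simp [hy]; omega
      rcases mem_insert.1 ht with rfl | ht
      · simp [hhj.symm, hz]; omega
      · rw [mem_singleton.1 ht]
        simp [hhk.symm, hjk.symm, hw]; omega)
  rw [sum_insert (by simp [hhj, hhk]), sum_pair hjk] at this
  simp [hhj.symm, hhk.symm, hjk.symm] at this
  omega

lemma core_a3 (c : Core H N Kk a f Cv W) {h : Λ} (hh : h ∈ H) : a h ≤ 3 := by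
  by_contra hc
  have := core_b1 c.bud hh (c.w0 h hh 4 le_rfl (by omega))
  omega

lemma core_valid {e e' : V × V} (h1 : N e.1 e.2) (h2 : N e'.1 e'.2) (h : e = e' ∨ Dj e e') :
    Valid N {e, e'} := by
  refine ⟨fun t ht => ?_, fun s hs t ht hst => ?_⟩
  · rcases mem_insert.1 ht with rfl | ht
    · exact h1
    · rw [mem_singleton.1 ht]; exact h2
  · rcases h with h | h
    · subst h
      simp only [mem_insert, mem_singleton, or_self] at hs ht
      exact absurd (hs.trans ht.symm) hst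
    · simp only [mem_insert, mem_singleton] at hs ht
      rcases hs with rfl | rfl <;> rcases ht with rfl | rfl
      · exact absurd rfl hst
      · exact h
      · exact ⟨h.1.symm, h.2.2.1.symm, h.2.1.symm, h.2.2.2.symm⟩
      · exact absurd rfl hst

/-- A hub with `f ≤ 0` that fails has weight at least two. -/
lemma core_fail (c : Core H N Kk a f Cv W) {O : Finset (V × V)} (hO : Valid N O)
    {h : Λ} (hh : h ∈ H) (hf : f h ≤ 0)
    (hfail : ¬ f h + (fl O (Cv h)).card ≤ (fl O fun e => e.1 ∈ Kk h ∧ e.2 ∈ Kk h).card) :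
    ∃ y, 2 ≤ y ∧ W h y := by
  have ha := core_a3 c hh
  have hfa := c.fa h hh
  have hle := card_fl_le O (Cv h)
  by_cases h1 : 1 < (fl O (Cv h)).card
  · obtain ⟨e, he, e', he', hne⟩ := one_lt_card.1 h1
    rw [mem_fl] at he he'
    exact ⟨a h + 2, by omega, c.w2 h hh ha e e' (hO.1 e he.1) (hO.1 e' he'.1)
      (hO.2 e he.1 e' he'.1 hne) he.2 he'.2⟩
  · have h0 : 0 < (fl O (Cv h)).card := by omega
    obtain ⟨e, he⟩ := card_pos.1 h0
    rw [mem_fl] at he
    exact ⟨a h + 1, by omega, c.w1 h hh ha e (hO.1 e he.1) he.2⟩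

/-- An edge inside `Kk h` avoiding a small set. -/
lemma core_edge (c : Core H N Kk a f Cv W) {h : Λ} (hh : h ∈ H) (Z : Finset V)
    (hZ : (Z.card : ℤ) ≤ f h) : ∃ p ∈ Kk h, ∃ q ∈ Kk h, N p q ∧ p ∉ Z ∧ q ∉ Z := by
  by_contra hc
  have := c.tau h hh Z (by
    intro p hp q hq hpq
    by_contra h'
    rw [not_or] at h'
    exact hc ⟨p, hp, q, hq, hpq, h'.1, h'.2⟩)
  omega

/-- The hub itself is satisfied by pairs inside `Kk h`. -/
lemma core_self (c : Core H N Kk a f Cv W) {O : Finset (V × V)} {h : Λ}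
    (hin : ∀ e ∈ O, e.1 ∈ Kk h ∧ e.2 ∈ Kk h) (hf : f h ≤ O.card) :
    f h + (fl O (Cv h)).card ≤ (fl O fun e => e.1 ∈ Kk h ∧ e.2 ∈ Kk h).card := by
  have h1 : fl O (Cv h) = ∅ := by
    refine eq_empty_of_forall_notMem fun e he => ?_
    rw [mem_fl] at he
    exact (c.off h e he.2).1 (hin e he.1).1
  have h2 : (fl O fun e => e.1 ∈ Kk h ∧ e.2 ∈ Kk h) = O := by
    ext e
    rw [mem_fl]
    exact ⟨fun he => he.1, fun he => ⟨he, hin e he⟩⟩
  rw [h1, h2]
  simpa using hf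

/-- A single pair inside the only hub with `f = 1` works, or another hub covers it. -/
lemma core_single (c : Core H N Kk a f Cv W) {h : Λ} (hf : f h = 1)
    (ho : ∀ j ∈ H, j ≠ h → f j ≤ 0) {e : V × V} (he : N e.1 e.2) (h1 : e.1 ∈ Kk h)
    (h2 : e.2 ∈ Kk h) :
    (∃ O : Finset (V × V), Valid N O ∧ ∀ j ∈ H,
      f j + (fl O (Cv j)).card ≤ (fl O fun e => e.1 ∈ Kk j ∧ e.2 ∈ Kk j).card) ∨
    ∃ j ∈ H, j ≠ h ∧ Cv j e ∧ 1 ≤ a j := by
  by_cases hc : ∃ j ∈ H, j ≠ h ∧ Cv j e ∧ 1 ≤ a j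
  · exact Or.inr hc
  refine Or.inl ⟨{e}, by simpa using core_valid he he (Or.inl rfl), fun j hj => ?_⟩
  by_cases hjh : j = h
  · subst hjh
    exact core_self c (by simp [h1, h2]) (by simp [hf])
  have h3 := ho j hj hjh
  have h4 := c.fa j hj
  have h5 : (fl {e} (Cv j)).card ≤ 1 := by simpa using card_fl_le {e} (Cv j)
  by_cases h6 : Cv j e
  · have : ¬ 1 ≤ a j := fun h7 => hc ⟨j, hj, hjh, h6, h7⟩
    omega
  · have : fl {e} (Cv j) = ∅ := by
      refine eq_empty_of_forall_notMem fun t ht => ?_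
      rw [mem_fl, mem_singleton] at ht
      exact h6 (ht.1 ▸ ht.2)
    rw [this, card_empty]
    omega

end core

theorem p_CORE (hG : S_GR) : S_CORE := by
  intro V Λ _ _ H N Kk a f Cv W c
  have hw2 : ∀ h ∈ H, 1 ≤ f h → W h 2 := fun h hh hf =>
    c.w0 h hh 2 (by norm_num) (by have := c.fa h hh; omega)
  by_cases h0 : ∃ h ∈ H, 1 ≤ f h
  swap
  · refine ⟨∅, ⟨by simp, by simp⟩, fun h hh => ?_⟩
    have : ¬ 1 ≤ f h := fun hf => h0 ⟨h, hh, hf⟩
    have h1 : (fl (∅ : Finset (V × V)) (Cv h)).card ≤ 0 := by simpa using card_fl_le ∅ (Cv h)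
    omega
  obtain ⟨h, hh, hf⟩ := h0
  obtain ⟨p₀, hp₀, q₀, hq₀, hpq₀, -⟩ := core_edge c hh ∅ (by simp; omega)
  have G := fun Z => hG V N Z ⟨p₀⟩ c.symm c.irr
  have hone : ∀ j ∈ H, 1 ≤ f j → ∀ x, ∃ p ∈ Kk j, ∃ q ∈ Kk j, N p q ∧ p ≠ x ∧ q ≠ x := by
    intro j hj hfj x
    simpa using core_edge c hj {x} (by simpa using hfj)
  have ha := core_a3 c hh
  have hfa := c.fa h hh
  by_cases h1 : ∃ k ∈ H, k ≠ h ∧ 1 ≤ f k
  · -- two hubs with positive `f`
    obtain ⟨k, hk, hkh, hfk⟩ := h1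
    obtain ⟨e, e', h1, h2, h3, h4, h5, h6, h7⟩ :=
      (G (Kk h)).2.2 (Kk k) ⟨p₀, hp₀, q₀, hq₀, hpq₀⟩ (hone k hk hfk)
    have hO := core_valid h5 h6 h7
    have two : ∀ i ∈ H, ∀ j ∈ H, i ≠ j → 1 ≤ f i → 1 ≤ f j → ∀ t ∈ ({e, e'} : Finset (V × V)),
        t.1 ∈ Kk i → t.2 ∈ Kk i → f i + (fl {e, e'} (Cv i)).card ≤
          (fl ({e, e'} : Finset (V × V)) fun e => e.1 ∈ Kk i ∧ e.2 ∈ Kk i).card := by
      intro i hi j hj hij hfi hfj t ht t1 t2
      have hai := core_a3 c hi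
      have hfai := c.fa i hi
      have ha2 : a i ≤ 2 := by
        by_contra hc
        have := core_b2 c.bud hi hj hij (c.w0 i hi 3 (by norm_num) (by omega)) (hw2 j hj hfj)
          (by norm_num) (by norm_num)
        omega
      have hz : fl {e, e'} (Cv i) = ∅ := by
        refine eq_empty_of_forall_notMem fun s hs => ?_
        rw [mem_fl] at hs
        have := core_b2 c.bud hi hj hij (c.w1 i hi hai s (hO.1 s hs.1) hs.2) (hw2 j hj hfj)
          (by omega) (by norm_num)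
        omega
      have hp : 0 < (fl ({e, e'} : Finset (V × V)) fun e => e.1 ∈ Kk i ∧ e.2 ∈ Kk i).card :=
        card_pos.2 ⟨t, mem_fl.2 ⟨ht, t1, t2⟩⟩
      rw [hz, card_empty]
      omega
    refine ⟨{e, e'}, hO, fun j hj => ?_⟩
    by_cases hjh : j = h
    · subst hjh
      exact two j hj k hk hkh.symm hf hfk e (by simp) h1 h2
    by_cases hjk : j = k
    · subst hjk
      exact two j hj h hh hkh hfk hf e' (by simp) h3 h4
    by_contra hc
    by_cases hfj : 1 ≤ f j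
    · exact core_b3 c.bud hj hh hk hjh hjk hkh.symm (hw2 j hj hfj) (hw2 h hh hf) (hw2 k hk hfk)
        le_rfl le_rfl le_rfl
    · obtain ⟨y, hy, hW⟩ := core_fail c hO hj (by omega) hc
      exact core_b3 c.bud hj hh hk hjh hjk hkh.symm hW (hw2 h hh hf) (hw2 k hk hfk)
        hy le_rfl le_rfl
  have ho : ∀ j ∈ H, j ≠ h → f j ≤ 0 := by
    intro j hj hjh
    by_contra hc
    exact h1 ⟨j, hj, hjh, by omega⟩
  by_cases h2 : f h = 1
  · -- one hub with `f = 1`
    have hW := hw2 h hh hf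
    have dist : ∀ i ∈ H, ∀ j ∈ H, i ≠ h → j ≠ h → ∀ e e' : V × V, N e.1 e.2 → N e'.1 e'.2 →
        Cv i e → Cv j e' → 1 ≤ a i → 1 ≤ a j → i = j := by
      intro i hi j hj hih hjh e e' n1 n2 c1 c2 a1 a2
      by_contra hij
      exact core_b3 c.bud hi hj hh hij hih hjh (c.w1 i hi (core_a3 c hi) e n1 c1)
        (c.w1 j hj (core_a3 c hj) e' n2 c2) hW (by omega) (by omega) le_rfl
    rcases (G (Kk h)).1 (hone h hh hf) with ⟨e, e', k1, k2, k3, k4, n1, n2, hd⟩ |
      ⟨p, hp, q, hq, r, hr, n1, n2, n3⟩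
    · rcases core_single c h2 ho n1 k1 k2 with hO | ⟨i, hi, hih, c1, a1⟩
      · exact hO
      rcases core_single c h2 ho n2 k3 k4 with hO | ⟨j, hj, hjh, c2, a2⟩
      · exact hO
      obtain rfl := dist i hi j hj hih hjh e e' n1 n2 c1 c2 a1 a2
      have := core_b2 c.bud hi hh hih (c.w2 i hi (core_a3 c hi) e e' n1 n2 hd c1 c2) hW
        (by omega) (by norm_num)
      omega
    · rcases core_single c h2 ho (e := (p, q)) n1 hp hq with hO | ⟨i, hi, hih, c1, a1⟩
      · exact hO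
      rcases core_single c h2 ho (e := (p, r)) n2 hp hr with hO | ⟨j, hj, hjh, c2, a2⟩
      · exact hO
      rcases core_single c h2 ho (e := (q, r)) n3 hq hr with hO | ⟨k, hk, hkh, c3, a3⟩
      · exact hO
      obtain rfl := dist i hi j hj hih hjh (p, q) (p, r) n1 n2 c1 c2 a1 a2
      obtain rfl := dist i hi k hk hih hkh (p, q) (q, r) n1 n3 c1 c3 a1 a3
      have := core_b2 c.bud hi hh hih (c.w3 i hi (core_a3 c hi) p q r n1 n2 n3 c1 c2 c3) hW
        (by omega) (by norm_num)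
      omega
  · -- one hub with `f = 2`
    have hf2 : f h = 2 := by omega
    have hW : W h 3 := c.w0 h hh 3 (by norm_num) (by omega)
    obtain ⟨e, e', k1, k2, k3, k4, n1, n2, hd⟩ := (G (Kk h)).2.1 (by
      intro x y
      obtain ⟨p, hp, q, hq, hpq, h3, h4⟩ := core_edge c hh {x, y} (by
        have : ({x, y} : Finset V).card ≤ 2 := card_le_two
        omega)
      simp only [mem_insert, mem_singleton, not_or] at h3 h4
      exact ⟨p, hp, q, hq, hpq, h3.1, h4.1, h3.2, h4.2⟩)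
    have hO := core_valid n1 n2 (Or.inr hd)
    refine ⟨{e, e'}, hO, fun j hj => ?_⟩
    by_cases hjh : j = h
    · subst hjh
      refine core_self c (by simp [k1, k2, k3, k4]) ?_
      rw [card_pair fun h' => hd.1 (by rw [h'])]
      omega
    by_contra hc
    obtain ⟨y, hy, hWy⟩ := core_fail c hO hj (ho j hj hjh) hc
    have := core_b2 c.bud hj hh hjh hWy hW (by omega) (by norm_num)
    omega

end Pool.Agent.P.MP_1fec7a_co.F
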