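import Pool.Agent.P.MP_1fec7a_co.F.Iface

/-! Two consequences of the forest bound. -/

set_option autoImplicit false

namespace Pool.Agent.P.MP_1fec7a_co.F

open Finset S

theorem p_E1 (h : S_M3) : S_E1 := by
  intro V Λ _ _ _ ln g X hl he
  rcases isEmpty_or_nonempty Λ with _ | ⟨⟨i₀⟩⟩
  · simp
  rcases X.eq_empty_or_nonempty with rfl | ⟨x₀, -⟩
  · simp
  obtain ⟨pb, hpb⟩ : ∃ pb : Λ → V, ∀ i, (ln i ∩ X).Nonempty → pb i ∈ ln i ∩ X := by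
    have : Nonempty V := ⟨x₀⟩
    choose! pb hpb using fun i (k : (ln i ∩ X).Nonempty) => k.exists_mem
    exact ⟨pb, hpb⟩
  let T : Finset (V × Λ) := (X ×ˢ univ).filter fun s => s.1 ∈ ln s.2 ∧ s.1 ≠ pb s.2
  have hT : ∀ s, s ∈ T ↔ s.1 ∈ X ∧ s.1 ∈ ln s.2 ∧ s.1 ≠ pb s.2 := fun s => by simp [T]
  have hp : ∀ s ∈ T, pb s.2 ∈ ln s.2 := fun s hs =>
    (mem_inter.1 (hpb _ ⟨s.1, mem_inter.2 ⟨((hT s).1 hs).2.1, ((hT s).1 hs).1⟩⟩)).1
  refine le_trans ?_ (h V Λ V ln g id pb T X.card he ⟨∅, X,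
    univ.filter fun i => (ln i ∩ X).Nonempty, ∅, fun _ => i₀, pb, fun _ => 0, fun _ => 1,
    by simp, by simp, fun i hi => ?_, fun s hs => ?_, fun s hs t ht e => ?_⟩)
  · rw [card_eq_sum_card_fiberwise (s := T) (t := univ) (f := Prod.snd) fun _ _ => mem_univ _]
    refine sum_le_sum fun i _ => (pred_card_le_card_erase (a := pb i)).trans ?_
    refine card_le_card_of_injOn (fun v => (v, i)) (fun v hv => ?_) fun v _ w _ e =>
      congrArg Prod.fst e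
    have := mem_erase.1 (mem_coe.1 hv)
    exact mem_coe.2 (mem_filter.2
      ⟨(hT _).2 ⟨(mem_inter.1 this.2).2, (mem_inter.1 this.2).1, this.1⟩, rfl⟩)
  · have := mem_inter.1 (hpb i (mem_filter.1 hi).2)
    exact ⟨this.1, one_pos, rfl, Or.inr this.2⟩
  · obtain ⟨a, b, c⟩ := (hT s).1 hs
    exact ⟨b, Or.inr a, Or.inl (mem_filter.2 ⟨mem_univ _, s.1, mem_inter.2 ⟨b, a⟩⟩), c⟩
  · obtain ⟨-, b, c⟩ := (hT s).1 hs
    obtain ⟨-, b', -⟩ := (hT t).1 ht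
    rcases Sym2.eq_iff.1 e with ⟨e1, e2⟩ | ⟨e1, e2⟩
    · exact Prod.ext e1 (hl _ _ _ _ c b (hp s hs) ((show s.1 = t.1 from e1) ▸ b') (e2 ▸ hp t ht))
    · have e3 : s.1 = pb t.2 := e1
      have := hl _ _ _ _ c b (hp s hs) (e3 ▸ hp t ht) ((show pb s.2 = t.1 from e2) ▸ b')
      exact (c (this ▸ e3)).elim

theorem p_E2 (h : S_M3) : S_E2 := by
  intro V Λ _ _ ln g P B hl he
  generalize hZ : (fl P fun v => ∃ i ∈ B, ∃ j ∈ B, i ≠ j ∧ v ∈ ln i ∧ v ∈ ln j) = Z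
  have h1 : ∀ v ∈ Z, ∃ i ∈ B, ∃ j ∈ B, i ≠ j ∧ v ∈ ln i ∧ v ∈ ln j := fun v hv =>
    (mem_fl.1 (hZ ▸ hv :)).2
  rcases Z.eq_empty_or_nonempty with rfl | ⟨v₀, h0⟩
  · simp
  have : Nonempty Λ := ⟨(h1 v₀ h0).choose⟩
  choose! i hi j hj hne a b using h1
  refine le_trans ?_ (h V Λ Λ ln g i id (Z.image fun v => (v, j v)) B.card he ⟨Z, ∅, ∅, B, i,
    fun _ => v₀, fun _ => 1, fun _ => 0, by simp, fun u hu => ⟨a u hu, one_pos, rfl,
      Or.inr (hi u hu)⟩, by simp, fun s hs => ?_, fun s hs t ht e => ?_⟩)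
  · rw [card_image_of_injective _ fun v w e => congrArg Prod.fst e]
  · obtain ⟨v, hv, rfl⟩ := mem_image.1 hs
    exact ⟨b v hv, Or.inl hv, Or.inr (hj v hv), hne v hv⟩
  · obtain ⟨v, hv, rfl⟩ := mem_image.1 hs
    obtain ⟨w, hw, rfl⟩ := mem_image.1 ht
    have : v = w := by
      by_contra n
      rcases Sym2.eq_iff.1 e with ⟨e1, e2⟩ | ⟨e1, e2⟩
      · exact hne v hv (hl _ _ _ _ n (a v hv) ((show i v = i w from e1) ▸ a w hw) (b v hv)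
          ((show j v = j w from e2) ▸ b w hw))
      · exact hne v hv (hl _ _ _ _ n (a v hv) ((show i v = j w from e1) ▸ b w hw) (b v hv)
          ((show j v = i w from e2) ▸ a w hw))
    rw [this]

end Pool.Agent.P.MP_1fec7a_co.F
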