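import Pool.Agent.P.MP_1fec7a_co.F.Iface

set_option autoImplicit false

namespace Pool.Agent.P.MP_1fec7a_co.F

open Finset S

theorem p_E3 (h : S_M3) : S_E3 := by
  intro V Λ _ _ ln g D P X hub _ hep hst
  classical
  rw [← card_sigma]
  set H := hubs P X hub with hH
  set Q := H.sigma fun h => fl H (AdjH ln P X hub h) with hQ
  rcases Q.eq_empty_or_nonempty with h0 | ⟨q₀, hq₀⟩
  · rw [h0]; exact Nat.zero_le _
  let f : (Σ _ : Λ, Λ) → Sym2 Λ := fun q => s(q.1, q.2)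
  have h1 : Q.card ≤ 2 * (Q.image f).card := by
    refine card_le_mul_card_image _ 2 fun z hz => ?_
    obtain ⟨⟨a, b⟩, -, rfl⟩ := mem_image.1 hz
    refine (card_le_card (t := {⟨a, b⟩, ⟨b, a⟩}) ?_).trans card_le_two
    rintro ⟨c, d⟩ hq
    rcases Sym2.eq_iff.1 (mem_filter.1 hq).2 with ⟨rfl, rfl⟩ | ⟨rfl, rfl⟩ <;> simp
  have hex : ∀ z ∈ Q.image f, ∃ (u w : V) (e : Λ), u ∈ P \ X ∧ w ∈ P \ X ∧ u ∈ ln e ∧ w ∈ ln e ∧
      hub w ≠ hub u ∧ s(hub u, hub w) = z := by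
    intro z hz
    obtain ⟨q, hq, rfl⟩ := mem_image.1 hz
    obtain ⟨hne, u, hu, w, hw, e1, e2, -, i, hi1, hi2⟩ := (mem_fl.1 (mem_sigma.1 hq).2).2
    exact ⟨u, w, i, hu, hw, hi1, hi2, by rw [e1, e2]; exact hne.symm, by rw [e1, e2]⟩
  have : Nonempty V := (hex _ (mem_image_of_mem f hq₀)).elim fun u _ => ⟨u⟩
  have : Nonempty Λ := ⟨q₀.1⟩
  have : Nonempty (Sym2 Λ) := ⟨f q₀⟩
  choose! u w e hu hw hue hwe hne hz using hex
  have hnh : ∀ z ∈ Q.image f, ∀ v ∈ P \ X, e z ≠ hub v := fun z hz' v hv he =>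
    hne z hz' ((hst.uniq _ (hw z hz') v hv (he ▸ hwe z hz')).trans
      (hst.uniq _ (hu z hz') v hv (he ▸ hue z hz')).symm)
  set L := (Q.image f).image e with hL
  have h2 : (Q.image f).card ≤ D ^ 2 * L.card := by
    refine card_le_mul_card_image _ _ fun l hl => ?_
    obtain ⟨z₀, hz₀, rfl⟩ := mem_image.1 hl
    have hD := hst.small _ (hu z₀ hz₀) _ (hue z₀ hz₀) (hnh z₀ hz₀ _ (hu z₀ hz₀))
    refine (card_le_card_of_injOn (t := ln (e z₀) ×ˢ ln (e z₀)) (fun z => (u z, w z))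
      (fun z hz' => ?_) fun z hz' z' hz'' hzz => ?_).trans ?_
    · obtain ⟨a1, a2⟩ := mem_filter.1 hz'
      exact mem_product.2 ⟨a2 ▸ hue z a1, a2 ▸ hwe z a1⟩
    · obtain ⟨a1, a2⟩ := Prod.ext_iff.1 hzz
      rw [← hz z (mem_filter.1 hz').1, ← hz z' (mem_filter.1 hz'').1]
      exact congrArg₂ (fun a b => s(hub a, hub b)) a1 a2
    · rw [card_product, sq]
      exact Nat.mul_le_mul hD hD
  choose! p hp hpe using fun l (hl : l ∈ L) => mem_image.1 hl
  have hnL : ∀ v ∈ P \ X, hub v ∉ L := fun v hv hl => hnh _ (hp _ hl) v hv (hpe _ hl)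
  have h3 := h V Λ Λ ln g hub (fun l => if l ∈ L then hub (u (p l)) else l)
    (L.image fun l => (w (p l), l)) H.card hep
    ⟨P \ X, ∅, L, H, hub, fun l => u (p l), fun _ => 1, fun l => if l ∈ L then 2 else 0, by simp,
      fun v hv => ⟨hst.mem v hv, by simp [hnL v hv], by simp [hnL v hv],
        Or.inr (mem_image_of_mem _ hv)⟩,
      fun l hl => ⟨by simpa [hpe l hl] using hue _ (hp l hl), by simp [hl], by simp [hl],
        Or.inl (hu _ (hp l hl))⟩,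
      fun s hs => by
        obtain ⟨l, hl, rfl⟩ := mem_image.1 hs
        exact ⟨by simpa [hpe l hl] using hwe _ (hp l hl), Or.inl (hw _ (hp l hl)), Or.inl hl,
          by simpa [hl] using hne _ (hp l hl)⟩,
      fun s hs t ht hst' => by
        obtain ⟨l, hl, rfl⟩ := mem_image.1 hs
        obtain ⟨l', hl', rfl⟩ := mem_image.1 ht
        simp only [hl, hl', if_true] at hst'
        rw [Sym2.eq_swap, hz _ (hp l hl), Sym2.eq_swap, hz _ (hp l' hl')] at hst'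
        rw [← hpe l hl, ← hpe l' hl', hst']⟩
  rw [card_image_of_injective _ fun a b hab => (Prod.ext_iff.1 hab).2] at h3
  calc Q.card ≤ 2 * (D ^ 2 * L.card) := h1.trans (Nat.mul_le_mul_left _ h2)
    _ ≤ 2 * (D ^ 2 * (3 * H.card + 6 * g)) := by gcongr
    _ = _ := (mul_assoc _ _ _).symm

end Pool.Agent.P.MP_1fec7a_co.F
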