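import Pool.Agent.P.MP_1fec7a_co.F.Iface

set_option autoImplicit false

namespace Pool.Agent.P.MP_1fec7a_co.F

open Finset S

theorem p_E4 (h : S_M2) : S_E4 := by
  intro V Λ _ _ _ ln g D P X hub A Y hlin hep hst hA hAY
  classical
  rcases A.eq_empty_or_nonempty with rfl | ⟨u₀, -⟩
  · simp
  let F : V → Finset Λ := fun u => fl univ fun i => u ∈ ln i ∧ i ≠ hub u ∧ ∃ y ∈ Y, y ∈ ln i
  let J : Finset Λ := fl univ fun i => i ∉ A.image hub ∧ ∃ y ∈ Y, y ∈ ln i
  have hpb : ∀ i, ∃ y : V, i ∈ J → y ∈ Y ∧ y ∈ ln i := fun i => by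
    by_cases hi : i ∈ J
    · obtain ⟨y, hy, hy'⟩ := (mem_fl.1 hi).2.2
      exact ⟨y, fun _ => ⟨hy, hy'⟩⟩
    · exact ⟨u₀, fun h' => absurd h' hi⟩
  choose pb hpb using hpb
  let cL : Λ → V ⊕ Λ := fun i => if i ∈ J then Sum.inl (pb i) else Sum.inr i
  let side : V ⊕ Λ → Bool := Sum.elim (fun v => decide (v ∈ A)) fun _ => false
  let S₁ : Finset (V × Λ) := A.biUnion fun u => (insert (hub u) (F u)).image fun i => (u, i)
  have hS : ∀ s ∈ S₁, s.1 ∈ A ∧ s.1 ∈ ln s.2 ∧ (s.2 ∈ J ∨ s.2 ∈ A.image hub) := by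
    intro s hs
    obtain ⟨u, hu, hs⟩ := mem_biUnion.1 hs
    obtain ⟨i, hi, rfl⟩ := mem_image.1 hs
    rcases mem_insert.1 hi with rfl | hi
    · exact ⟨hu, hst.mem u (hA hu), Or.inr (mem_image_of_mem _ hu)⟩
    · obtain ⟨-, h1, h2, h3⟩ := mem_fl.1 hi
      refine ⟨hu, h1, Or.inl (mem_fl.2 ⟨mem_univ _, fun h4 => ?_, h3⟩)⟩
      obtain ⟨w, hw, rfl⟩ := mem_image.1 h4
      exact h2 (hst.uniq u (hA hu) w (hA hw) h1).symm
  have hside1 : ∀ u ∈ A, side (Sum.inl u) = true := fun u hu => by simp [side, hu]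
  have hside2 : ∀ i, side (cL i) = false := fun i => by
    by_cases hi : i ∈ J
    · have : pb i ∉ A := fun h' => disjoint_left.1 hAY h' (hpb i hi).1
      simp [side, cL, hi, this]
    · simp [side, cL, hi]
  have hne : ∀ u ∈ A, ∀ i, Sum.inl u ≠ cL i := fun u hu i e => by
    have := hside1 u hu
    rw [e, hside2] at this
    exact Bool.false_ne_true this
  have hcard : S₁.card = ∑ u ∈ A, (1 + (F u).card) := by
    rw [card_biUnion]
    · refine sum_congr rfl fun u _ => ?_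
      rw [card_image_of_injective _ (Prod.mk_right_injective u), card_insert_of_notMem, add_comm]
      exact fun h' => (mem_fl.1 h').2.2.1 rfl
    · intro u _ w _ huw
      refine disjoint_left.2 fun s h1 h2 => huw ?_
      obtain ⟨i, -, rfl⟩ := mem_image.1 h1
      obtain ⟨j, -, e⟩ := mem_image.1 h2
      exact (congrArg Prod.fst e).symm
  rw [← hcard]
  refine h V Λ (V ⊕ Λ) ln g Sum.inl cL S₁ _ side hep
    ⟨∅, A ∪ Y, J, A.image hub, hub, pb, fun _ => 0, fun _ => 1, ?_, ?_, ?_, ?_, ?_⟩ ?_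
  · have := card_union_le A Y
    omega
  · intro u hu
    exact absurd hu (notMem_empty u)
  · intro i hi
    exact ⟨(hpb i hi).2, one_pos, by simp [cL, hi], Or.inr (mem_union_right _ (hpb i hi).1)⟩
  · intro s hs
    obtain ⟨h1, h2, h3⟩ := hS s hs
    exact ⟨h2, Or.inr (mem_union_left _ h1), h3, hne _ h1 _⟩
  · rintro ⟨u, i⟩ hs ⟨w, j⟩ ht e
    obtain ⟨h1, h2, -⟩ := hS _ hs
    obtain ⟨h3, h4, -⟩ := hS _ ht
    rcases Sym2.eq_iff.1 e with ⟨e1, e2⟩ | ⟨e1, -⟩
    · obtain rfl : u = w := Sum.inl_injective e1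
      congr 1
      by_cases hi : i ∈ J <;> by_cases hj : j ∈ J
      · have e3 : pb i = pb j := by simpa [cL, hi, hj] using e2
        have e4 : u ≠ pb i := fun e' => disjoint_left.1 hAY h1 (e' ▸ (hpb i hi).1)
        exact hlin i j u (pb i) e4 h2 (hpb i hi).2 h4 (e3 ▸ (hpb j hj).2)
      · simp [cL, hi, hj] at e2
      · simp [cL, hi, hj] at e2
      · simpa [cL, hi, hj] using e2
    · exact absurd e1 (hne _ h1 _)
  · intro s hs
    rw [hside1 _ (hS s hs).1, hside2]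
    exact Bool.false_ne_true.symm

end Pool.Agent.P.MP_1fec7a_co.F
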