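import Pool.Agent.P.MP_1fec7a_co.F.Iface

/-! The end game. -/

set_option autoImplicit false
set_option linter.unusedSectionVars false

namespace Pool.Agent.P.MP_1fec7a_co.F

open Finset S

section

variable {V Λ : Type} [DecidableEq V] [DecidableEq Λ] {ln : Λ → Finset V} {P X : Finset V}
  {hub : V → Λ} {D : ℕ}

theorem end_ln (hP : ∀ i, ln i ⊆ P) (hS : St ln P X hub D) {h : Λ} (hh : h ∈ hubs P X hub) :
    (ln h).card ≤ (gen P X hub h).card + X.card := by
  refine le_trans (card_le_card fun v hv => ?_) (card_union_le _ _)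
  obtain ⟨w, hw, rfl⟩ := mem_image.1 hh
  by_cases hx : v ∈ X
  · exact mem_union_right _ hx
  · have h1 : v ∈ P \ X := mem_sdiff.2 ⟨hP _ hv, hx⟩
    exact mem_union_left _ (mem_fl.2 ⟨h1, hS.uniq v h1 w hw hv⟩)

theorem end_gam {U : Λ → Finset V} {E : ℕ} (h1 : ∀ h, U h ⊆ gen P X hub h)
    (h2 : ∀ h, (gen P X hub h).card ≤ (U h).card + E) :
    (gam P (hubs P X hub) U).card ≤ X.card + (hubs P X hub).card * E := by
  have h3 : gam P (hubs P X hub) U ⊆
      X ∪ (hubs P X hub).biUnion fun h => gen P X hub h \ U h := fun v hv => by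
    obtain ⟨a, b⟩ := mem_fl.1 hv
    by_cases hx : v ∈ X
    · exact mem_union_left _ hx
    · have h4 : v ∈ P \ X := mem_sdiff.2 ⟨a, hx⟩
      have h5 : hub v ∈ hubs P X hub := mem_image_of_mem _ h4
      exact mem_union_right _ (mem_biUnion.2 ⟨_, h5, mem_sdiff.2 ⟨mem_fl.2 ⟨h4, rfl⟩, b _ h5⟩⟩)
  refine (card_le_card h3).trans ((card_union_le _ _).trans (Nat.add_le_add_left ?_ _))
  refine card_biUnion_le_card_mul _ _ _ fun h _ => ?_
  rw [card_sdiff_of_subset (h1 h)]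
  have := h2 h
  omega

end

theorem end_x {t c K x : ℕ} {N : ℝ} (ht : 0 < t) (hc : 0 < c) (hK : 0 < K) (h0 : 0 ≤ N)
    (hN : N ≤ c * K) (h : (x : ℝ) ≤ N / (2 * c * t : ℕ) + ((2 * c * t : ℕ) * N / K) *
      (N / (2 * (2 * c * t) * c ^ 2 * t : ℕ))) : t * x ≤ K := by
  have ht' : (0 : ℝ) < t := by exact_mod_cast ht
  have hc' : (0 : ℝ) < c := by exact_mod_cast hc
  have hK' : (0 : ℝ) < K := by exact_mod_cast hK
  have h1 : (x : ℝ) ≤ K / t := by
    push_cast at h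
    calc (x : ℝ) ≤ _ := h
      _ ≤ c * K / (2 * c * t) + (2 * c * t * (c * K) / K) *
          (c * K / (2 * (2 * c * t) * c ^ 2 * t)) := by gcongr
      _ = K / t := by field_simp; ring
  rw [le_div_iff₀ ht', mul_comm] at h1
  exact_mod_cast h1

theorem p_END (hS : S_STR) (hA : S_APX) (hC : S_COL) (hB : S_BUD) (hW : S_WT) (hK : S_CORE) :
    S_END := by
  intro δ C₀ hδ
  obtain ⟨t₀, ht₀⟩ := exists_nat_ge (10 / δ)
  obtain ⟨t, ht⟩ : ∃ t, t = t₀ + 10 := ⟨_, rfl⟩
  obtain ⟨c, hc⟩ : ∃ c, c = 6 * C₀ + 12 := ⟨_, rfl⟩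
  obtain ⟨r, hr⟩ : ∃ r, r = 2 * c * t := ⟨_, rfl⟩
  obtain ⟨D, hD⟩ : ∃ D, D = 2 * (2 * c * t) * c ^ 2 * t := ⟨_, rfl⟩
  obtain ⟨C, hC'⟩ : ∃ C, C = r * D + 2 * c * (r * D) := ⟨_, rfl⟩
  obtain ⟨M, hM⟩ : ∃ M, M = r * D + C * (r * D) + 3 * C + 441 := ⟨_, rfl⟩
  refine ⟨t * (48 + 3 * M) + 4 * M + 2 * (2 * c * (C * (r * D))) + 1,
    fun K hK₀ V Λ _ _ _ ln P g hCr hP hg => ?_⟩
  have t0 : 0 < t := by omega
  have c0 : 0 < c := by omega
  have K0 : 0 < K := by omega
  have hK' : (0 : ℝ) ≤ K := Nat.cast_nonneg K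
  have hgK : g ≤ K := by
    have : (g : ℝ) ≤ K := by nlinarith [mul_nonneg hδ.le hK']
    exact_mod_cast this
  have hgt : t * (4 * g) + 10 * K ≤ t * (3 * K) := by
    have h1 : (10 : ℝ) ≤ t * δ := by
      rw [div_le_iff₀ hδ] at ht₀
      rw [ht]
      push_cast
      nlinarith
    have h2 := mul_le_mul_of_nonneg_left hg (Nat.cast_nonneg (α := ℝ) t)
    have h3 := mul_le_mul_of_nonneg_right h1 hK'
    have : (t : ℝ) * (4 * g) + 10 * K ≤ t * (3 * K) := by nlinarith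
    exact_mod_cast this
  have hN : 6 * P.card + 12 * g ≤ c * K := by
    rw [hc, add_mul, mul_assoc]
    omega
  obtain ⟨X, hub, hSt, s1, s2, -, s4⟩ := hS V Λ ln P K g r D hCr (by rw [hr]; positivity)
    (by rw [hD]; positivity) (by omega)
  have hX : t * X.card ≤ K := by
    rw [hr, hD] at s4
    exact end_x t0 c0 K0 (by positivity) (by exact_mod_cast hN) s4
  have hX' : 10 * X.card ≤ K := le_trans (Nat.mul_le_mul_right _ (by omega)) hX
  have hH : (hubs P X hub).card ≤ 2 * c := by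
    refine Nat.le_of_mul_le_mul_right ?_ K0
    calc (hubs P X hub).card * K ≤ (hubs P X hub).card * (2 * (K + 1 - r * D)) :=
          Nat.mul_le_mul_left _ (by omega)
      _ = 2 * ((hubs P X hub).card * (K + 1 - r * D)) := by ring
      _ ≤ 2 * (c * K) := Nat.mul_le_mul_left _ (s2.trans hN)
      _ = _ := by ring
  have hG : ∀ h ∈ hubs P X hub, K + 1 ≤ (gen P X hub h).card + X.card + r * D := fun h hh =>
    (s1 h hh).trans (Nat.add_le_add_right (end_ln hCr.sub hSt hh) _)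
  obtain ⟨U, A, hAp, hU⟩ := hA V Λ ln P X hub (r * D) C hSt fun h hh => by
    have := hG h hh
    rw [mul_add_one]
    omega
  have hL : ∀ h ∈ hubs P X hub, K - X.card - M + 3 * C + 441 ≤ (U h).card := fun h hh => by
    have h1 := hG h hh
    have h2 := hU h
    omega
  have hL' : 48 + 4 * g < 3 * (K - X.card - M) := by
    have h1 : t * (48 + 3 * M + 4 * g + 3 * X.card) < t * (3 * K) := by
      have e : t * (48 + 3 * M + 4 * g + 3 * X.card) =
          t * (48 + 3 * M) + t * (4 * g) + 3 * (t * X.card) := by ring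
      omega
    have := Nat.lt_of_mul_lt_mul_left h1
    omega
  have hBud := hB V Λ ln P X hub g (r * D) C _ U hCr.lin hCr.ep hSt hAp.usub hL hL'
  obtain ⟨O, o1, o2⟩ := hK V Λ _ _ _ _ _ _ _ (hW V Λ ln P X hub K g (r * D) C U A hCr hSt hAp hBud)
  refine hCr.ncol (hC V Λ ln P X hub K (r * D) C U A O hCr.sub hSt hAp ?_ (fun h hh => ?_) ?_ o1
    fun h hh => ?_)
  · have := Nat.mul_le_mul_right (r * D) hH
    omega
  · have := hL h hh
    omega
  · have h1 := end_gam hAp.usub hU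
    have h2 := Nat.mul_le_mul_right (C * (r * D)) hH
    omega
  · have := o2 h hh
    omega

end Pool.Agent.P.MP_1fec7a_co.F
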