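import Pool.Agent.P.MP_1fec7a_co.F.Iface

/-! Extending a colouring over the cores of the hubs. -/

set_option autoImplicit false

namespace Pool.Agent.P.MP_1fec7a_co.F

open Finset S

variable {V Λ : Type} [DecidableEq V] [DecidableEq Λ]

omit [DecidableEq Λ] in
lemma ext_mem {P X : Finset V} {hub : V → Λ} {U : Λ → Finset V}
    (hU : ∀ h, U h ⊆ gen P X hub h) {h : Λ} {u : V} (hu : u ∈ U h) : u ∈ P \ X ∧ hub u = h :=
  mem_fl.1 (hU h hu)

/-- Few points of a core see a given colour on the cores that are already coloured. -/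
lemma ext_cnt {ln : Λ → Finset V} {P X : Finset V} {hub : V → Λ} {K D : ℕ} {U : Λ → Finset V}
    (hS : St ln P X hub D) (hU : ∀ h, U h ⊆ gen P X hub h) {H : Finset Λ} {h : Λ} (hh : h ∉ H)
    {Y : Finset V} (hY : H.biUnion U ⊆ Y) {c : V → ℕ} (hc : PC ln Y K c) (a : ℕ) :
    (fl (U h) fun u => ∃ w ∈ H.biUnion U, Coll ln u w ∧ c w = a).card ≤ H.card * D := by
  have h1 : (fl (H.biUnion U) fun w => c w = a).card ≤ H.card := by
    refine card_le_card_of_injOn hub (fun w hw => ?_) fun w hw w' hw' e => ?_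
    · obtain ⟨i, hi, hw'⟩ := mem_biUnion.1 (mem_fl.1 (mem_coe.1 hw)).1
      rw [(ext_mem hU hw').2]
      exact mem_coe.2 hi
    · obtain ⟨a1, a2⟩ := mem_fl.1 (mem_coe.1 hw)
      obtain ⟨b1, b2⟩ := mem_fl.1 (mem_coe.1 hw')
      obtain ⟨i, -, a3⟩ := mem_biUnion.1 a1
      obtain ⟨j, -, b3⟩ := mem_biUnion.1 b1
      by_contra hne
      exact hc.2 w (hY a1) w' (hY b1) ⟨hne, hub w, hS.mem w (ext_mem hU a3).1,
        e ▸ hS.mem w' (ext_mem hU b3).1⟩ (a2.trans b2.symm)
  refine le_trans (card_le_card (t := (fl (H.biUnion U) fun w => c w = a).biUnion fun w =>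
    fl P fun u => Coll ln w u ∧ u ∉ ln (hub w)) fun u hu => ?_)
    ((card_biUnion_le_card_mul _ _ D fun w hw => ?_).trans (Nat.mul_le_mul_right _ h1))
  · obtain ⟨a1, w, a2, a3, a4⟩ := mem_fl.1 hu
    obtain ⟨i, hi, a5⟩ := mem_biUnion.1 a2
    refine mem_biUnion.2 ⟨w, mem_fl.2 ⟨a2, a4⟩,
      mem_fl.2 ⟨(mem_sdiff.1 (ext_mem hU a1).1).1, a3.symm, fun a6 => hh ?_⟩⟩
    rw [← (ext_mem hU a1).2, hS.uniq u (ext_mem hU a1).1 w (ext_mem hU a5).1 a6,
      (ext_mem hU a5).2]
    exact hi
  · obtain ⟨i, -, a5⟩ := mem_biUnion.1 (mem_fl.1 hw).1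
    exact hS.out w (ext_mem hU a5).1

theorem p_EXT : S_EXT := by
  intro V Λ _ _ ln P X hub K D U c B _ hS hU hc hB
  have key : ∀ H : Finset Λ, H ⊆ hubs P X hub → ∃ c' : V → ℕ,
      PC ln (gam P (hubs P X hub) U ∪ H.biUnion U) K c' ∧
        ∀ v ∈ gam P (hubs P X hub) U, c' v = c v := by
    intro H
    induction H using Finset.induction_on with
    | empty => exact fun _ => ⟨c, by rwa [biUnion_empty, union_empty], fun _ _ => rfl⟩
    | insert h H hh ih =>
      intro hH
      obtain ⟨c', h1, h2⟩ := ih ((subset_insert _ _).trans hH)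
      have h3 := hH (mem_insert_self _ _)
      obtain ⟨b1, b2, b3⟩ := hB h h3
      have hP : ∀ w ∈ gam P (hubs P X hub) U ∪ H.biUnion U, w ∈ P := fun w hw => by
        rcases mem_union.1 hw with hw | hw
        · exact (mem_fl.1 hw).1
        · obtain ⟨i, -, a5⟩ := mem_biUnion.1 hw
          exact (mem_sdiff.1 (ext_mem hU a5).1).1
      have hZ : (U h).card ≤ (range K \ B h).card := by
        have := le_card_sdiff (B h) (range K)
        rw [card_range] at this
        omega
      obtain ⟨g, g1, g2⟩ := p_DH V (U h) (range K \ B h)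
        (fun u a => ∃ w ∈ gam P (hubs P X hub) U ∪ H.biUnion U,
          Coll ln u w ∧ w ∉ ln h ∧ c' w = a) D ((U h).card - D) hZ (fun v hv => by
          have a1 := hS.out v (ext_mem hU hv).1
          rw [(ext_mem hU hv).2] at a1
          exact Nat.cast_le.2 (le_trans (card_le_card (t := (fl P fun w =>
            Coll ln v w ∧ w ∉ ln h).image c') fun a ha => by
              obtain ⟨-, w, a2, a3, a4, a5⟩ := mem_fl.1 ha
              exact mem_image.2 ⟨w, mem_fl.2 ⟨hP w a2, a3, a4⟩, a5⟩) (card_image_le.trans a1)))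
        (fun a ha => by
          have a1 := b3 a (mem_sdiff.1 ha).2
          have a2 := (ext_cnt hS hU hh subset_union_right h1 a).trans
            (Nat.mul_le_mul_right D (card_le_card ((subset_insert _ _).trans hH)))
          have a3 := (card_le_card (s := fl (U h) fun u =>
              ∃ w ∈ gam P (hubs P X hub) U ∪ H.biUnion U, Coll ln u w ∧ w ∉ ln h ∧ c' w = a)
            (t := (fl (U h) fun u => ∃ w ∈ gam P (hubs P X hub) U, Coll ln u w ∧ c w = a) ∪
              fl (U h) fun u => ∃ w ∈ H.biUnion U, Coll ln u w ∧ c' w = a) fun u hu => by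
              obtain ⟨a4, w, a5, a6, -, a7⟩ := mem_fl.1 hu
              rcases mem_union.1 a5 with a5 | a5
              · exact mem_union_left _ (mem_fl.2 ⟨a4, w, a5, a6, (h2 w a5).symm.trans a7⟩)
              · exact mem_union_right _ (mem_fl.2 ⟨a4, w, a5, a6, a7⟩)).trans (card_union_le _ _)
          rw [le_sub_iff_add_le, ← Nat.cast_add, Nat.cast_le]
          omega)
        (by rw [add_sub_cancel]; exact Nat.cast_le.2 hZ)
      have old : ∀ v ∈ gam P (hubs P X hub) U ∪ (insert h H).biUnion U, v ∉ U h →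
          v ∈ gam P (hubs P X hub) U ∪ H.biUnion U := fun v hv hv' => by
        rw [biUnion_insert, mem_union, mem_union] at hv
        rcases hv with hv | hv | hv
        · exact mem_union_left _ hv
        · exact absurd hv hv'
        · exact mem_union_right _ hv
      have mix : ∀ u ∈ U h, ∀ v ∈ gam P (hubs P X hub) U ∪ H.biUnion U, v ∉ U h → Coll ln u v →
          g u ≠ c' v := fun u hu v hv hv' huv e => by
        by_cases hl : v ∈ ln h
        · rcases mem_union.1 hv with hv | hv
          · refine (mem_sdiff.1 (g1 u hu).1).2 ?_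
            rw [e, h2 v hv]
            exact b1 v (mem_sdiff.2 ⟨hl, hv'⟩)
          · obtain ⟨i, hi, a5⟩ := mem_biUnion.1 hv
            refine hh ?_
            rw [← (ext_mem hU hu).2] at hl ⊢
            rw [← hS.uniq v (ext_mem hU a5).1 u (ext_mem hU hu).1 hl, (ext_mem hU a5).2]
            exact hi
        · exact (g1 u hu).2 ⟨v, hv, huv, hl, e.symm⟩
      refine ⟨fun v => if v ∈ U h then g v else c' v, ⟨fun v hv => ?_, fun u hu v hv huv => ?_⟩,
        fun v hv => ?_⟩
      · by_cases e : v ∈ U h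
        · simp only [if_pos e]
          exact mem_range.1 (mem_sdiff.1 (g1 v e).1).1
        · simp only [if_neg e]
          exact h1.1 v (old v hv e)
      · by_cases e : u ∈ U h <;> by_cases e' : v ∈ U h
        · simp only [if_pos e, if_pos e']
          exact fun a => huv.1 (g2 u e v e' a)
        · simp only [if_pos e, if_neg e']
          exact mix u e v (old v hv e') e' huv
        · simp only [if_neg e, if_pos e']
          exact (mix v e' u (old u hu e) e huv.symm).symm
        · simp only [if_neg e, if_neg e']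
          exact h1.2 u (old u hu e) v (old v hv e') huv
      · simp only [if_neg ((mem_fl.1 hv).2 h h3)]
        exact h2 v hv
  obtain ⟨c', h1, -⟩ := key _ Subset.rfl
  have hP : ∀ v ∈ P, v ∈ gam P (hubs P X hub) U ∪ (hubs P X hub).biUnion U := fun v hv => by
    by_cases e : ∃ h ∈ hubs P X hub, v ∈ U h
    · exact mem_union_right _ (mem_biUnion.2 e)
    · exact mem_union_left _ (mem_fl.2 ⟨hv, fun h hh a => e ⟨h, hh, a⟩⟩)
  exact ⟨c', fun v hv => h1.1 v (hP v hv), fun u hu v hv => h1.2 u (hP u hu) v (hP v hv)⟩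

end Pool.Agent.P.MP_1fec7a_co.F
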