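import Pool.Agent.P.MP_1fec7a_co.S.B1
import Pool.Agent.P.MP_1fec7a_co.S.B10
import Pool.Agent.P.MP_1fec7a_co.K68.Geo

/-! Working definitions and the statements of the steps for the sharp linear bound. -/

set_option autoImplicit false
set_option linter.unusedSectionVars false

namespace Pool.Agent.P.MP_1fec7a_co.F

open Finset S

section defs

variable {V Λ : Type} [DecidableEq V] [DecidableEq Λ]

/-- Two points lie on at most one line. -/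
def Lin (ln : Λ → Finset V) : Prop :=
  ∀ i j u v, u ≠ v → u ∈ ln i → v ∈ ln i → u ∈ ln j → v ∈ ln j → i = j

/-- The weighted Euler inequality for sets of incidences. -/
def EP (ln : Λ → Finset V) (g : ℕ) : Prop :=
  ∀ (S : Finset (V × Λ)) (ω : V × Λ → ℝ), (∀ p ∈ S, p.1 ∈ ln p.2) → (∀ p, 0 ≤ ω p) →
    (∀ T ⊆ S, T.Nonempty → (∀ p ∈ T, ∃ q ∈ T, q ≠ p ∧ q.1 = p.1) →
      (∀ p ∈ T, ∃ q ∈ T, q ≠ p ∧ q.2 = p.2) → 1 ≤ ∑ p ∈ T, ω p) →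
    (S.card : ℝ) ≤ (S.image Prod.fst).card + (S.image Prod.snd).card + 2 * ∑ p ∈ S, ω p + 2 * g

/-- A rooted forest of incidences with at most `R` roots inside classes (the points of `A` hang on
the lines `pa`, the lines of `B` hang on the points `pb`), and a set `S₁` of incidences between
different classes that forms a simple graph on the classes. -/
def Forest (ln : Λ → Finset V) {C : Type} (cV : V → C) (cL : Λ → C) (S₁ : Finset (V × Λ))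
    (R : ℕ) : Prop :=
  ∃ (A RV : Finset V) (B RL : Finset Λ) (pa : V → Λ) (pb : Λ → V) (rV : V → ℕ) (rL : Λ → ℕ),
    RV.card + RL.card ≤ R ∧
    (∀ u ∈ A, u ∈ ln (pa u) ∧ rL (pa u) < rV u ∧ cV u = cL (pa u) ∧ (pa u ∈ B ∨ pa u ∈ RL)) ∧
    (∀ i ∈ B, pb i ∈ ln i ∧ rV (pb i) < rL i ∧ cV (pb i) = cL i ∧ (pb i ∈ A ∨ pb i ∈ RV)) ∧
    (∀ s ∈ S₁, s.1 ∈ ln s.2 ∧ (s.1 ∈ A ∨ s.1 ∈ RV) ∧ (s.2 ∈ B ∨ s.2 ∈ RL) ∧ cV s.1 ≠ cL s.2) ∧
    ∀ s ∈ S₁, ∀ t ∈ S₁, s(cV s.1, cL s.2) = s(cV t.1, cL t.2) → s = t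

/-- A critical configuration: not colourable with `K` colours, colourable after removing any point,
cliques have fewer than `K` points. -/
structure Cr (ln : Λ → Finset V) (P : Finset V) (K g : ℕ) : Prop where
  sub : ∀ i, ln i ⊆ P
  lin : Lin ln
  ep : EP ln g
  clq : ∀ Z ⊆ P, (∀ u ∈ Z, ∀ v ∈ Z, u ≠ v → Coll ln u v) → Z.card + 1 ≤ K
  ncol : ¬ ∃ c, PC ln P K c
  crit : ∀ x ∈ P, ∃ c, PC ln (P.erase x) K c

/-- The points outside `X` are generic: each has a hub and few neighbours off its hub. -/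
structure St (ln : Λ → Finset V) (P X : Finset V) (hub : V → Λ) (D : ℕ) : Prop where
  sub : X ⊆ P
  mem : ∀ v ∈ P \ X, v ∈ ln (hub v)
  uniq : ∀ v ∈ P \ X, ∀ w ∈ P \ X, v ∈ ln (hub w) → hub v = hub w
  out : ∀ v ∈ P \ X, (fl P fun w => Coll ln v w ∧ w ∉ ln (hub v)).card ≤ D
  small : ∀ v ∈ P \ X, ∀ i, v ∈ ln i → i ≠ hub v → (ln i).card ≤ D

/-- The hubs. -/
def hubs (P X : Finset V) (hub : V → Λ) : Finset Λ := (P \ X).image hub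

/-- The generic points of a hub. -/
noncomputable def gen (P X : Finset V) (hub : V → Λ) (h : Λ) : Finset V :=
  fl (P \ X) fun v => hub v = h

/-- Two hubs with adjacent generic points. -/
def AdjH (ln : Λ → Finset V) (P X : Finset V) (hub : V → Λ) (h h' : Λ) : Prop :=
  h ≠ h' ∧ ∃ u ∈ P \ X, ∃ w ∈ P \ X, hub u = h ∧ hub w = h' ∧ Coll ln u w

/-- The point `u` has two neighbours in `X` off the line `h`. -/
def Two (ln : Λ → Finset V) (X : Finset V) (h : Λ) (u : V) : Prop :=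
  ∃ x ∈ X, ∃ y ∈ X, x ≠ y ∧ x ∉ ln h ∧ y ∉ ln h ∧ Coll ln u x ∧ Coll ln u y

/-- The points outside the cores `U h`. -/
noncomputable def gam (P : Finset V) (H : Finset Λ) (U : Λ → Finset V) : Finset V :=
  fl P fun v => ∀ h ∈ H, v ∉ U h

/-- Cores `U h` of generic points and apex sets `A h`. -/
structure Ap (ln : Λ → Finset V) (P X : Finset V) (hub : V → Λ) (C : ℕ) (U A : Λ → Finset V) :
    Prop where
  usub : ∀ h, U h ⊆ gen P X hub h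
  asub : ∀ h, ∀ x ∈ A h, x ∈ gam P (hubs P X hub) U ∧ x ∉ ln h
  adj : ∀ h, ∀ u ∈ U h, ∀ x ∈ A h, Coll ln u x
  max : ∀ h ∈ hubs P X hub, ∀ x ∈ P, x ∉ ln h → x ∉ A h →
    C ≤ (fl (U h) fun u => ¬ Coll ln u x).card

/-- The points adjacent to the whole core of `h`. -/
def kk (ln : Λ → Finset V) (U A : Λ → Finset V) (h : Λ) : Finset V := (ln h \ U h) ∪ A h

/-- The pair `e` lies off `kk h` and almost all points of the core see it. -/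
def Cov (ln : Λ → Finset V) (U A : Λ → Finset V) (C : ℕ) (h : Λ) (e : V × V) : Prop :=
  e.1 ∉ kk ln U A h ∧ e.2 ∉ kk ln U A h ∧
    (fl (U h) fun u => ¬ Coll ln u e.1 ∧ ¬ Coll ln u e.2).card < C

/-- Two pairs without a common point. -/
def Dj (e e' : V × V) : Prop := e.1 ≠ e'.1 ∧ e.1 ≠ e'.2 ∧ e.2 ≠ e'.1 ∧ e.2 ≠ e'.2

/-- A family of disjoint pairs in the relation `N`. -/
def Valid (N : V → V → Prop) (O : Finset (V × V)) : Prop :=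
  (∀ e ∈ O, N e.1 e.2) ∧ ∀ e ∈ O, ∀ e' ∈ O, e ≠ e' → Dj e e'

/-- Distinct non-adjacent points of `Γ`. -/
def Non (ln : Λ → Finset V) (Γ : Finset V) (p q : V) : Prop :=
  p ∈ Γ ∧ q ∈ Γ ∧ p ≠ q ∧ ¬ Coll ln p q

/-- Almost all points of the core of `h` have `y` neighbours in `Y` off the line `h`. -/
def Sees (ln : Λ → Finset V) (U : Λ → Finset V) (C : ℕ) (h : Λ) (Y : Finset V) (y : ℕ) : Prop :=
  (fl (U h) fun u => (fl Y fun w => w ∉ ln h ∧ Coll ln u w).card < y).card ≤ 3 * C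

/-- The hub `h` has weight `y`. -/
def Wt (ln : Λ → Finset V) (Γ : Finset V) (U : Λ → Finset V) (C : ℕ) (h : Λ) (y : ℕ) : Prop :=
  ∃ Y ⊆ Γ, Y.card ≤ 7 ∧ Sees ln U C h Y y

/-- The budget: at most two units. -/
def Bud (H : Finset Λ) (W : Λ → ℕ → Prop) : Prop :=
  ∀ H' ⊆ H, H'.card ≤ 3 → ∀ y : Λ → ℕ, (∀ h ∈ H', W h (y h) ∧ 1 ≤ y h) → ∑ h ∈ H', (y h - 1) ≤ 2

/-- The combinatorial data of the end game. -/
structure Core (H : Finset Λ) (N : V → V → Prop) (Kk : Λ → Finset V) (a : Λ → ℕ) (f : Λ → ℤ)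
    (Cv : Λ → V × V → Prop) (W : Λ → ℕ → Prop) : Prop where
  symm : ∀ p q, N p q → N q p
  irr : ∀ p, ¬ N p p
  off : ∀ h e, Cv h e → e.1 ∉ Kk h ∧ e.2 ∉ Kk h
  fa : ∀ h ∈ H, f h + 1 ≤ a h
  tau : ∀ h ∈ H, ∀ Z : Finset V, (∀ p ∈ Kk h, ∀ q ∈ Kk h, N p q → p ∈ Z ∨ q ∈ Z) →
    f h + 1 ≤ Z.card
  bud : Bud H W
  w0 : ∀ h ∈ H, ∀ y ≤ 4, y ≤ a h → W h y
  w1 : ∀ h ∈ H, a h ≤ 3 → ∀ e, N e.1 e.2 → Cv h e → W h (a h + 1)
  w2 : ∀ h ∈ H, a h ≤ 3 → ∀ e e', N e.1 e.2 → N e'.1 e'.2 → Dj e e' → Cv h e → Cv h e' →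
    W h (a h + 2)
  w3 : ∀ h ∈ H, a h ≤ 3 → ∀ p q r, N p q → N p r → N q r → Cv h (p, q) → Cv h (p, r) →
    Cv h (q, r) → W h (a h + 2)

/-- `v'` follows `v` in the cyclic order of the keys on the line `i`. -/
def SuccL (ln : Λ → Finset V) (κ : V → Λ → ℕ) (i : Λ) (v v' : V) : Prop :=
  v ∈ ln i ∧ v' ∈ ln i ∧ (κ v' i = κ v i + 1 ∨ ∀ w ∈ ln i, κ v' i ≤ κ w i ∧ κ w i ≤ κ v i)

/-- `i'` follows `i` in the cyclic order of the keys at the point `v`. -/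
def SuccP (ln : Λ → Finset V) (κ : V → Λ → ℕ) (v : V) (i i' : Λ) : Prop :=
  v ∈ ln i ∧ v ∈ ln i' ∧ (κ v i' = κ v i + 1 ∨ ∀ j, v ∈ ln j → κ v i' ≤ κ v j ∧ κ v j ≤ κ v i)

/-- One step along a face. -/
def Step (ln : Λ → Finset V) (κP κL : V → Λ → ℕ) (s s' : V × Λ) : Prop :=
  SuccL ln κL s.2 s.1 s'.1 ∧ SuccP ln κP s'.1 s.2 s'.2

end defs

/-! ### The example -/

/-- Points of the example: generic points, the points `a` and `b` of the hubs, two apexes. -/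
abbrev XV (m : ℕ) := (Fin 3 × Fin 4 × Fin m) ⊕ (Fin 3 × Bool) ⊕ Bool

/-- Lines of the example. -/
abbrev XL (m : ℕ) := Fin 3 ⊕ ((Fin 3 × Fin 4 × Fin m) × Bool) ⊕ Bool ⊕ Unit

/-- The incidence relation of the example. -/
def xin (m : ℕ) : XL m → XV m → Bool
  | .inl h, .inl u => u.1 = h
  | .inl h, .inr (.inl s) => s.1 = h
  | .inr (.inl e), .inl u => u = e.1
  | .inr (.inl e), .inr (.inr b) => b = e.2
  | .inr (.inr (.inl b)), .inr (.inl s) => s.2 = b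
  | .inr (.inr (.inl b)), .inr (.inr b') => b' = !b
  | .inr (.inr (.inr _)), .inr (.inr _) => true
  | _, _ => false

/-- The lines of the example as sets of points. -/
def xl (m : ℕ) (i : XL m) : Finset (XV m) := univ.filter fun v => xin m i v = true

/-! ### Euler bounds -/

-- deps:
def S_M3 : Prop := ∀ (V Λ C : Type) [DecidableEq V] [DecidableEq Λ] (ln : Λ → Finset V) (g : ℕ)
  (cV : V → C) (cL : Λ → C) (S₁ : Finset (V × Λ)) (R : ℕ), EP ln g → Forest ln cV cL S₁ R →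
  S₁.card ≤ 3 * R + 6 * g

-- deps:
def S_M2 : Prop := ∀ (V Λ C : Type) [DecidableEq V] [DecidableEq Λ] (ln : Λ → Finset V) (g : ℕ)
  (cV : V → C) (cL : Λ → C) (S₁ : Finset (V × Λ)) (R : ℕ) (side : C → Bool), EP ln g →
  Forest ln cV cL S₁ R → (∀ s ∈ S₁, side (cV s.1) ≠ side (cL s.2)) → S₁.card ≤ 2 * R + 4 * g

-- deps: M3
def S_E1 : Prop := ∀ (V Λ : Type) [DecidableEq V] [DecidableEq Λ] [Fintype Λ] (ln : Λ → Finset V)
  (g : ℕ) (X : Finset V), Lin ln → EP ln g → ∑ i, ((ln i ∩ X).card - 1) ≤ 3 * X.card + 6 * g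

-- deps: M3
def S_E2 : Prop := ∀ (V Λ : Type) [DecidableEq V] [DecidableEq Λ] (ln : Λ → Finset V)
  (g : ℕ) (P : Finset V) (B : Finset Λ), Lin ln → EP ln g →
  (fl P fun v => ∃ i ∈ B, ∃ j ∈ B, i ≠ j ∧ v ∈ ln i ∧ v ∈ ln j).card ≤ 3 * B.card + 6 * g

-- deps: M3
def S_E3 : Prop := ∀ (V Λ : Type) [DecidableEq V] [DecidableEq Λ] (ln : Λ → Finset V)
  (g D : ℕ) (P X : Finset V) (hub : V → Λ), Lin ln → EP ln g → St ln P X hub D →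
  ∑ h ∈ hubs P X hub, (fl (hubs P X hub) (AdjH ln P X hub h)).card ≤
    2 * D ^ 2 * (3 * (hubs P X hub).card + 6 * g)

-- deps: M2
def S_E4 : Prop := ∀ (V Λ : Type) [DecidableEq V] [DecidableEq Λ] [Fintype Λ] (ln : Λ → Finset V)
  (g D : ℕ) (P X : Finset V) (hub : V → Λ) (A Y : Finset V), Lin ln → EP ln g →
  St ln P X hub D → A ⊆ P \ X → Disjoint A Y →
  ∑ u ∈ A, (1 + (fl univ fun i => u ∈ ln i ∧ i ≠ hub u ∧ ∃ y ∈ Y, y ∈ ln i).card) ≤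
    2 * (A.card + (A.image hub).card + Y.card) + 4 * g

/-! ### Structure -/

-- deps: E1 E2
def S_STR : Prop := ∀ (V Λ : Type) [DecidableEq V] [DecidableEq Λ] [Fintype Λ]
  (ln : Λ → Finset V) (P : Finset V) (K g r D : ℕ), Cr ln P K g → 0 < r → 0 < D → r * D < K →
  ∃ (X : Finset V) (hub : V → Λ), St ln P X hub (r * D) ∧
    (∀ h ∈ hubs P X hub, K + 1 ≤ (ln h).card + r * D) ∧
    (hubs P X hub).card * (K + 1 - r * D) ≤ 6 * P.card + 12 * g ∧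
    (X.card : ℝ) ≤ (6 * P.card + 12 * g) / r + 3 * ((6 * P.card + 12 * g) / D) + 6 * g ∧
    (X.card : ℝ) ≤ (6 * P.card + 12 * g) / r +
      (r * (6 * P.card + 12 * g) / K) * ((6 * P.card + 12 * g) / D)

-- deps: (S.p_DH)
def S_L3 : Prop := ∀ (V Λ : Type) [DecidableEq V] [DecidableEq Λ] (ln : Λ → Finset V)
  (P X : Finset V) (hub : V → Λ) (K g D : ℕ), Cr ln P K g → St ln P X hub D →
  ∀ h ∈ hubs P X hub, (gen P X hub h).card ≤ (fl (gen P X hub h) (Two ln X h)).card + 2 * D +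
    2 * D * (fl (hubs P X hub) (AdjH ln P X hub h)).card

-- deps: E1 E2 E4
def S_TWO : Prop := ∀ (V Λ : Type) [DecidableEq V] [DecidableEq Λ] [Fintype Λ]
  (ln : Λ → Finset V) (P X : Finset V) (hub : V → Λ) (g D : ℕ), Lin ln → EP ln g →
  St ln P X hub D → (fl (P \ X) fun u => Two ln X (hub u) u).card ≤
    5 * (hubs P X hub).card + 11 * X.card + 28 * g

-- deps: E3 STR L3 TWO
def S_R1 : Prop := ∃ C₀ K₀ : ℕ, ∀ K ≥ K₀, ∀ (V Λ : Type) [DecidableEq V] [DecidableEq Λ]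
  [Fintype Λ] (ln : Λ → Finset V) (P : Finset V) (g : ℕ), Cr ln P K g → g ≤ K → P.card ≤ C₀ * K

/-! ### The end game -/

-- deps:
def S_APX : Prop := ∀ (V Λ : Type) [DecidableEq V] [DecidableEq Λ] (ln : Λ → Finset V)
  (P X : Finset V) (hub : V → Λ) (D C : ℕ), St ln P X hub D →
  (∀ h ∈ hubs P X hub, C * (D + 1) + D < (gen P X hub h).card) →
  ∃ U A : Λ → Finset V, Ap ln P X hub C U A ∧ ∀ h, (gen P X hub h).card ≤ (U h).card + C * D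

-- deps: (S.p_DH)
def S_EXT : Prop := ∀ (V Λ : Type) [DecidableEq V] [DecidableEq Λ] (ln : Λ → Finset V)
  (P X : Finset V) (hub : V → Λ) (K D : ℕ) (U : Λ → Finset V) (c : V → ℕ) (B : Λ → Finset ℕ),
  (∀ i, ln i ⊆ P) → St ln P X hub D → (∀ h, U h ⊆ gen P X hub h) →
  PC ln (gam P (hubs P X hub) U) K c →
  (∀ h ∈ hubs P X hub, (∀ w ∈ ln h \ U h, c w ∈ B h) ∧ (B h).card + (U h).card ≤ K ∧
    ∀ α ∉ B h, (fl (U h) fun u => ∃ w ∈ gam P (hubs P X hub) U, Coll ln u w ∧ c w = α).card + D +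
      (hubs P X hub).card * D ≤ (U h).card) →
  ∃ c', PC ln P K c'

-- deps: EXT
def S_COL : Prop := ∀ (V Λ : Type) [DecidableEq V] [DecidableEq Λ] (ln : Λ → Finset V)
  (P X : Finset V) (hub : V → Λ) (K D C : ℕ) (U A : Λ → Finset V) (O : Finset (V × V)),
  (∀ i, ln i ⊆ P) → St ln P X hub D → Ap ln P X hub C U A →
  D + (hubs P X hub).card * D ≤ C → (∀ h ∈ hubs P X hub, C ≤ (U h).card) →
  (gam P (hubs P X hub) U).card ≤ K → Valid (Non ln (gam P (hubs P X hub) U)) O →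
  (∀ h ∈ hubs P X hub, (kk ln U A h).card + (U h).card + (fl O (Cov ln U A C h)).card ≤
    K + (fl O fun e => e.1 ∈ kk ln U A h ∧ e.2 ∈ kk ln U A h).card) →
  ∃ c', PC ln P K c'

-- deps: E4
def S_BUD : Prop := ∀ (V Λ : Type) [DecidableEq V] [DecidableEq Λ] [Fintype Λ]
  (ln : Λ → Finset V) (P X : Finset V) (hub : V → Λ) (g D C L : ℕ) (U : Λ → Finset V),
  Lin ln → EP ln g → St ln P X hub D → (∀ h, U h ⊆ gen P X hub h) →
  (∀ h ∈ hubs P X hub, L + 3 * C + 441 ≤ (U h).card) → 48 + 4 * g < 3 * L →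
  Bud (hubs P X hub) (Wt ln (gam P (hubs P X hub) U) U C)

-- deps:
def S_WT : Prop := ∀ (V Λ : Type) [DecidableEq V] [DecidableEq Λ] (ln : Λ → Finset V)
  (P X : Finset V) (hub : V → Λ) (K g D C : ℕ) (U A : Λ → Finset V), Cr ln P K g →
  St ln P X hub D → Ap ln P X hub C U A →
  Bud (hubs P X hub) (Wt ln (gam P (hubs P X hub) U) U C) →
  Core (hubs P X hub) (Non ln (gam P (hubs P X hub) U)) (kk ln U A) (fun h => (A h).card)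
    (fun h => ((kk ln U A h).card : ℤ) + (U h).card - K) (Cov ln U A C)
    (Wt ln (gam P (hubs P X hub) U) U C)

-- deps:
def S_GR : Prop := ∀ (V : Type) [DecidableEq V] (N : V → V → Prop) (Z : Finset V),
  Nonempty V → (∀ p q, N p q → N q p) → (∀ p, ¬ N p p) →
  ((∀ x, ∃ p ∈ Z, ∃ q ∈ Z, N p q ∧ p ≠ x ∧ q ≠ x) →
    (∃ e e' : V × V, e.1 ∈ Z ∧ e.2 ∈ Z ∧ e'.1 ∈ Z ∧ e'.2 ∈ Z ∧ N e.1 e.2 ∧ N e'.1 e'.2 ∧ Dj e e') ∨
      ∃ p ∈ Z, ∃ q ∈ Z, ∃ r ∈ Z, N p q ∧ N p r ∧ N q r) ∧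
  ((∀ x y, ∃ p ∈ Z, ∃ q ∈ Z, N p q ∧ p ≠ x ∧ q ≠ x ∧ p ≠ y ∧ q ≠ y) →
    ∃ e e' : V × V, e.1 ∈ Z ∧ e.2 ∈ Z ∧ e'.1 ∈ Z ∧ e'.2 ∈ Z ∧ N e.1 e.2 ∧ N e'.1 e'.2 ∧ Dj e e') ∧
  ∀ Z' : Finset V, (∃ p ∈ Z, ∃ q ∈ Z, N p q) →
    (∀ x, ∃ p ∈ Z', ∃ q ∈ Z', N p q ∧ p ≠ x ∧ q ≠ x) →
    ∃ e e' : V × V, e.1 ∈ Z ∧ e.2 ∈ Z ∧ e'.1 ∈ Z' ∧ e'.2 ∈ Z' ∧ N e.1 e.2 ∧ N e'.1 e'.2 ∧
      (e = e' ∨ Dj e e')

-- deps: GR
def S_CORE : Prop := ∀ (V Λ : Type) [DecidableEq V] [DecidableEq Λ] (H : Finset Λ)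
  (N : V → V → Prop) (Kk : Λ → Finset V) (a : Λ → ℕ) (f : Λ → ℤ) (Cv : Λ → V × V → Prop)
  (W : Λ → ℕ → Prop), Core H N Kk a f Cv W → ∃ O : Finset (V × V), Valid N O ∧
    ∀ h ∈ H, f h + (fl O (Cv h)).card ≤ (fl O fun e => e.1 ∈ Kk h ∧ e.2 ∈ Kk h).card

-- deps: STR APX COL BUD WT CORE
def S_END : Prop := ∀ (δ : ℝ) (C₀ : ℕ), 0 < δ → ∃ K₀ : ℕ, ∀ K ≥ K₀, ∀ (V Λ : Type)
  [DecidableEq V] [DecidableEq Λ] [Fintype Λ] (ln : Λ → Finset V) (P : Finset V) (g : ℕ),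
  Cr ln P K g → P.card ≤ C₀ * K → (4 * g : ℝ) ≤ (3 - δ) * K → False

-- deps: R1 END
def S_TOP : Prop := ∀ ε : ℝ, 0 < ε → ∃ g₀ : ℕ, ∀ g ≥ g₀, ∀ (V : Type) [Fintype V]
  (G : SimpleGraph V) (n : ℕ), reducedGenus G ≤ g → G.chromaticNumber = (n : ℕ∞) →
  (n : ℝ) ≤ max ((4 / 3 + ε) * (g : ℝ)) ((G.cliqueNum : ℝ) + 1)

/-! ### The lower bound -/

-- deps:
def S_KEY : Prop := ∀ (Φ W : Type) [Finite Φ] (pt : Φ → W) (κ : Φ → ℕ),
  (∀ f f', pt f = pt f' → κ f = κ f' → f = f') → ∃ α : Equiv.Perm Φ,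
    (∀ f f', α.SameCycle f f' ↔ pt f = pt f') ∧ ∀ f f', pt f = pt f' →
      (κ f' = κ f + 1 ∨ ∀ f'', pt f'' = pt f → κ f' ≤ κ f'' ∧ κ f'' ≤ κ f) → α f = f'

-- deps: KEY
def S_GK : Prop := ∀ (V Λ : Type) [Fintype V] [Fintype Λ] [DecidableEq V] [DecidableEq Λ]
  (ln : Λ → Finset V) (κP κL : V → Λ → ℕ) (R : Finset (V × Λ)) (g : ℕ),
  (∀ v i j, v ∈ ln i → v ∈ ln j → κP v i = κP v j → i = j) →
  (∀ i v w, v ∈ ln i → w ∈ ln i → κL v i = κL w i → v = w) →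
  (∀ (y : V → Prop) (z : Λ → Prop), (∀ v i, v ∈ ln i → (y v ↔ z i)) →
    (∀ v w, y v → y w) ∧ ∀ v i, y v → z i) →
  (∀ s ∈ R, ∃ s₁ ∉ R, ∃ s₂ ∉ R, Step ln κP κL s s₁ ∧ Step ln κP κL s₁ s₂ ∧
    (Step ln κP κL s₂ s ∨ ∃ s₃ ∉ R, Step ln κP κL s₂ s₃ ∧ Step ln κP κL s₃ s)) →
  Nonempty V → 2 + ∑ i, (ln i).card ≤ Fintype.card V + Fintype.card Λ + R.card + 2 * g →
  genus (incidenceGraph fun i => (ln i : Set V)) ≤ g

-- deps:
def S_XC : Prop := ∀ m : ℕ, 2 ≤ m →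
  HasAdjacencyGraph (fun i => (xl m i : Set (XV m))) (gr (xl m)) ∧
    (gr (xl m)).cliqueNum ≤ 4 * m + 2 ∧ ¬ ∃ c, PC (xl m) univ (4 * m + 3) c

-- deps: GK
def S_XG : Prop := ∀ m : ℕ, 2 ≤ m →
  genus (incidenceGraph fun i => (xl m i : Set (XV m))) ≤ 3 * m + 40

-- deps: XC XG
def S_LOW : Prop := ∀ ε : ℝ, 0 < ε → ∃ g₀ : ℕ, ∀ g ≥ g₀, ∃ (V : Type) (_ : Fintype V)
  (G : SimpleGraph V) (n : ℕ), reducedGenus G ≤ g ∧ G.chromaticNumber = (n : ℕ∞) ∧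
    max ((4 / 3 - ε) * (g : ℝ)) ((G.cliqueNum : ℝ) + 1) < (n : ℝ)

end Pool.Agent.P.MP_1fec7a_co.F
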