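import Pool.Agent.P.MP_1fec7a_co.F.Iface

/-! Most generic points of a hub have two neighbours in `X` off the hub. -/

set_option autoImplicit false
set_option linter.unusedSectionVars false

namespace Pool.Agent.P.MP_1fec7a_co.F

open Finset S

variable {V Λ : Type} [DecidableEq V] [DecidableEq Λ]

/-- The point `u` has a neighbour of colour `a` in `Y` off the line `h`. -/
def l3_Bad (ln : Λ → Finset V) (Y : Finset V) (h : Λ) (c : V → ℕ) (u : V) (a : ℕ) : Prop :=
  ∃ w ∈ Y, Coll ln u w ∧ w ∉ ln h ∧ c w = a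

lemma l3_gen {ln : Λ → Finset V} {P X : Finset V} {hub : V → Λ} {D : ℕ} (hS : St ln P X hub D)
    {h : Λ} {v : V} (hv : v ∈ gen P X hub h) : v ∈ P \ X ∧ hub v = h ∧ v ∈ ln h := by
  have h1 := mem_fl.1 hv
  exact ⟨h1.1, h1.2, h1.2 ▸ hS.mem v h1.1⟩

/-- A recolouring of the generic points of `h` from a set of light colours. -/
lemma l3_ext {ln : Λ → Finset V} {P X : Finset V} {hub : V → Λ} {K D : ℕ}
    (hS : St ln P X hub D) {h : Λ} {x : V} (hx : x ∈ gen P X hub h) {c : V → ℕ}
    (hc : PC ln (P.erase x) K c) {T : Finset ℕ}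
    (hT : T ⊆ range K \ (ln h \ gen P X hub h).image c) (hcard : (gen P X hub h).card ≤ T.card)
    (hl : ∀ a ∈ T, (fl (gen P X hub h) fun u => l3_Bad ln P h c u a).card + D ≤
      (gen P X hub h).card) : ∃ c', PC ln P K c' := by
  classical
  obtain ⟨g, hg, hinj⟩ := S.p_DH V (gen P X hub h) T (l3_Bad ln P h c) D
    (((gen P X hub h).card : ℝ) - D) hcard (fun v hv => by
      obtain ⟨h1, h2, -⟩ := l3_gen hS hv
      have h3 : fl T (l3_Bad ln P h c v) ⊆
          (fl P fun w => Coll ln v w ∧ w ∉ ln (hub v)).image c := by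
        intro a ha
        obtain ⟨w, hw, q1, q2, q3⟩ := (mem_fl.1 ha).2
        exact mem_image.2 ⟨w, mem_fl.2 ⟨hw, q1, h2 ▸ q2⟩, q3⟩
      exact_mod_cast (card_le_card h3).trans (card_image_le.trans (hS.out v h1)))
    (fun a ha => by
      have h1 : (((fl (gen P X hub h) fun u => l3_Bad ln P h c u a).card + D : ℕ) : ℝ) ≤
          ((gen P X hub h).card : ℝ) := by exact_mod_cast hl a ha
      push_cast at h1
      linarith)
    (by
      have h1 : ((gen P X hub h).card : ℝ) ≤ T.card := by exact_mod_cast hcard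
      linarith)
  have hoff : ∀ v ∈ P, v ∉ gen P X hub h → v ∈ P.erase x := fun v hv hz =>
    mem_erase.2 ⟨fun e => hz (e ▸ hx), hv⟩
  have hmix : ∀ u ∈ gen P X hub h, ∀ v ∈ P, v ∉ gen P X hub h → Coll ln u v → g u ≠ c v := by
    intro u hu v hv hz huv e
    by_cases hvl : v ∈ ln h
    · exact (mem_sdiff.1 (hT (hg u hu).1)).2 (mem_image.2 ⟨v, mem_sdiff.2 ⟨hvl, hz⟩, e.symm⟩)
    · exact (hg u hu).2 ⟨v, hv, huv, hvl, e.symm⟩
  refine ⟨fun v => if v ∈ gen P X hub h then g v else c v, fun v hv => ?_,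
    fun u hu v hv huv => ?_⟩
  · by_cases hz : v ∈ gen P X hub h
    · simp only [if_pos hz]
      exact mem_range.1 (mem_sdiff.1 (hT (hg v hz).1)).1
    · simp only [if_neg hz]
      exact hc.1 v (hoff v hv hz)
  · by_cases hz : u ∈ gen P X hub h <;> by_cases hz' : v ∈ gen P X hub h
    · simp only [if_pos hz, if_pos hz']
      exact fun e => huv.1 (hinj u hz v hz' e)
    · simp only [if_pos hz, if_neg hz']
      exact hmix u hz v hv hz' huv
    · simp only [if_neg hz, if_pos hz']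
      exact (hmix v hz' u hu hz huv.symm).symm
    · simp only [if_neg hz, if_neg hz']
      exact hc.2 u (hoff u hu hz) v (hoff v hv hz') huv

/-- Few generic points of `h` see a given colour on a generic point off `h`. -/
lemma l3_few {ln : Λ → Finset V} {P X : Finset V} {hub : V → Λ} {K D : ℕ}
    (hS : St ln P X hub D) {h : Λ} {x : V} (hx : x ∈ gen P X hub h) {c : V → ℕ}
    (hc : PC ln (P.erase x) K c) (a : ℕ) :
    (fl (gen P X hub h) fun u => l3_Bad ln (P \ X) h c u a).card ≤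
      D * (fl (hubs P X hub) (AdjH ln P X hub h)).card := by
  classical
  set W := fl (P \ X) fun w => w ∉ ln h ∧ c w = a ∧ ∃ u ∈ gen P X hub h, Coll ln u w with hW
  have hne : ∀ w ∈ W, h ≠ hub w := by
    intro w hw e
    have h1 := mem_fl.1 hw
    exact h1.2.1 (e ▸ hS.mem w h1.1)
  have h1 : (fl (gen P X hub h) fun u => l3_Bad ln (P \ X) h c u a) ⊆
      W.biUnion fun w => fl P fun u => Coll ln w u ∧ u ∉ ln (hub w) := by
    intro u hu
    obtain ⟨hu1, w, hw, q1, q2, q3⟩ := mem_fl.1 hu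
    have hwW : w ∈ W := mem_fl.2 ⟨hw, q2, q3, u, hu1, q1⟩
    obtain ⟨r1, r2, -⟩ := l3_gen hS hu1
    exact mem_biUnion.2 ⟨w, hwW, mem_fl.2 ⟨(mem_sdiff.1 r1).1, q1.symm, fun hl =>
      hne w hwW (r2 ▸ hS.uniq u r1 w hw hl)⟩⟩
  have h2 : W.card ≤ (fl (hubs P X hub) (AdjH ln P X hub h)).card := by
    refine card_le_card_of_injOn hub (fun w hw => ?_) fun w hw w' hw' e => ?_
    · have hw1 : w ∈ W := hw
      obtain ⟨q1, -, -, u, hu, huw⟩ := mem_fl.1 hw1
      obtain ⟨r1, r2, -⟩ := l3_gen hS hu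
      exact mem_coe.2 (mem_fl.2 ⟨mem_image_of_mem hub q1, hne w hw1, u, r1, w, q1, r2, rfl, huw⟩)
    · by_contra hww
      obtain ⟨q1, q2, q3, -⟩ := mem_fl.1 (show w ∈ W from hw)
      obtain ⟨s1, s2, s3, -⟩ := mem_fl.1 (show w' ∈ W from hw')
      have hxl := (l3_gen hS hx).2.2
      exact hc.2 w (mem_erase.2 ⟨fun f => q2 (f ▸ hxl), (mem_sdiff.1 q1).1⟩) w'
        (mem_erase.2 ⟨fun f => s2 (f ▸ hxl), (mem_sdiff.1 s1).1⟩)
        ⟨hww, hub w, hS.mem w q1, e ▸ hS.mem w' s1⟩ (q3.trans s3.symm)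
  refine (card_le_card h1).trans ((card_biUnion_le_card_mul W _ D fun w hw =>
    hS.out w (mem_fl.1 hw).1).trans ?_)
  rw [mul_comm]
  exact Nat.mul_le_mul_left D h2

theorem p_L3 : S_L3 := by
  classical
  intro V Λ _ _ ln P X hub K g D hC hS h hh
  obtain ⟨x, hx1, hx2⟩ := mem_image.1 hh
  have hx : x ∈ gen P X hub h := mem_fl.2 ⟨hx1, hx2⟩
  obtain ⟨c, hc⟩ := hC.crit x (mem_sdiff.1 hx1).1
  have hsub : gen P X hub h ⊆ ln h := fun v hv => (l3_gen hS hv).2.2
  have hK : (ln h).card + 1 ≤ K :=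
    hC.clq _ (hC.sub h) fun u hu v hv huv => ⟨huv, h, hu, hv⟩
  set T := range K \ (ln h \ gen P X hub h).image c with hT
  have hTc : (gen P X hub h).card + 1 ≤ T.card := by
    have h1 := le_card_sdiff ((ln h \ gen P X hub h).image c) (range K)
    have h2 : ((ln h \ gen P X hub h).image c).card ≤ (ln h \ gen P X hub h).card := card_image_le
    have h3 := card_sdiff_add_card_eq_card hsub
    rw [card_range, ← hT] at h1
    omega
  have key : ∃ a b, a ≠ b ∧
      (gen P X hub h).card < (fl (gen P X hub h) fun u => l3_Bad ln P h c u a).card + D ∧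
      (gen P X hub h).card < (fl (gen P X hub h) fun u => l3_Bad ln P h c u b).card + D := by
    by_contra hn
    by_cases ha : ∃ a, (gen P X hub h).card <
        (fl (gen P X hub h) fun u => l3_Bad ln P h c u a).card + D
    · obtain ⟨a, ha⟩ := ha
      refine hC.ncol (l3_ext hS hx hc (T := T.erase a) (erase_subset a T) ?_ fun b hb => ?_)
      · have := pred_card_le_card_erase (s := T) (a := a)
        omega
      · exact not_lt.1 fun hb' => hn ⟨a, b, (mem_erase.1 hb).1.symm, ha, hb'⟩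
    · exact hC.ncol (l3_ext hS hx hc (T := T) Subset.rfl (by omega) fun b _ =>
        not_lt.1 fun hb' => ha ⟨b, hb'⟩)
  obtain ⟨a, b, hab, ha, hb⟩ := key
  have hcov : gen P X hub h ⊆ fl (gen P X hub h) (Two ln X h) ∪
      ((gen P X hub h \ fl (gen P X hub h) fun u => l3_Bad ln P h c u a) ∪
        (gen P X hub h \ fl (gen P X hub h) fun u => l3_Bad ln P h c u b)) ∪
      ((fl (gen P X hub h) fun u => l3_Bad ln (P \ X) h c u a) ∪
        fl (gen P X hub h) fun u => l3_Bad ln (P \ X) h c u b) := by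
    intro u hu
    by_contra hn
    simp only [mem_union, mem_sdiff, mem_fl, not_or, not_and] at hn
    obtain ⟨⟨n1, n2, n3⟩, n4, n5⟩ := hn
    have m2 : l3_Bad ln P h c u a := by
      by_contra q
      exact (n2 hu fun _ => q).elim
    have m3 : l3_Bad ln P h c u b := by
      by_contra q
      exact (n3 hu fun _ => q).elim
    obtain ⟨w, hw, q1, q2, q3⟩ := m2
    obtain ⟨w', hw', s1, s2, s3⟩ := m3
    refine n1 hu ⟨w, ?_, w', ?_, fun e => hab (q3.symm.trans (e ▸ s3)), q2, s2, q1, s1⟩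
    · by_contra q
      exact n4 hu ⟨w, mem_sdiff.2 ⟨hw, q⟩, q1, q2, q3⟩
    · by_contra q
      exact n5 hu ⟨w', mem_sdiff.2 ⟨hw', q⟩, s1, s2, s3⟩
  have c0 := card_le_card hcov
  have c1 := card_sdiff_add_card_eq_card
    (fl_subset (gen P X hub h) fun u => l3_Bad ln P h c u a)
  have c2 := card_sdiff_add_card_eq_card
    (fl_subset (gen P X hub h) fun u => l3_Bad ln P h c u b)
  have c3 := l3_few hS hx hc a
  have c4 := l3_few hS hx hc b
  have c5 := c0.trans ((card_union_le _ _).trans (add_le_add ((card_union_le _ _).trans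
    (add_le_add le_rfl (card_union_le _ _))) (card_union_le _ _)))
  have c6 : 2 * D * (fl (hubs P X hub) (AdjH ln P X hub h)).card =
      D * (fl (hubs P X hub) (AdjH ln P X hub h)).card +
        D * (fl (hubs P X hub) (AdjH ln P X hub h)).card := by ring
  omega

end Pool.Agent.P.MP_1fec7a_co.F
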