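import Pool.Agent.P.MP_1fec7a_co.S.B10

/-! An upper bound for the genus from rotations with boundedly many defects. -/

set_option autoImplicit false
set_option linter.unusedSectionVars false
set_option linter.unusedVariables false

namespace Pool.Agent.P.MP_1fec7a_co.F

open Finset Pool.Agent.P.MP_1fec7a_co.S

lemma lw_swap {Φ : Type} [Finite Φ] [DecidableEq Φ] (α : Equiv.Perm Φ) {a b : Φ}
    (h : ¬ α.SameCycle a b) :
    (α * Equiv.swap a b).SameCycle a b ∧
      ∀ x y, α.SameCycle x y → (α * Equiv.swap a b).SameCycle x y := by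
  set β := α * Equiv.swap a b with hβ
  have ba : β a = α b := by simp [hβ]
  have bb : β b = α a := by simp [hβ]
  have bx : ∀ x, x ≠ a → x ≠ b → β x = α x := fun x h1 h2 => by
    simp [hβ, Equiv.swap_apply_of_ne_of_ne h1 h2]
  have key : ∀ n : ℕ, β.SameCycle a b ∨ β.SameCycle a ((α ^ (n + 1)) b) := fun n => by
    induction n with
    | zero => exact Or.inr ⟨1, by simp [ba]⟩
    | succ n ih =>
      rcases ih with ih | ih
      · exact Or.inl ih
      · by_cases e : (α ^ (n + 1)) b = b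
        · exact Or.inl (e ▸ ih)
        · have e' : (α ^ (n + 1)) b ≠ a := fun e' =>
            h (Equiv.Perm.SameCycle.symm ⟨(n + 1 : ℕ), by rw [zpow_natCast]; exact e'⟩)
          refine Or.inr ?_
          rw [pow_succ' α (n + 1), Equiv.Perm.mul_apply, ← bx _ e' e]
          exact ih.apply_right
  have hab : β.SameCycle a b := by
    have hp := orderOf_pos α
    rcases key (orderOf α - 1) with e | e
    · exact e
    · rwa [Nat.sub_add_cancel hp, pow_orderOf_eq_one] at e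
  have step : ∀ x, β.SameCycle x (α x) := fun x => by
    by_cases e : x = a
    · rw [e, ← bb]; exact hab.apply_right
    · by_cases e' : x = b
      · rw [e', ← ba]; exact hab.symm.apply_right
      · rw [← bx x e e']; exact (Equiv.Perm.SameCycle.refl _ _).apply_right
  refine ⟨hab, fun x y e => ?_⟩
  obtain ⟨n, rfl⟩ := e.exists_nat_pow_eq
  clear e
  induction n with
  | zero => exact Equiv.Perm.SameCycle.refl _ _
  | succ n ih =>
    rw [pow_succ', Equiv.Perm.mul_apply]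
    exact ih.trans (step _)

lemma lw_merge {Φ β : Type} [Fintype Φ] (p : Φ → β) (B : Finset Φ) :
    ∀ (N : ℕ) (α : Equiv.Perm Φ),
      (fl (univ : Finset (Φ × Φ)) fun x => ¬ α.SameCycle x.1 x.2).card ≤ N →
      (∀ f, p (α f) = p f) →
      (∀ f, (∃ b ∈ B, α.SameCycle f b) ∨ ∀ f', p f' = p f → α.SameCycle f f') →
      ∃ σ : Equiv.Perm Φ, (∀ f f', σ.SameCycle f f' ↔ p f = p f') ∧ ∀ f ∉ B, σ f = α f := by
  classical
  intro N
  induction N using Nat.strong_induction_on with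
  | _ N ih =>
  intro α hN hp hB
  by_cases H : ∀ f f', p f = p f' → α.SameCycle f f'
  · exact ⟨α, fun f f' => ⟨rg2_inv α p hp, H f f'⟩, fun _ _ => rfl⟩
  push Not at H
  obtain ⟨f, f', e, hn⟩ := H
  obtain ⟨a, ha, fa⟩ := (hB f).resolve_right fun q => hn (q f' e.symm)
  obtain ⟨b, hb, fb⟩ := (hB f').resolve_right fun q => hn (q f e).symm
  have hab : ¬ α.SameCycle a b := fun q => hn ((fa.trans q).trans fb.symm)
  have pab : p a = p b :=
    (rg2_inv α p hp fa).symm.trans (e.trans (rg2_inv α p hp fb))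
  obtain ⟨k1, k2⟩ := lw_swap α hab
  have lt : (fl (univ : Finset (Φ × Φ))
      fun x => ¬ (α * Equiv.swap a b).SameCycle x.1 x.2).card < N := by
    refine lt_of_lt_of_le (card_lt_card ⟨fl_mono fun x hx q => ⟨hx, fun r => q (k2 _ _ r)⟩,
      fun q => ?_⟩) hN
    exact (mem_fl.1 (q (mem_fl.2 ⟨mem_univ (a, b), hab⟩))).2 k1
  obtain ⟨σ, s1, s2⟩ := ih _ lt (α * Equiv.swap a b) le_rfl (fun x => by
      rw [Equiv.Perm.mul_apply, hp, Equiv.swap_apply_def]
      split_ifs with e1 e2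
      · rw [e1, pab]
      · rw [e2, pab]
      · rfl)
    (fun x => (hB x).imp (fun ⟨c, hc, q⟩ => ⟨c, hc, k2 _ _ q⟩) fun q y hy => k2 _ _ (q y hy))
  refine ⟨σ, s1, fun x hx => ?_⟩
  rw [s2 x hx, Equiv.Perm.mul_apply,
    Equiv.swap_apply_of_ne_of_ne (fun q : x = a => hx (q ▸ ha)) fun q : x = b => hx (q ▸ hb)]

lemma lw_faces {D Φ J : Type} [Finite D] [Fintype J] (φ : Equiv.Perm D) (α ρ : Equiv.Perm Φ)
    (a b : Φ → D) (ha : Function.Injective a) (hab : ∀ f f', a f ≠ b f')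
    (h1 : ∀ f, φ (a f) = b (ρ f)) (h2 : ∀ f, φ (b f) = a (α f)) (lab : Φ → J)
    (hl : Function.Surjective lab) (C : Finset Φ) (hC : ∀ f ∉ C, lab (α (ρ f)) = lab f) :
    Fintype.card J ≤ Nat.card (Quotient (Equiv.Perm.SameCycle.setoid φ)) + C.card := by
  classical
  have key : ∀ (f : Φ) (n : ℕ), ∃ m : ℕ, (φ ^ n) (a f) = a (((α * ρ) ^ m) f) ∨
      (φ ^ n) (a f) = b (ρ (((α * ρ) ^ m) f)) := fun f n => by
    induction n with
    | zero => exact ⟨0, Or.inl rfl⟩
    | succ n ih =>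
      obtain ⟨m, e | e⟩ := ih
      · exact ⟨m, Or.inr (by rw [pow_succ', Equiv.Perm.mul_apply, e, h1])⟩
      · exact ⟨m + 1, Or.inl (by rw [pow_succ', Equiv.Perm.mul_apply, e, h2, pow_succ']; rfl)⟩
  have inv : ∀ f, lab f ∉ C.image lab → ∀ m : ℕ, lab (((α * ρ) ^ m) f) = lab f := fun f hf m => by
    induction m with
    | zero => rfl
    | succ m ih =>
      rw [pow_succ', Equiv.Perm.mul_apply, Equiv.Perm.mul_apply, hC _ fun q => hf ?_, ih]
      exact ih ▸ mem_image_of_mem lab q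
  have := Fintype.ofFinite (Quotient (Equiv.Perm.SameCycle.setoid φ))
  choose r hr using hl
  have c1 : (univ \ C.image lab).card ≤ Nat.card (Quotient (Equiv.Perm.SameCycle.setoid φ)) := by
    rw [Nat.card_eq_fintype_card, ← card_univ]
    refine card_le_card_of_injOn (fun j => Quotient.mk _ (a (r j))) (fun _ _ => mem_univ _)
      fun j hj j' _ e => ?_
    have H : φ.SameCycle (a (r j)) (a (r j')) := Quotient.exact e
    obtain ⟨n, hn⟩ := H.exists_nat_pow_eq
    obtain ⟨m, e | e⟩ := key (r j) n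
    · have := inv (r j) (by rw [hr]; exact (mem_sdiff.1 hj).2) m
      rw [ha (e.symm.trans hn), hr, hr] at this
      exact this.symm
    · exact absurd (hn.symm.trans e) (hab _ _)
  have c2 := le_card_sdiff (C.image lab) univ
  have c3 : (C.image lab).card ≤ C.card := card_image_le
  rw [card_univ] at c2
  omega

theorem gen2 (V Λ Φ J : Type) [Fintype V] [Fintype Λ] [Fintype Φ] [Fintype J] (E : Λ → Set V)
    (pt : Φ → V) (li : Φ → Λ) (α₀ ρ₀ : Equiv.Perm Φ) (B : Finset Φ) (lab : Φ → J) (g : ℕ)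
    (hln : ∀ v i, v ∈ E i ↔ ∃ f, pt f = v ∧ li f = i)
    (hinj : ∀ f f', pt f = pt f' → li f = li f' → f = f')
    (pα : ∀ f, pt (α₀ f) = pt f) (pρ : ∀ f, li (ρ₀ f) = li f)
    (bα : ∀ f, (∃ b ∈ B, α₀.SameCycle f b) ∨ ∀ f', pt f' = pt f → α₀.SameCycle f f')
    (bρ : ∀ f, (∃ b ∈ B, ρ₀.SameCycle f b) ∨ ∀ f', li f' = li f → ρ₀.SameCycle f f')
    (hl : Function.Surjective lab) (hlab : ∀ f, lab (α₀ (ρ₀ f)) = lab f)
    (hC : (incidenceGraph E).Preconnected)
    (hc : 2 + Fintype.card Φ + 2 * B.card ≤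
      Fintype.card V + Fintype.card Λ + Fintype.card J + 2 * g) :
    genus (incidenceGraph E) ≤ g := by
  classical
  obtain ⟨α, hα, eα⟩ := lw_merge pt B _ α₀ le_rfl pα bα
  obtain ⟨ρ, hρ, eρ⟩ := lw_merge li B _ ρ₀ le_rfl pρ bρ
  set I := incidenceGraph E with hI
  have adj : ∀ f, I.Adj (.inl (pt f)) (.inr (li f)) := fun f => by
    rw [hI, incidenceGraph, SimpleGraph.fromRel_adj]
    exact ⟨by simp, Or.inl ⟨_, _, rfl, rfl, (hln _ _).2 ⟨f, rfl, rfl⟩⟩⟩
  have adj' : ∀ x y, I.Adj x y → ∃ f, (x = .inl (pt f) ∧ y = .inr (li f)) ∨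
      (x = .inr (li f) ∧ y = .inl (pt f)) := fun x y h => by
    rw [hI, incidenceGraph, SimpleGraph.fromRel_adj] at h
    obtain ⟨-, ⟨v, i, rfl, rfl, hv⟩ | ⟨v, i, rfl, rfl, hv⟩⟩ := h <;>
      obtain ⟨f, rfl, rfl⟩ := (hln _ _).1 hv
    · exact ⟨f, Or.inl ⟨rfl, rfl⟩⟩
    · exact ⟨f, Or.inr ⟨rfl, rfl⟩⟩
  let a : Φ → I.Dart := fun f => ⟨(.inl (pt f), .inr (li f)), adj f⟩
  let b : Φ → I.Dart := fun f => ⟨(.inr (li f), .inl (pt f)), (adj f).symm⟩
  have ha : Function.Injective a := fun f f' h => by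
    have := congrArg SimpleGraph.Dart.toProd h
    simp only [a, Prod.mk.injEq, Sum.inl.injEq, Sum.inr.injEq] at this
    exact hinj f f' this.1 this.2
  have hb : Function.Injective b := fun f f' h => ha (congrArg SimpleGraph.Dart.symm h)
  have hab : ∀ f f', a f ≠ b f' := fun f f' h => by
    have := congrArg (fun d : I.Dart => d.fst) h
    simp [a, b] at this
  have hsur : ∀ d : I.Dart, ∃ f, a f = d ∨ b f = d := fun ⟨(x, y), h⟩ => by
    obtain ⟨f, ⟨rfl, rfl⟩ | ⟨rfl, rfl⟩⟩ := adj' x y h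
    · exact ⟨f, Or.inl rfl⟩
    · exact ⟨f, Or.inr rfl⟩
  let e : Φ ⊕ Φ ≃ I.Dart := Equiv.ofBijective (Sum.elim a b)
    ⟨ha.sumElim hb hab, fun d => by
      obtain ⟨f, h | h⟩ := hsur d
      exacts [⟨.inl f, h⟩, ⟨.inr f, h⟩]⟩
  let σ : Equiv.Perm I.Dart := e.permCongr (Equiv.Perm.sumCongr α ρ)
  have sa : ∀ f, σ (a f) = a (α f) := fun f => by
    show e (Equiv.Perm.sumCongr α ρ (e.symm (e (.inl f)))) = _
    rw [Equiv.symm_apply_apply]
    rfl
  have sb : ∀ f, σ (b f) = b (ρ f) := fun f => by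
    show e (Equiv.Perm.sumCongr α ρ (e.symm (e (.inr f)))) = _
    rw [Equiv.symm_apply_apply]
    rfl
  have fin : Finite I.Dart := inferInstance
  have rot : IsRotationSystem I σ := fun d d' => by
    obtain ⟨f, rfl | rfl⟩ := hsur d
    · rw [gen_cyc σ α a sa]
      refine ⟨fun ⟨f', h, e⟩ => e ▸ congrArg Sum.inl ((hα _ _).1 h), fun h => ?_⟩
      obtain ⟨f', rfl | rfl⟩ := hsur d'
      · exact ⟨f', (hα _ _).2 (Sum.inl.inj h), rfl⟩
      · exact absurd h Sum.inl_ne_inr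
    · rw [gen_cyc σ ρ b sb]
      refine ⟨fun ⟨f', h, e⟩ => e ▸ congrArg Sum.inr ((hρ _ _).1 h), fun h => ?_⟩
      obtain ⟨f', rfl | rfl⟩ := hsur d'
      · exact absurd h Sum.inr_ne_inl
      · exact ⟨f', (hρ _ _).2 (Sum.inr.inj h), rfl⟩
  have hF := lw_faces (σ * dartReverse I) α ρ a b ha hab (fun f => sb f) (fun f => sa f) lab hl
    (B ∪ B.image ρ₀.symm) fun f hf => by
      rw [mem_union, not_or] at hf
      rw [eρ f hf.1, eα _ fun q => hf.2 (mem_image.2 ⟨_, q, ρ₀.symm_apply_apply f⟩), hlab]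
  have hB : (B ∪ B.image ρ₀.symm).card ≤ B.card + B.card :=
    (card_union_le _ _).trans (Nat.add_le_add_left card_image_le _)
  have hE : Nat.card I.edgeSet ≤ Nat.card Φ :=
    Nat.card_le_card_of_surjective (fun f => ⟨s(.inl (pt f), .inr (li f)), adj f⟩) fun ⟨x, hx⟩ => by
      induction x using Sym2.ind with
      | h x y =>
        obtain ⟨f, ⟨rfl, rfl⟩ | ⟨rfl, rfl⟩⟩ := adj' x y hx
        · exact ⟨f, rfl⟩
        · exact ⟨f, Subtype.ext Sym2.eq_swap⟩
  have hK : Nat.card I.ConnectedComponent ≤ 1 :=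
    Finite.card_le_one_iff_subsingleton.2 hC.subsingleton_connectedComponent
  refine Nat.sInf_le ⟨σ, rot, ?_⟩
  rw [faceCount, Nat.card_sum]
  simp only [Nat.card_eq_fintype_card (α := Λ), Nat.card_eq_fintype_card (α := V),
    Nat.card_eq_fintype_card (α := Φ)] at hE ⊢
  omega

end Pool.Agent.P.MP_1fec7a_co.F
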