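import Pool.Agent.P.MP_1fec7a_co.F.Low1

/-! The example: three large lines and two apexes. -/

set_option autoImplicit false
set_option linter.unusedSectionVars false
set_option linter.unusedVariables false

namespace Pool.Agent.P.MP_1fec7a_co.F

open Finset Pool.Agent.P.MP_1fec7a_co.S

/-- The ordinary points. -/
abbrev LW (m : ℕ) := Fin 3 × Bool × ZMod m

/-- The points: ordinary, special, apexes. -/
abbrev LV (m : ℕ) := LW m ⊕ (Fin 3 × Bool) ⊕ Bool

/-- The lines: large, short, special. -/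
abbrev LL (m : ℕ) := Fin 3 ⊕ (LW m × Bool) ⊕ Option Bool

/-- The flags. -/
abbrev LF (m : ℕ) := (LW m × Option (Bool × Bool)) ⊕ (Fin 3 × Bool × Bool) ⊕ (Bool × Bool)

variable {m : ℕ}

/-- Incidence. -/
def linc : LV m → LL m → Prop
  | .inl w, .inl i => w.1 = i
  | .inl w, .inr (.inl x) => w = x.1
  | .inr (.inl s), .inl i => s.1 = i
  | .inr (.inl s), .inr (.inr (some t)) => s.2 = t
  | .inr (.inr t), .inr (.inl x) => t = x.2
  | .inr (.inr t), .inr (.inr (some t')) => t = !t'
  | .inr (.inr _), .inr (.inr none) => True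
  | _, _ => False

/-- The point of a flag. -/
def lpt : LF m → LV m
  | .inl (w, none) => .inl w
  | .inl (w, some (_, false)) => .inl w
  | .inl (_, some (t, true)) => .inr (.inr t)
  | .inr (.inl (i, t, _)) => .inr (.inl (i, t))
  | .inr (.inr (t, _)) => .inr (.inr t)

/-- The line of a flag. -/
def lli : LF m → LL m
  | .inl (w, none) => .inl w.1
  | .inl (w, some (t, _)) => .inr (.inl (w, t))
  | .inr (.inl (i, _, false)) => .inl i
  | .inr (.inl (_, t, true)) => .inr (.inr (some t))
  | .inr (.inr (t, false)) => .inr (.inr (some !t))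
  | .inr (.inr (_, true)) => .inr (.inr none)

/-- The rotation at the points. -/
def lal : LF m → LF m
  | .inl ((i, s, j), none) => .inl ((i, s, j), some (s, false))
  | .inl ((i, s, j), some (t, false)) =>
      if t = s then .inl ((i, s, j), some (!s, false)) else .inl ((i, s, j), none)
  | .inl ((i, false, j), some (false, true)) => .inl ((i, true, j - 1), some (false, true))
  | .inl ((i, true, j), some (false, true)) => .inl ((i, false, j - 1), some (false, true))
  | .inl ((i, false, j), some (true, true)) => .inl ((i, true, j + 1), some (true, true))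
  | .inl ((i, true, j), some (true, true)) => .inl ((i, false, j), some (true, true))
  | .inr x => .inr x

/-- Its inverse. -/
def lal' : LF m → LF m
  | .inl ((i, s, j), none) => .inl ((i, s, j), some (!s, false))
  | .inl ((i, s, j), some (t, false)) =>
      if t = s then .inl ((i, s, j), none) else .inl ((i, s, j), some (s, false))
  | .inl ((i, false, j), some (false, true)) => .inl ((i, true, j + 1), some (false, true))
  | .inl ((i, true, j), some (false, true)) => .inl ((i, false, j + 1), some (false, true))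
  | .inl ((i, false, j), some (true, true)) => .inl ((i, true, j), some (true, true))
  | .inl ((i, true, j), some (true, true)) => .inl ((i, false, j - 1), some (true, true))
  | .inr x => .inr x

/-- The rotation at the lines. -/
def lro : LF m → LF m
  | .inl ((i, false, j), none) => .inl ((i, true, j), none)
  | .inl ((i, true, j), none) => .inl ((i, false, j + 1), none)
  | .inl (w, some (t, b)) => .inl (w, some (t, !b))
  | .inr x => .inr x

/-- Its inverse. -/
def lro' : LF m → LF m
  | .inl ((i, false, j), none) => .inl ((i, true, j - 1), none)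
  | .inl ((i, true, j), none) => .inl ((i, false, j), none)
  | .inl (w, some (t, b)) => .inl (w, some (t, !b))
  | .inr x => .inr x

/-- The rotation at the points as a permutation. -/
def lA (m : ℕ) : Equiv.Perm (LF m) where
  toFun := lal
  invFun := lal'
  left_inv := by rintro (⟨⟨i, _ | _, j⟩, _ | ⟨_ | _, _ | _⟩⟩ | x) <;> simp [lal, lal']
  right_inv := by rintro (⟨⟨i, _ | _, j⟩, _ | ⟨_ | _, _ | _⟩⟩ | x) <;> simp [lal, lal']

/-- The rotation at the lines as a permutation. -/
def lR (m : ℕ) : Equiv.Perm (LF m) where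
  toFun := lro
  invFun := lro'
  left_inv := by rintro (⟨⟨i, _ | _, j⟩, _ | ⟨_ | _, _ | _⟩⟩ | x) <;> simp [lro, lro']
  right_inv := by rintro (⟨⟨i, _ | _, j⟩, _ | ⟨_ | _, _ | _⟩⟩ | x) <;> simp [lro, lro']

/-- The faces. -/
def llab : LF m → Fin 3 × Fin 3 × ZMod m
  | .inl ((i, false, j), none) => (i, 0, j)
  | .inl ((i, true, j), some (true, false)) => (i, 0, j)
  | .inl ((i, false, j), some (true, true)) => (i, 0, j)
  | .inl ((i, true, j), none) => (i, 1, j)
  | .inl ((i, false, j), some (false, false)) => (i, 1, j - 1)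
  | .inl ((i, true, j), some (false, true)) => (i, 1, j)
  | .inl ((i, false, j), some (true, false)) => (i, 2, j)
  | .inl ((i, true, j), some (true, true)) => (i, 2, j - 1)
  | .inl ((i, true, j), some (false, false)) => (i, 2, j - 1)
  | .inl ((i, false, j), some (false, true)) => (i, 2, j)
  | .inr _ => (0, 0, 0)

/-- The exceptional flags. -/
def lex (m : ℕ) : (Fin 3 × Bool × Option (Bool × Bool)) ⊕ (Fin 3 × Bool × Bool) ⊕ (Bool × Bool) →
    LF m
  | .inl (i, r, x) => .inl ((i, false, if r then 1 else 0), x)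
  | .inr x => .inr x

lemma lw_two [NeZero m] {Φ : Type} (σ : Equiv.Perm Φ) (e : ZMod m → Φ)
    (h : ∀ j, σ.SameCycle (e j) (e (j + 2))) (j : ZMod m) :
    ∃ r : Bool, σ.SameCycle (e j) (e (if r then 1 else 0)) := by
  have key : ∀ (n : ℕ) (x : ZMod m), σ.SameCycle (e (x + 2 * n)) (e x) := fun n x => by
    induction n with
    | zero => simpa using Equiv.Perm.SameCycle.refl _ _
    | succ n ih =>
      have := (h (x + 2 * n)).symm.trans ih
      rwa [show x + 2 * (n : ZMod m) + 2 = x + 2 * ((n + 1 : ℕ) : ZMod m) by push_cast; ring]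
        at this
  obtain ⟨n, hn | hn⟩ := Nat.even_or_odd' j.val
  · refine ⟨false, ?_⟩
    have := key n 0
    rwa [show (0 : ZMod m) + 2 * n = j by
      rw [← ZMod.natCast_zmod_val j, hn]; push_cast; ring] at this
  · refine ⟨true, ?_⟩
    have := key n 1
    rwa [show (1 : ZMod m) + 2 * n = j by
      rw [← ZMod.natCast_zmod_val j, hn]; push_cast; ring] at this

lemma lw_s1 {Φ : Type} (σ : Equiv.Perm Φ) {x y : Φ} (h : σ x = y) : σ.SameCycle x y :=
  h ▸ (Equiv.Perm.SameCycle.refl _ _).apply_right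

lemma lw_inc (v : LV m) (i : LL m) : linc v i ↔ ∃ f, lpt f = v ∧ lli f = i := by
  constructor
  · rcases v with w | ⟨a, t⟩ | t <;> rcases i with i | ⟨x, u⟩ | _ | u <;> simp only [linc] <;>
      intro h
    · exact ⟨.inl (w, none), rfl, h ▸ rfl⟩
    · exact ⟨.inl (w, some (u, false)), rfl, h ▸ rfl⟩
    · exact h.elim
    · exact h.elim
    · exact ⟨.inr (.inl (a, t, false)), rfl, h ▸ rfl⟩
    · exact h.elim
    · exact h.elim
    · exact ⟨.inr (.inl (a, t, true)), rfl, h ▸ rfl⟩
    · exact h.elim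
    · exact ⟨.inl (x, some (u, true)), h ▸ rfl, rfl⟩
    · exact ⟨.inr (.inr (t, true)), rfl, rfl⟩
    · exact ⟨.inr (.inr (t, false)), rfl, by simp [lli, h]⟩
  · rintro ⟨⟨w, _ | ⟨t, _ | _⟩⟩ | ⟨a, t, _ | _⟩ | ⟨t, _ | _⟩, rfl, rfl⟩ <;> simp [linc, lpt, lli]

lemma lw_inj (f f' : LF m) (h : lpt f = lpt f') (h' : lli f = lli f') : f = f' := by
  rcases f with ⟨w, _ | ⟨t, _ | _⟩⟩ | ⟨a, t, _ | _⟩ | ⟨t, _ | _⟩ <;>
    rcases f' with ⟨w', _ | ⟨t', _ | _⟩⟩ | ⟨a', t', _ | _⟩ | ⟨t', _ | _⟩ <;>
    simp_all [lpt, lli]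

lemma lw_conn : (incidenceGraph fun i : LL m => {v | linc v i}).Preconnected := by
  set I := incidenceGraph fun i : LL m => {v | linc v i} with hI
  have adj : ∀ v i, linc v i → I.Reachable (.inl v) (.inr i) := fun v i h => by
    refine SimpleGraph.Adj.reachable ?_
    rw [hI, incidenceGraph, SimpleGraph.fromRel_adj]
    exact ⟨by simp, Or.inl ⟨_, _, rfl, rfl, h⟩⟩
  have h1 : ∀ w : LW m, I.Reachable (.inl (.inr (.inr false))) (.inl (.inl w)) := fun w =>
    (adj (.inr (.inr false)) (.inr (.inl (w, false))) rfl).trans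
      (adj (.inl w) (.inr (.inl (w, false))) rfl).symm
  have h2 : ∀ v, I.Reachable (.inl (.inr (.inr false))) (.inl v) := by
    rintro (w | ⟨a, t⟩ | t)
    · exact h1 w
    · exact ((h1 (a, false, 0)).trans (adj _ (.inl a) rfl)).trans
        (adj (.inr (.inl (a, t))) (.inl a) rfl).symm
    · exact (adj (.inr (.inr false)) (.inr (.inr none)) trivial).trans
        (adj (.inr (.inr t)) (.inr (.inr none)) trivial).symm
  have h3 : ∀ x, I.Reachable (.inl (.inr (.inr false))) x := by
    rintro (v | i | ⟨w, t⟩ | _ | t)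
    · exact h2 v
    · exact (h1 (i, false, 0)).trans (adj _ _ rfl)
    · exact (h1 w).trans (adj _ _ rfl)
    · exact adj _ _ trivial
    · exact (h2 (.inr (.inl (0, t)))).trans (adj _ _ rfl)
  exact fun x y => (h3 x).symm.trans (h3 y)

theorem lw_genus [NeZero m] (g : ℕ) (hg : 3 * m + 100 ≤ 2 * g) :
    genus (incidenceGraph fun i : LL m => {v | linc v i}) ≤ g := by
  classical
  have mem : ∀ x, lex m x ∈ univ.image (lex m) := fun x => mem_image_of_mem _ (mem_univ x)
  refine gen2 _ _ (LF m) (Fin 3 × Fin 3 × ZMod m) _ lpt lli (lA m) (lR m) (univ.image (lex m))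
    llab g lw_inc lw_inj ?_ ?_ ?_ ?_ ?_ ?_ lw_conn ?_
  · rintro (⟨⟨i, _ | _, j⟩, _ | ⟨_ | _, _ | _⟩⟩ | x) <;> simp [lA, lal, lpt]
  · rintro (⟨⟨i, _ | _, j⟩, _ | ⟨_ | _, _ | _⟩⟩ | x) <;> simp [lR, lro, lli]
  · have tri : ∀ (w : LW m) (t : Bool),
        (lA m).SameCycle (.inl (w, none)) (.inl (w, some (t, false))) := by
      rintro ⟨i, s, j⟩ t
      by_cases e : t = s
      · exact lw_s1 _ (by simp [lA, lal, e])
      · exact (lw_s1 _ (by simp [lA, lal, e])).symm
    have fib : ∀ (w : LW m) (f : LF m), lpt f = .inl w → (lA m).SameCycle (.inl (w, none)) f := by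
      rintro w (⟨w', _ | ⟨t, _ | _⟩⟩ | ⟨a, t, _⟩ | ⟨t, _⟩) h <;>
        simp only [lpt, Sum.inl.injEq, reduceCtorEq] at h
      · exact h ▸ Equiv.Perm.SameCycle.refl _ _
      · exact h ▸ tri _ _
    have big : ∀ (i : Fin 3) (t : Bool) (j : ZMod m), ∃ b ∈ univ.image (lex m),
        (lA m).SameCycle (.inl ((i, false, j), some (t, true))) b := fun i t j => by
      obtain ⟨r, hr⟩ := lw_two (lA m) (fun j => .inl ((i, false, j), some (t, true))) (fun j => by
        cases t
        · exact Equiv.Perm.SameCycle.symm ⟨2, by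
            rw [show (2 : ℤ) = (2 : ℕ) from rfl, zpow_natCast]
            simp [pow_succ, lA, lal, show j + 2 - 1 - 1 = j by ring]⟩
        · exact ⟨4, by
            rw [show (4 : ℤ) = (4 : ℕ) from rfl, zpow_natCast]
            simp [pow_succ, lA, lal, show j + 1 + 1 = j + 2 by ring]⟩) j
      exact ⟨_, mem (.inl (i, r, some (t, true))), hr⟩
    rintro (⟨w, _ | ⟨t, _ | _⟩⟩ | x)
    · exact Or.inr fun f' h => fib w f' h
    · exact Or.inr fun f' h => (tri w t).symm.trans (fib w f' h)
    · obtain ⟨i, _ | _, j⟩ := w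
      · exact Or.inl (big i t j)
      · cases t
        · obtain ⟨b, hb, e⟩ := big i false (j - 1)
          exact Or.inl ⟨b, hb, (lw_s1 _ rfl).trans e⟩
        · obtain ⟨b, hb, e⟩ := big i true j
          exact Or.inl ⟨b, hb, (lw_s1 _ rfl).trans e⟩
    · exact Or.inl ⟨_, mem (.inr x), Equiv.Perm.SameCycle.refl _ _⟩
  · have big : ∀ (i : Fin 3) (j : ZMod m), ∃ b ∈ univ.image (lex m),
        (lR m).SameCycle (.inl ((i, false, j), none)) b := fun i j => by
      obtain ⟨r, hr⟩ := lw_two (lR m) (fun j => .inl ((i, false, j), none)) (fun j => ⟨4, by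
          rw [show (4 : ℤ) = (4 : ℕ) from rfl, zpow_natCast]
          simp [pow_succ, lR, lro, show j + 1 + 1 = j + 2 by ring]⟩) j
      exact ⟨_, mem (.inl (i, r, none)), hr⟩
    rintro (⟨w, _ | ⟨t, b⟩⟩ | x)
    · obtain ⟨i, _ | _, j⟩ := w
      · exact Or.inl (big i j)
      · obtain ⟨b, hb, e⟩ := big i (j + 1)
        exact Or.inl ⟨b, hb, (lw_s1 _ rfl).trans e⟩
    · refine Or.inr ?_
      rintro (⟨w', _ | ⟨t', b'⟩⟩ | ⟨a, t', _ | _⟩ | ⟨t', _ | _⟩) h <;>
        simp only [lli, Sum.inl.injEq, Sum.inr.injEq, reduceCtorEq, Prod.mk.injEq] at h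
      obtain ⟨rfl, rfl⟩ := h
      by_cases e : b' = b
      · exact e ▸ Equiv.Perm.SameCycle.refl _ _
      · exact lw_s1 _ (by cases b <;> cases b' <;> simp_all [lR, lro])
    · exact Or.inl ⟨_, mem (.inr x), Equiv.Perm.SameCycle.refl _ _⟩
  · rintro ⟨i, c, j⟩
    fin_cases c
    exacts [⟨.inl ((i, false, j), none), rfl⟩, ⟨.inl ((i, true, j), none), rfl⟩,
      ⟨.inl ((i, false, j), some (true, false)), rfl⟩]
  · rintro (⟨⟨i, _ | _, j⟩, _ | ⟨_ | _, _ | _⟩⟩ | x) <;> simp [lA, lR, lal, lro, llab]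
  · have : (univ.image (lex m)).card ≤ 46 := card_image_le.trans (by simp)
    simp only [Fintype.card_sum, Fintype.card_prod, Fintype.card_fin, Fintype.card_bool,
      ZMod.card, Fintype.card_option]
    omega

end Pool.Agent.P.MP_1fec7a_co.F
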