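import Pool.Agent.P.MP_1fec7a_co.F.Low2

/-! The lower bound `4 / 3`. -/

set_option autoImplicit false
set_option linter.unusedSectionVars false
set_option linter.unusedVariables false

namespace Pool.Agent.P.MP_1fec7a_co.F

open Finset Pool.Agent.P.MP_1fec7a_co.S

variable {m : ℕ}

/-- The graph of the example. -/
def lG (m : ℕ) : SimpleGraph (LV m) where
  Adj u v := u ≠ v ∧ ∃ i, linc u i ∧ linc v i
  symm := ⟨fun _ _ h => ⟨h.1.symm, h.2.imp fun _ q => q.symm⟩⟩
  loopless := ⟨fun _ h => h.1 rfl⟩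

lemma lw_lin (i j : LL m) (u v : LV m) (h : u ≠ v) (h1 : linc u i) (h2 : linc v i)
    (h3 : linc u j) (h4 : linc v j) : i = j := by
  rcases u with w | ⟨a, t⟩ | t <;> rcases v with w' | ⟨a', t'⟩ | t' <;>
    rcases i with i | ⟨x, r⟩ | _ | r <;> simp only [linc] at h1 h2 <;>
    rcases j with j | ⟨y, s⟩ | _ | s <;> simp only [linc] at h3 h4 <;> simp_all

lemma lw_adjG : HasAdjacencyGraph (fun i : LL m => {v | linc v i}) (lG m) := fun u v huv => by
  split_ifs with a
  · obtain ⟨_, i, h1, h2⟩ := a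
    rw [Nat.card_eq_one_iff_exists]
    exact ⟨⟨i, h1, h2⟩, fun j => Subtype.ext (lw_lin _ _ u v huv j.2.1 j.2.2 h1 h2)⟩
  · rw [Nat.card_eq_zero]
    exact Or.inl ⟨fun j => a ⟨huv, j.1, j.2.1, j.2.2⟩⟩

lemma lw_a1 {w w' : LW m} (h : (lG m).Adj (.inl w) (.inl w')) : w.1 = w'.1 := by
  obtain ⟨n, i | ⟨x, r⟩ | _ | r, h1, h2⟩ := h <;> simp only [linc] at h1 h2 <;> simp_all

lemma lw_a2 {w : LW m} {s : Fin 3 × Bool} (h : (lG m).Adj (.inl w) (.inr (.inl s))) :
    w.1 = s.1 := by
  obtain ⟨n, i | ⟨x, r⟩ | _ | r, h1, h2⟩ := h <;> simp only [linc] at h1 h2 <;> simp_all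

lemma lw_a3 {t : Bool} {s : Fin 3 × Bool} (h : (lG m).Adj (.inr (.inl s)) (.inr (.inr t))) :
    s.2 ≠ t := by
  obtain ⟨n, i | ⟨x, r⟩ | _ | r, h1, h2⟩ := h <;> simp only [linc] at h1 h2 <;> simp_all

/-- The code of a point inside a clique. -/
def lcode : LV m → (Bool × ZMod m) ⊕ Bool
  | .inl w => .inl w.2
  | .inr (.inl s) => .inr s.2
  | .inr (.inr t) => .inr t

lemma lw_omega [NeZero m] (hm : 3 ≤ m) : (lG m).cliqueNum ≤ 2 * m + 2 := by
  classical
  obtain ⟨s, hs⟩ := (lG m).exists_isNClique_cliqueNum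
  rw [← hs.card_eq]
  by_cases H : ∃ w, Sum.inl w ∈ s
  · obtain ⟨w₀, h₀⟩ := H
    have := card_le_card_of_injOn (s := s) (t := univ) lcode (fun _ _ => mem_univ _)
      fun u hu v hv e => by
        by_contra n
        have a := hs.isClique hu hv n
        rcases u with w | ⟨a, t⟩ | t <;> rcases v with w' | ⟨a', t'⟩ | t' <;>
          simp only [lcode, Sum.inl.injEq, Sum.inr.injEq, reduceCtorEq] at e
        · exact n (congrArg _ (Prod.ext (lw_a1 a) e))
        · have e1 := lw_a2 (hs.isClique h₀ hu (by simp))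
          have e2 := lw_a2 (hs.isClique h₀ hv (by simp))
          exact n (congrArg _ (congrArg _ (Prod.ext (e1.symm.trans e2) e)))
        · exact lw_a3 a e
        · exact lw_a3 a.symm e.symm
        · exact n (e ▸ rfl)
    simpa [ZMod.card] using this
  · have : s ⊆ (univ : Finset ((Fin 3 × Bool) ⊕ Bool)).image Sum.inr := by
      rintro (w | x) hx
      · exact (H ⟨w, hx⟩).elim
      · exact mem_image_of_mem _ (mem_univ x)
    have h8 : s.card ≤ 8 := (card_le_card this).trans (card_image_le.trans (by simp))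
    omega

/-- A large line with the two apexes. -/
def lblk (i : Fin 3) : (Bool × ZMod m) ⊕ Bool ⊕ Bool → LV m
  | .inl x => .inl (i, x)
  | .inr (.inl t) => .inr (.inl (i, t))
  | .inr (.inr t) => .inr (.inr t)

lemma lw_chi [NeZero m] : ¬ (lG m).Colorable (2 * m + 3) := by
  rintro ⟨c⟩
  have key : ∀ i : Fin 3, ∃ t, c (.inr (.inl (i, t))) = c (.inr (.inr t)) := fun i => by
    by_contra n
    push Not at n
    have inj : Function.Injective fun x => c (lblk i x) := fun x y e => by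
      by_contra ne
      have ad : ∀ {u v}, c u = c v → ¬ (lG m).Adj u v := fun q h => c.valid h q
      rcases x with x | t | t <;> rcases y with y | s | s <;> simp only [lblk] at e
      · exact ad e ⟨by simpa using ne, .inl i, rfl, rfl⟩
      · exact ad e ⟨by simp, .inl i, rfl, rfl⟩
      · exact ad e ⟨by simp, .inr (.inl ((i, x), s)), rfl, rfl⟩
      · exact ad e ⟨by simp, .inl i, rfl, rfl⟩
      · exact ad e ⟨by simpa using ne, .inl i, rfl, rfl⟩
      · by_cases q : t = s
        · exact n t (q ▸ e)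
        · exact ad e ⟨by simp, .inr (.inr (some t)), rfl, by
            cases t <;> cases s <;> simp_all [linc]⟩
      · exact ad e ⟨by simp, .inr (.inl ((i, y), t)), rfl, rfl⟩
      · by_cases q : s = t
        · exact n s (q ▸ e.symm)
        · exact ad e ⟨by simp, .inr (.inr (some s)), by
            cases t <;> cases s <;> simp_all [linc], rfl⟩
      · exact ad e ⟨by simpa using ne, .inr (.inr none), trivial, trivial⟩
    have := Fintype.card_le_of_injective _ inj
    simp only [Fintype.card_sum, Fintype.card_prod, Fintype.card_bool, ZMod.card,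
      Fintype.card_fin] at this
    omega
  choose t ht using key
  obtain ⟨i, j, ne, e⟩ := Fintype.exists_ne_map_eq_of_card_lt t (by simp)
  refine c.valid (v := .inr (.inl (i, t i))) (w := .inr (.inl (j, t j)))
    ⟨by simp [ne], .inr (.inr (some (t i))), rfl, e.symm⟩ ?_
  rw [ht, ht, e]

theorem low43 : ∀ ε : ℝ, 0 < ε → ∃ g₀ : ℕ, ∀ g ≥ g₀, ∃ (V : Type) (_ : Fintype V)
    (G : SimpleGraph V) (n : ℕ), reducedGenus G ≤ g ∧ G.chromaticNumber = (n : ℕ∞) ∧
      max ((4 / 3 - ε) * (g : ℝ)) ((G.cliqueNum : ℝ) + 1) < (n : ℝ) := by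
  intro ε hε
  obtain ⟨N, hN⟩ := exists_nat_gt (70 / ε)
  refine ⟨N + 60, fun g hg => ?_⟩
  obtain ⟨m, h1, h2⟩ : ∃ m : ℕ, 3 * m + 100 ≤ 2 * g ∧ 2 * g ≤ 3 * m + 102 :=
    ⟨(2 * g - 100) / 3, by omega, by omega⟩
  have hm : 3 ≤ m := by omega
  have : NeZero m := ⟨by omega⟩
  obtain ⟨n, hn⟩ := ENat.ne_top_iff_exists.1
    (SimpleGraph.chromaticNumber_ne_top_iff_exists.2 ⟨_, (lG m).colorable_of_fintype⟩)
  have hlt : 2 * m + 3 < n := by
    by_contra q
    exact lw_chi (SimpleGraph.chromaticNumber_le_iff_colorable.1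
      (hn ▸ Nat.cast_le.2 (not_lt.1 q)))
  refine ⟨LV m, inferInstance, lG m, n, le_trans (Nat.sInf_le ⟨LL m, inferInstance, _, lw_adjG, rfl⟩)
    (lw_genus g h1), hn.symm, max_lt ?_ ?_⟩
  · have a1 : (2 * g : ℝ) ≤ 3 * m + 102 := by exact_mod_cast h2
    have a2 : (2 * m + 3 : ℝ) < n := by exact_mod_cast hlt
    have a3 : (N : ℝ) ≤ g := by exact_mod_cast (by omega : N ≤ g)
    have a4 : 70 < ε * g := by
      rw [div_lt_iff₀ hε] at hN
      nlinarith
    nlinarith
  · have := lw_omega hm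
    exact_mod_cast (by omega : (lG m).cliqueNum + 1 < n)

end Pool.Agent.P.MP_1fec7a_co.F
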