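import Pool.Agent.P.MP_1fec7a_co.F.Iface

/-! Euler bounds for forests of incidences. -/

set_option autoImplicit false
set_option linter.unusedSectionVars false

namespace Pool.Agent.P.MP_1fec7a_co.F

open Finset S

section aux

variable {V Λ C : Type} [DecidableEq V] [DecidableEq Λ]

lemma m_two {α β : Type} [DecidableEq α] [DecidableEq β] (T : Finset α) (f : α → β)
    (P : β → Prop) (h : ∀ p ∈ T, ∃ q ∈ T, q ≠ p ∧ f q = f p) :
    2 * ((fl T fun p => P (f p)).image f).card ≤ (fl T fun p => P (f p)).card := by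
  refine mul_card_image_le_card _ 2 fun b hb => ?_
  obtain ⟨p, hp, rfl⟩ := mem_image.1 hb
  obtain ⟨q, hq, hqp, hf⟩ := h p (mem_fl.1 hp).1
  refine one_lt_card.2 ⟨q, mem_filter.2 ⟨mem_fl.2 ⟨hq, ?_⟩, hf⟩, p, mem_filter.2 ⟨hp, rfl⟩, hqp⟩
  rw [hf]; exact (mem_fl.1 hp).2

lemma m_key {A : Finset V} {B : Finset Λ} {pa : V → Λ} {pb : Λ → V} {rV : V → ℕ} {rL : Λ → ℕ}
    {cV : V → C} {cL : Λ → C} {S₁ T : Finset (V × Λ)}
    (hA : ∀ u ∈ A, rL (pa u) < rV u ∧ cV u = cL (pa u))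
    (hB : ∀ i ∈ B, rV (pb i) < rL i ∧ cV (pb i) = cL i)
    (hS : ∀ s ∈ S₁, cV s.1 ≠ cL s.2)
    (hT : ∀ p ∈ T, (p.1 ∈ A ∧ p.2 = pa p.1) ∨ (p.2 ∈ B ∧ p.1 = pb p.2) ∨ p ∈ S₁)
    (h1 : ∀ p ∈ T, ∃ q ∈ T, q ≠ p ∧ q.1 = p.1) (h2 : ∀ p ∈ T, ∃ q ∈ T, q ≠ p ∧ q.2 = p.2)
    (c : C) (p₀ : V × Λ) (hp₀ : p₀ ∈ T) (hc : c ∈ s(cV p₀.1, cL p₀.2)) (s₀ : V × Λ) :
    ∃ s ∈ T, s ∈ S₁ ∧ s ≠ s₀ ∧ c ∈ s(cV s.1, cL s.2) := by
  by_contra hcon
  have hno : ∀ s ∈ T, s ∈ S₁ → (cV s.1 = c ∨ cL s.2 = c) → s = s₀ := by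
    intro s hs hs1 h
    by_contra hne
    exact hcon ⟨s, hs, hs1, hne, Sym2.mem_iff.2 (h.imp Eq.symm Eq.symm)⟩
  set X := fl T fun p => cV p.1 = c with hX
  set Y := fl T fun p => cL p.2 = c with hY
  set TA := fl T fun p => p.1 ∈ A ∧ p.2 = pa p.1 ∧ cV p.1 = c with hTA
  set TB := fl T fun p => p.2 ∈ B ∧ p.1 = pb p.2 ∧ cL p.2 = c with hTB
  have e1 : 2 * (X.image Prod.fst).card ≤ X.card := m_two T Prod.fst (fun u => cV u = c) h1
  have e2 : 2 * (Y.image Prod.snd).card ≤ Y.card := m_two T Prod.snd (fun i => cL i = c) h2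
  have hin : ∀ p ∈ T, (cV p.1 = c ∨ cL p.2 = c) → p ∉ S₁ → p ∈ TA ∪ TB := by
    intro p hp h hp1
    rcases hT p hp with ⟨ha, hb⟩ | ⟨ha, hb⟩ | h3
    · refine mem_union_left _ (mem_fl.2 ⟨hp, ha, hb, ?_⟩)
      rcases h with h | h
      · exact h
      · rw [(hA _ ha).2, ← hb, h]
    · refine mem_union_right _ (mem_fl.2 ⟨hp, ha, hb, ?_⟩)
      rcases h with h | h
      · rw [← (hB _ ha).2, ← hb, h]
      · exact h
    · exact absurd h3 hp1
  have hins : ∀ p ∈ T, (cV p.1 = c ∨ cL p.2 = c) → p ∈ insert s₀ (TA ∪ TB) := by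
    intro p hp h
    by_cases hp1 : p ∈ S₁
    · exact mem_insert.2 (Or.inl (hno p hp hp1 h))
    · exact mem_insert_of_mem (hin p hp h hp1)
  have e3 : X.card ≤ (TA ∪ TB).card + 1 :=
    (card_le_card fun p hp => hins p (mem_fl.1 hp).1 (Or.inl (mem_fl.1 hp).2)).trans
      (card_insert_le _ _)
  have e4 : Y.card ≤ (TA ∪ TB).card + 1 :=
    (card_le_card fun p hp => hins p (mem_fl.1 hp).1 (Or.inr (mem_fl.1 hp).2)).trans
      (card_insert_le _ _)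
  have e5 : X.card ≤ (TA ∪ TB).card ∨ Y.card ≤ (TA ∪ TB).card := by
    by_cases h : cV s₀.1 = c
    · refine Or.inr (card_le_card fun p hp => hin p (mem_fl.1 hp).1 (Or.inr (mem_fl.1 hp).2) ?_)
      intro hp1
      have := hno p (mem_fl.1 hp).1 hp1 (Or.inr (mem_fl.1 hp).2)
      refine hS p hp1 ?_
      rw [(mem_fl.1 hp).2, this, h]
    · refine Or.inl (card_le_card fun p hp => hin p (mem_fl.1 hp).1 (Or.inl (mem_fl.1 hp).2) ?_)
      intro hp1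
      have := hno p (mem_fl.1 hp).1 hp1 (Or.inl (mem_fl.1 hp).2)
      exact h (this ▸ (mem_fl.1 hp).2)
  have e6 := card_union_le TA TB
  have iA : (TA.image Prod.fst).card = TA.card := card_image_of_injOn fun p hp q hq h => by
    have a := (mem_fl.1 (mem_coe.1 hp)).2.2.1
    have b := (mem_fl.1 (mem_coe.1 hq)).2.2.1
    exact Prod.ext h (by rw [a, b, h])
  have iB : (TB.image Prod.snd).card = TB.card := card_image_of_injOn fun p hp q hq h => by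
    have a := (mem_fl.1 (mem_coe.1 hp)).2.2.1
    have b := (mem_fl.1 (mem_coe.1 hq)).2.2.1
    exact Prod.ext (by rw [a, b, h]) h
  have sA : TA.image Prod.fst ⊆ X.image Prod.fst :=
    image_subset_image fun p hp => mem_fl.2 ⟨(mem_fl.1 hp).1, (mem_fl.1 hp).2.2.2⟩
  have sB : TB.image Prod.snd ⊆ Y.image Prod.snd :=
    image_subset_image fun p hp => mem_fl.2 ⟨(mem_fl.1 hp).1, (mem_fl.1 hp).2.2.2⟩
  have cA := card_le_card sA
  have cB := card_le_card sB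
  have qA : TA.image Prod.fst = X.image Prod.fst := eq_of_subset_of_card_le sA (by omega)
  have qB : TB.image Prod.snd = Y.image Prod.snd := eq_of_subset_of_card_le sB (by omega)
  have key : ∀ n : ℕ, (∀ p ∈ X, rV p.1 ≠ n) ∧ ∀ p ∈ Y, rL p.2 ≠ n := by
    intro n
    induction n using Nat.strong_induction_on with
    | _ n ih =>
      constructor
      · intro p hp hn
        have : p.1 ∈ TA.image Prod.fst := qA ▸ mem_image_of_mem _ hp
        obtain ⟨q, hq, hqp⟩ := mem_image.1 this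
        obtain ⟨hqT, ha, hb, hc'⟩ := mem_fl.1 hq
        have h3 := hA _ ha
        refine (ih (rL q.2) ?_).2 q (mem_fl.2 ⟨hqT, ?_⟩) rfl
        · rw [hb, ← hn, ← hqp]; exact h3.1
        · rw [hb, ← h3.2, hc']
      · intro p hp hn
        have : p.2 ∈ TB.image Prod.snd := qB ▸ mem_image_of_mem _ hp
        obtain ⟨q, hq, hqp⟩ := mem_image.1 this
        obtain ⟨hqT, ha, hb, hc'⟩ := mem_fl.1 hq
        have h3 := hB _ ha
        refine (ih (rV q.1) ?_).1 q (mem_fl.2 ⟨hqT, ?_⟩) rfl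
        · rw [hb, ← hn, ← hqp]; exact h3.1
        · rw [hb, h3.2, hc']
  rcases Sym2.mem_iff.1 hc with h | h
  · exact (key _).1 p₀ (mem_fl.2 ⟨hp₀, h.symm⟩) rfl
  · exact (key _).2 p₀ (mem_fl.2 ⟨hp₀, h.symm⟩) rfl

lemma m_path {α : Type} (W : Finset α) (a b : α → C) (hne : ∀ s ∈ W, a s ≠ b s)
    (hinj : ∀ s ∈ W, ∀ t ∈ W, s(a s, b s) = s(a t, b t) → s = t) (s : α) (hs : s ∈ W)
    (K : ∀ c, ∀ p ∈ W, c ∈ s(a p, b p) → ∃ q ∈ W, q ≠ p ∧ c ∈ s(a q, b q)) :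
    ∃ s₂ ∈ W, ∃ s₃ ∈ W, ∃ s₄ ∈ W, s ≠ s₂ ∧ s ≠ s₃ ∧ s₂ ≠ s₃ ∧ s ≠ s₄ ∧ s₂ ≠ s₄ ∧
      ∃ c₂, s(a s₂, b s₂) = s(a s, c₂) ∧ (s₃ = s₄ → s(a s₃, b s₃) = s(b s, c₂)) := by
  obtain ⟨s₂, hs₂, h2, hc⟩ := K (a s) s hs (Sym2.mem_mk_left _ _)
  obtain ⟨c₂, hc₂⟩ := Sym2.mem_iff_exists.1 hc
  obtain ⟨s₃, hs₃, h3, hc₃⟩ := K (b s) s hs (Sym2.mem_mk_right _ _)
  obtain ⟨s₄, hs₄, h4, hc₄⟩ := K c₂ s₂ hs₂ (hc₂ ▸ Sym2.mem_mk_right _ _)
  have n1 : b s ≠ c₂ := fun h => h2 (hinj _ hs₂ _ hs (by rw [hc₂, h]))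
  have n2 : a s ≠ c₂ := by
    intro h
    rw [← h] at hc₂
    rcases Sym2.eq_iff.1 hc₂ with ⟨u, v⟩ | ⟨u, v⟩ <;> exact hne _ hs₂ (u.trans v.symm)
  refine ⟨s₂, hs₂, s₃, hs₃, s₄, hs₄, h2.symm, h3.symm, ?_, ?_, h4.symm, c₂, hc₂, ?_⟩
  · rintro rfl
    rw [hc₂] at hc₃
    rcases Sym2.mem_iff.1 hc₃ with h | h
    · exact hne _ hs h.symm
    · exact n1 h
  · rintro rfl
    rcases Sym2.mem_iff.1 hc₄ with h | h
    · exact n2 h.symm
    · exact n1 h.symm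
  · rintro rfl
    exact (Sym2.mem_and_mem_iff n1).1 ⟨hc₃, hc₄⟩

lemma m_euler {ln : Λ → Finset V} {g : ℕ} {cV : V → C} {cL : Λ → C} {S₁ : Finset (V × Λ)}
    {R : ℕ} (hE : EP ln g) (hF : Forest ln cV cL S₁ R) (k : ℕ) (hk : 0 < k)
    (H : ∀ W ⊆ S₁, W.Nonempty → (∀ c, ∀ p ∈ W, c ∈ s(cV p.1, cL p.2) →
      ∃ q ∈ W, q ≠ p ∧ c ∈ s(cV q.1, cL q.2)) → k ≤ W.card) :
    k * S₁.card ≤ k * R + 2 * S₁.card + 2 * k * g := by
  obtain ⟨A, RV, B, RL, pa, pb, rV, rL, hR, hA, hB, hS, -⟩ := hF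
  set TA := A.image fun u => (u, pa u) with hTA
  set TB := B.image fun i => (pb i, i) with hTB
  have mA : ∀ p ∈ TA, p.1 ∈ A ∧ p.2 = pa p.1 := fun p hp => by
    obtain ⟨u, hu, rfl⟩ := mem_image.1 hp
    exact ⟨hu, rfl⟩
  have mB : ∀ p ∈ TB, p.2 ∈ B ∧ p.1 = pb p.2 := fun p hp => by
    obtain ⟨u, hu, rfl⟩ := mem_image.1 hp
    exact ⟨hu, rfl⟩
  have mS : ∀ p ∈ TA ∪ TB ∪ S₁,
      (p.1 ∈ A ∧ p.2 = pa p.1) ∨ (p.2 ∈ B ∧ p.1 = pb p.2) ∨ p ∈ S₁ := fun p hp => by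
    rcases mem_union.1 hp with h | h
    · rcases mem_union.1 h with h | h
      · exact Or.inl (mA p h)
      · exact Or.inr (Or.inl (mB p h))
    · exact Or.inr (Or.inr h)
  have d1 : Disjoint TA TB := disjoint_left.2 fun p hp hq => by
    obtain ⟨a1, a2⟩ := mA p hp
    obtain ⟨b1, b2⟩ := mB p hq
    have u := (hA _ a1).2.1
    have v := (hB _ b1).2.1
    rw [← a2] at u
    rw [← b2] at v
    omega
  have d2 : Disjoint (TA ∪ TB) S₁ := disjoint_left.2 fun p hp hq => by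
    refine (hS p hq).2.2.2 ?_
    rcases mem_union.1 hp with h | h
    · obtain ⟨a1, a2⟩ := mA p h
      rw [a2]; exact (hA _ a1).2.2.1
    · obtain ⟨a1, a2⟩ := mB p h
      rw [a2]; exact (hB _ a1).2.2.1
  have cS : (TA ∪ TB ∪ S₁).card = A.card + B.card + S₁.card := by
    rw [card_union_of_disjoint d2, card_union_of_disjoint d1, hTA, hTB,
      card_image_of_injective _ fun u v h => congrArg Prod.fst h,
      card_image_of_injective _ fun u v h => congrArg Prod.snd h]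
  have c1 : ((TA ∪ TB ∪ S₁).image Prod.fst).card ≤ A.card + RV.card := by
    refine (card_le_card fun u hu => ?_).trans (card_union_le A RV)
    obtain ⟨p, hp, rfl⟩ := mem_image.1 hu
    rw [mem_union]
    rcases mS p hp with ⟨a1, -⟩ | ⟨a1, a2⟩ | h
    · exact Or.inl a1
    · rw [a2]; exact (hB _ a1).2.2.2
    · exact (hS p h).2.1
  have c2 : ((TA ∪ TB ∪ S₁).image Prod.snd).card ≤ B.card + RL.card := by
    refine (card_le_card fun u hu => ?_).trans (card_union_le B RL)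
    obtain ⟨p, hp, rfl⟩ := mem_image.1 hu
    rw [mem_union]
    rcases mS p hp with ⟨a1, a2⟩ | ⟨a1, -⟩ | h
    · rw [a2]; exact (hA _ a1).2.2.2
    · exact Or.inl a1
    · exact (hS p h).2.2.1
  have hk' : (0 : ℝ) < k := by exact_mod_cast hk
  have hsum : ∀ T : Finset (V × Λ), ∑ p ∈ T, (if p ∈ S₁ then (1 / k : ℝ) else 0) =
      (T.filter fun p => p ∈ S₁).card / k := fun T => by
    rw [← sum_filter, sum_const, nsmul_eq_mul, mul_one_div]
  have main := hE (TA ∪ TB ∪ S₁) (fun p => if p ∈ S₁ then (1 / k : ℝ) else 0)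
    (fun p hp => by
      rcases mS p hp with ⟨a1, a2⟩ | ⟨a1, a2⟩ | h
      · rw [a2]; exact (hA _ a1).1
      · rw [a2]; exact (hB _ a1).1
      · exact (hS p h).1)
    (fun p => by split_ifs <;> positivity)
    (fun T hT hne h1 h2 => by
      have K := m_key (T := T) (fun u hu => ⟨(hA u hu).2.1, (hA u hu).2.2.1⟩)
        (fun u hu => ⟨(hB u hu).2.1, (hB u hu).2.2.1⟩) (fun s hs => (hS s hs).2.2.2)
        (fun p hp => mS p (hT hp)) h1 h2
      rw [hsum, le_div_iff₀ hk', one_mul, Nat.cast_le]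
      refine H _ (fun p hp => (mem_filter.1 hp).2) ?_ fun c p hp hc => ?_
      · obtain ⟨p, hp⟩ := hne
        obtain ⟨s, a1, a2, -⟩ := K _ p hp (Sym2.mem_mk_left _ _) p
        exact ⟨s, mem_filter.2 ⟨a1, a2⟩⟩
      · obtain ⟨s, a1, a2, a3, a4⟩ := K c p (mem_filter.1 hp).1 hc p
        exact ⟨s, mem_filter.2 ⟨a1, a2⟩, a3, a4⟩)
  have e : ((TA ∪ TB ∪ S₁).filter fun p => p ∈ S₁) = S₁ := by
    ext p
    simp only [mem_filter, mem_union]
    tauto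
  rw [hsum, e, cS] at main
  have c1' : (((TA ∪ TB ∪ S₁).image Prod.fst).card : ℝ) ≤ A.card + RV.card := by exact_mod_cast c1
  have c2' : (((TA ∪ TB ∪ S₁).image Prod.snd).card : ℝ) ≤ B.card + RL.card := by exact_mod_cast c2
  have hR' : (RV.card : ℝ) + RL.card ≤ R := by exact_mod_cast hR
  push_cast at main
  have f1 : (S₁.card : ℝ) ≤ R + 2 * (S₁.card / k) + 2 * g := by linarith
  have f2 := mul_le_mul_of_nonneg_left f1 hk'.le
  have f3 : (k : ℝ) * (R + 2 * (S₁.card / k) + 2 * g) = k * R + 2 * S₁.card + 2 * k * g := by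
    field_simp
  rw [f3] at f2
  exact_mod_cast f2

end aux

theorem p_M3 : S_M3 := by
  intro V Λ C _ _ ln g cV cL S₁ R hE hF
  have hF' := hF
  obtain ⟨A, RV, B, RL, pa, pb, rV, rL, -, -, -, hS, hI⟩ := hF'
  have := m_euler hE hF 3 (by norm_num) fun W hW ⟨s, hs⟩ K => by
    obtain ⟨s₂, h₂, s₃, h₃, _, _, a1, a2, a3, -⟩ := m_path W (fun p => cV p.1) (fun p => cL p.2)
      (fun s hs => (hS s (hW hs)).2.2.2) (fun s hs t ht => hI s (hW hs) t (hW ht)) s hs K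
    exact two_lt_card.2 ⟨s, hs, s₂, h₂, s₃, h₃, a1, a2, a3⟩
  omega

theorem p_M2 : S_M2 := by
  intro V Λ C _ _ ln g cV cL S₁ R side hE hF hside
  have hF' := hF
  obtain ⟨A, RV, B, RL, pa, pb, rV, rL, -, -, -, hS, hI⟩ := hF'
  have := m_euler hE hF 4 (by norm_num) fun W hW ⟨s, hs⟩ K => by
    obtain ⟨s₂, h₂, s₃, h₃, s₄, h₄, a1, a2, a3, a4, a5, c₂, b1, b2⟩ :=
      m_path W (fun p => cV p.1) (fun p => cL p.2)
      (fun s hs => (hS s (hW hs)).2.2.2) (fun s hs t ht => hI s (hW hs) t (hW ht)) s hs K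
    have a6 : s₃ ≠ s₄ := fun h => by
      have u1 := hside s (hW hs)
      have u2 := hside s₂ (hW h₂)
      have u3 := hside s₃ (hW h₃)
      have v2 : side (cV s.1) ≠ side c₂ := by
        rcases Sym2.eq_iff.1 b1 with ⟨x, y⟩ | ⟨x, y⟩
        · rw [← x, ← y]; exact u2
        · rw [← x, ← y]; exact u2.symm
      have v3 : side (cL s.2) ≠ side c₂ := by
        rcases Sym2.eq_iff.1 (b2 h) with ⟨x, y⟩ | ⟨x, y⟩
        · rw [← x, ← y]; exact u3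
        · rw [← x, ← y]; exact u3.symm
      revert u1 v2 v3
      cases side (cV s.1) <;> cases side (cL s.2) <;> cases side c₂ <;> simp
    have hsub : ({s, s₂, s₃, s₄} : Finset (V × Λ)) ⊆ W := by
      simp [insert_subset_iff, hs, h₂, h₃, h₄]
    have hc : ({s, s₂, s₃, s₄} : Finset (V × Λ)).card = 4 := by
      rw [card_insert_of_notMem (by simp [a1, a2, a4]), card_insert_of_notMem (by simp [a3, a5]),
        card_pair a6]
    exact hc ▸ card_le_card hsub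
  omega

end Pool.Agent.P.MP_1fec7a_co.F
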