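import Pool.Agent.P.MP_1fec7a_co.F.Iface

/-! The linear bound for the number of points of a critical configuration. -/

set_option autoImplicit false

namespace Pool.Agent.P.MP_1fec7a_co.F

open Finset S

theorem r1_sum {V Λ : Type} [DecidableEq V] [DecidableEq Λ] (P X : Finset V) (hub : V → Λ)
    (p : Λ → V → Prop) : ∑ h ∈ hubs P X hub, (fl (gen P X hub h) (p h)).card =
      (fl (P \ X) fun u => p (hub u) u).card := by
  rw [card_eq_sum_card_fiberwise (s := fl (P \ X) fun u => p (hub u) u) (t := hubs P X hub)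
    (f := hub) fun v hv => mem_coe.2 (mem_image_of_mem _ (mem_fl.1 (mem_coe.1 hv)).1)]
  refine sum_congr rfl fun h _ => congrArg card ?_
  ext v
  simp only [gen, mem_fl, mem_filter]
  constructor
  · rintro ⟨⟨a, rfl⟩, b⟩
    exact ⟨⟨a, b⟩, rfl⟩
  · rintro ⟨⟨a, b⟩, rfl⟩
    exact ⟨⟨a, rfl⟩, b⟩

theorem p_R1 (h3 : S_E3) (hS : S_STR) (hL : S_L3) (hT : S_TWO) : S_R1 := by
  obtain ⟨E, hE⟩ : ∃ E : ℕ, 600 * 600 = E := ⟨_, rfl⟩
  obtain ⟨c, hc⟩ : ∃ c : ℕ, c = 5 + 2 * E + 2 * E * (2 * E ^ 2) * 3 := ⟨_, rfl⟩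
  obtain ⟨d, hd⟩ : ∃ d : ℕ, d = 2 * E * (2 * E ^ 2) * 6 := ⟨_, rfl⟩
  refine ⟨4 * (102 + d), 24 * c + E + 1, fun K hK V Λ _ _ _ ln P g hC hg => ?_⟩
  obtain ⟨X, hub, st, -, a1, a2, -⟩ := hS V Λ ln P K g 600 600 hC (by norm_num) (by norm_num)
    (by rw [hE]; omega)
  rw [hE] at st a1
  have b1 := h3 V Λ ln g E P X hub hC.lin hC.ep st
  have b2 := hT V Λ ln P X hub g E hC.lin hC.ep st
  have b3 := sum_le_sum (hL V Λ ln P X hub K g E hC st)
  have b4 := r1_sum P X hub fun _ _ => True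
  have b5 : ∀ s : Finset V, fl s (fun _ => True) = s := fun s => by ext; simp
  simp only [b5] at b4
  rw [b4, sum_add_distrib, sum_add_distrib, r1_sum P X hub (Two ln X), sum_const,
    smul_eq_mul, ← mul_sum] at b3
  have b6 := card_sdiff_add_card_eq_card st.sub
  have b7 := Nat.mul_le_mul_left (2 * E) b1
  have b8 : (hubs P X hub).card * (24 * c) ≤ 6 * P.card + 12 * g :=
    (Nat.mul_le_mul_left _ (by omega)).trans a1
  have b9 : 25 * X.card ≤ P.card + 152 * g := by
    have : (25 * X.card : ℝ) ≤ P.card + 152 * g := by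
      push_cast at a2
      linarith
    exact_mod_cast this
  have e1 : 5 * (hubs P X hub).card + (hubs P X hub).card * (2 * E) +
      2 * E * (2 * E ^ 2 * (3 * (hubs P X hub).card + 6 * g)) =
        (hubs P X hub).card * c + d * g := by
    rw [hc, hd]
    ring
  have e2 : (hubs P X hub).card * (24 * c) = 24 * ((hubs P X hub).card * c) := by ring
  have e3 : 4 * (102 + d) * g = 408 * g + 4 * (d * g) := by ring
  refine le_trans ?_ (Nat.mul_le_mul_left _ hg)
  omega

end Pool.Agent.P.MP_1fec7a_co.F
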