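import Pool.Agent.P.MP_1fec7a_co.F.Iface

/-! The structure of a critical configuration: hubs and exceptional points. -/

set_option autoImplicit false
set_option linter.unusedSectionVars false

namespace Pool.Agent.P.MP_1fec7a_co.F

open Finset S

section

variable {V Λ : Type} [DecidableEq V] [DecidableEq Λ] {ln : Λ → Finset V} {P : Finset V}
  {K g : ℕ}

/-- Every point of a critical configuration has at least `K` neighbours. -/
theorem str_deg (h : Cr ln P K g) {v : V} (hv : v ∈ P) : K ≤ (fl P (Coll ln v)).card := by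
  by_contra hlt
  obtain ⟨c, c1, c2⟩ := h.crit v hv
  obtain ⟨α, a1, a2⟩ := exists_mem_notMem_of_card_lt_card (s := (fl P (Coll ln v)).image c)
    (t := range K) (card_image_le.trans_lt (by rw [card_range]; omega))
  have key : ∀ w ∈ P, Coll ln v w → α ≠ c w := fun w hw e e' =>
    a2 (mem_image.2 ⟨w, mem_fl.2 ⟨hw, e⟩, e'.symm⟩)
  refine h.ncol ⟨Function.update c v α, fun w hw => ?_, fun u hu w hw e => ?_⟩
  · by_cases e : w = v
    · rw [e, Function.update_self]
      exact mem_range.1 a1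
    · rw [Function.update_of_ne e]
      exact c1 w (mem_erase.2 ⟨e, hw⟩)
  · by_cases e1 : u = v
    · subst e1
      rw [Function.update_self, Function.update_of_ne e.1.symm]
      exact key w hw e
    · by_cases e2 : w = v
      · subst e2
        rw [Function.update_self, Function.update_of_ne e1]
        exact (key u hu e.symm).symm
      · rw [Function.update_of_ne e1, Function.update_of_ne e2]
        exact c2 u (mem_erase.2 ⟨e1, hu⟩) w (mem_erase.2 ⟨e2, hw⟩) e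

variable [Fintype Λ]

/-- The lines with at least two points. -/
noncomputable def str_L (ln : Λ → Finset V) : Finset Λ := fl univ fun i => 2 ≤ (ln i).card

theorem str_mem {v : V} {i : Λ} : i ∈ thr ln (str_L ln) v ↔ 2 ≤ (ln i).card ∧ v ∈ ln i := by
  simp [thr, str_L]

theorem str_two {u v : V} {i : Λ} (e : u ≠ v) (hu : u ∈ ln i) (hv : v ∈ ln i) :
    2 ≤ (ln i).card := one_lt_card.2 ⟨u, hu, v, hv, e⟩

theorem str_inc (h1 : S_E1) (h : Cr ln P K g) :
    ∑ i ∈ str_L ln, (ln i).card ≤ 6 * P.card + 12 * g := by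
  have h2 := h1 V Λ ln g P h.lin h.ep
  have h3 : ∑ i ∈ str_L ln, (ln i).card ≤ ∑ i ∈ str_L ln, 2 * ((ln i ∩ P).card - 1) :=
    sum_le_sum fun i hi => by
      have := (mem_fl.1 hi).2
      rw [inter_eq_left.2 (h.sub i)]
      omega
  have h4 := sum_le_sum_of_subset (f := fun i => (ln i ∩ P).card - 1) (subset_univ (str_L ln))
  rw [← mul_sum] at h3
  omega

theorem str_cnt (h1 : S_E1) (h : Cr ln P K g) (T : Finset Λ) (m c : ℕ)
    (hT : ∀ i ∈ T, 2 ≤ (ln i).card ∧ m ≤ c * (ln i).card) :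
    T.card * m ≤ c * (6 * P.card + 12 * g) :=
  calc T.card * m ≤ ∑ i ∈ T, c * (ln i).card := card_nsmul_le_sum T _ m fun i hi => (hT i hi).2
    _ ≤ ∑ i ∈ str_L ln, c * (ln i).card :=
      sum_le_sum_of_subset fun i hi => mem_fl.2 ⟨mem_univ _, (hT i hi).1⟩
    _ ≤ _ := by
      rw [← mul_sum]
      exact Nat.mul_le_mul_left _ (str_inc h1 h)

theorem str_thr (h1 : S_E1) (h : Cr ln P K g) :
    ∑ v ∈ P, (thr ln (str_L ln) v).card ≤ 6 * P.card + 12 * g := by
  refine le_trans ?_ (str_inc h1 h)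
  simp only [thr, fl_eq, card_filter]
  rw [sum_comm]
  refine sum_le_sum fun i _ => ?_
  rw [← card_filter]
  exact card_le_card fun v hv => (mem_filter.1 hv).2

/-- A point on few lines lies on a long line. -/
theorem str_huge (h : Cr ln P K g) {r : ℕ} (hr : 0 < r) (hK : 0 < K) {v : V} (hv : v ∈ P)
    (ht : (thr ln (str_L ln) v).card ≤ r) :
    ∃ i, v ∈ ln i ∧ 2 ≤ (ln i).card ∧ K ≤ r * (ln i).card := by
  by_contra hc
  have h1 : fl P (Coll ln v) ⊆ (thr ln (str_L ln) v).biUnion ln := fun w hw => by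
    obtain ⟨-, e, i, a, b⟩ := mem_fl.1 hw
    exact mem_biUnion.2 ⟨i, str_mem.2 ⟨str_two e a b, a⟩, b⟩
  have h2 := (str_deg h hv).trans ((card_le_card h1).trans card_biUnion_le)
  have h3 : ∑ i ∈ thr ln (str_L ln) v, r * (ln i).card ≤ (thr ln (str_L ln) v).card * (K - 1) :=
    sum_le_card_nsmul _ _ _ fun i hi => by
      by_contra e
      exact hc ⟨i, (str_mem.1 hi).2, (str_mem.1 hi).1, by omega⟩
  rw [← mul_sum] at h3
  have h4 := (Nat.mul_le_mul_left r h2).trans (h3.trans (Nat.mul_le_mul_right _ ht))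
  have h5 := Nat.le_of_mul_le_mul_left h4 hr
  omega

end

theorem p_STR (h1 : S_E1) (h2 : S_E2) : S_STR := by
  intro V Λ _ _ _ ln P K g r D h hr hD hK
  have hK0 : 0 < K := by omega
  have : Nonempty Λ := by
    rcases P.eq_empty_or_nonempty with e | ⟨v, hv⟩
    · exact (h.ncol ⟨fun _ => 0, by simp [PC, e]⟩).elim
    · obtain ⟨w, hw⟩ := card_pos.1 (hK0.trans_le (str_deg h hv))
      exact ⟨(mem_fl.1 hw).2.2.choose⟩
  choose! hub u1 u2 u3 using fun v (hv : v ∈ P) => str_huge h hr hK0 hv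
  have ubig : ∀ v ∈ P, (thr ln (str_L ln) v).card ≤ r → D < (ln (hub v)).card := fun v hv ht =>
    Nat.lt_of_mul_lt_mul_left (hK.trans_le (u3 v hv ht))
  obtain ⟨X, hX⟩ : ∃ X, X = fl P fun v => r < (thr ln (str_L ln) v).card ∨
    ∃ i j, i ≠ j ∧ D < (ln i).card ∧ D < (ln j).card ∧ v ∈ ln i ∧ v ∈ ln j := ⟨_, rfl⟩
  have gn : ∀ v ∈ P \ X, v ∈ P ∧ (thr ln (str_L ln) v).card ≤ r ∧
      ∀ i, v ∈ ln i → i ≠ hub v → (ln i).card ≤ D := fun v hv => by
    obtain ⟨a, b⟩ := mem_sdiff.1 hv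
    rw [hX, mem_fl, not_and, not_or] at b
    have c := not_lt.1 (b a).1
    refine ⟨a, c, fun i hi e => ?_⟩
    by_contra e'
    exact (b a).2 ⟨i, hub v, e, not_le.1 e', ubig v a c, hi, u1 v a c⟩
  have hout : ∀ v ∈ P \ X, (fl P fun w => Coll ln v w ∧ w ∉ ln (hub v)).card ≤ r * D :=
    fun v hv => by
      obtain ⟨a, b, c⟩ := gn v hv
      have s : (fl P fun w => Coll ln v w ∧ w ∉ ln (hub v)) ⊆
          ((thr ln (str_L ln) v).erase (hub v)).biUnion ln := fun w hw => by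
        obtain ⟨-, ⟨e, i, a, b⟩, c⟩ := mem_fl.1 hw
        exact mem_biUnion.2 ⟨i, mem_erase.2 ⟨fun e' => c (e' ▸ b),
          str_mem.2 ⟨str_two e a b, a⟩⟩, b⟩
      refine (card_le_card s).trans ((card_biUnion_le_card_mul _ _ D fun i hi =>
        c i (str_mem.1 (mem_erase.1 hi).2).2 (mem_erase.1 hi).1).trans ?_)
      exact Nat.mul_le_mul_right _ (card_erase_le.trans b)
  have hh : ∀ i ∈ hubs P X hub, 2 ≤ (ln i).card ∧ K + 1 ≤ (ln i).card + r * D := fun i hi => by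
    obtain ⟨v, hv, rfl⟩ := mem_image.1 hi
    obtain ⟨a, b, -⟩ := gn v hv
    have s : fl P (Coll ln v) ⊆ (ln (hub v)).erase v ∪
        fl P fun w => Coll ln v w ∧ w ∉ ln (hub v) := fun w hw => by
      obtain ⟨c, d⟩ := mem_fl.1 hw
      by_cases e : w ∈ ln (hub v)
      · exact mem_union_left _ (mem_erase.2 ⟨d.1.symm, e⟩)
      · exact mem_union_right _ (mem_fl.2 ⟨c, d, e⟩)
    have c := (str_deg h a).trans ((card_le_card s).trans (card_union_le _ _))
    have d := hout v hv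
    have e := u2 v a b
    rw [card_erase_of_mem (u1 v a b)] at c
    omega
  obtain ⟨B, hB⟩ : ∃ B, B = fl univ fun i => D < (ln i).card := ⟨_, rfl⟩
  obtain ⟨G, hG⟩ : ∃ G, G = fl univ fun i => 2 ≤ (ln i).card ∧ K ≤ r * (ln i).card := ⟨_, rfl⟩
  obtain ⟨X1, e1⟩ : ∃ X1, X1 = fl P fun v => r < (thr ln (str_L ln) v).card := ⟨_, rfl⟩
  obtain ⟨X2, e2⟩ : ∃ X2, X2 = fl P fun v => (thr ln (str_L ln) v).card ≤ r ∧
    ∃ i ∈ B, ∃ j ∈ B, i ≠ j ∧ v ∈ ln i ∧ v ∈ ln j := ⟨_, rfl⟩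
  have mB : ∀ i, i ∈ B ↔ D < (ln i).card := fun i => by simp [hB]
  have x0 : X.card ≤ X1.card + X2.card := by
    refine (card_le_card fun v hv => ?_).trans (card_union_le _ _)
    rw [hX, mem_fl] at hv
    rw [mem_union, e1, e2, mem_fl, mem_fl]
    by_cases e : r < (thr ln (str_L ln) v).card
    · exact Or.inl ⟨hv.1, e⟩
    · obtain ⟨i, j, a, b, c, d⟩ := hv.2.resolve_left e
      exact Or.inr ⟨hv.1, not_lt.1 e, i, (mB i).2 b, j, (mB j).2 c, a, d⟩
  have x1 : X1.card * r ≤ 6 * P.card + 12 * g :=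
    ((card_nsmul_le_sum X1 _ r fun v hv => (mem_fl.1 (e1 ▸ hv)).2.le).trans
      (sum_le_sum_of_subset (e1 ▸ fl_subset _ _))).trans (str_thr h1 h)
  have x2 : X2.card ≤ 3 * B.card + 6 * g :=
    (card_le_card (e2 ▸ fl_mono fun v hv e => ⟨hv, e.2⟩)).trans (h2 V Λ ln g P B h.lin h.ep)
  have x3 : X2.card ≤ G.card * B.card := by
    have s : X2 ⊆ (G ×ˢ B).biUnion fun p => fl (ln p.1 ∩ ln p.2) fun _ => p.1 ≠ p.2 :=
      fun v hv => by
        rw [e2, mem_fl] at hv
        obtain ⟨a, b, i, hi, j, hj, c, d, e⟩ := hv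
        have k : hub v ∈ G := by
          rw [hG, mem_fl]
          exact ⟨mem_univ _, u2 v a b, u3 v a b⟩
        by_cases f : hub v = i
        · exact mem_biUnion.2 ⟨(hub v, j), mem_product.2 ⟨k, hj⟩,
            mem_fl.2 ⟨mem_inter.2 ⟨u1 v a b, e⟩, f ▸ c⟩⟩
        · exact mem_biUnion.2 ⟨(hub v, i), mem_product.2 ⟨k, hi⟩,
            mem_fl.2 ⟨mem_inter.2 ⟨u1 v a b, d⟩, f⟩⟩
    refine (card_le_card s).trans ((card_biUnion_le_card_mul _ _ 1 fun p _ =>
      card_le_one.2 fun u hu v hv => ?_).trans (by rw [card_product, mul_one]))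
    obtain ⟨a, b⟩ := mem_fl.1 hu
    obtain ⟨c, -⟩ := mem_fl.1 hv
    by_contra e
    exact b (h.lin _ _ u v e (mem_inter.1 a).1 (mem_inter.1 c).1 (mem_inter.1 a).2
      (mem_inter.1 c).2)
  have x4 := str_cnt h1 h B D 1 fun i hi => by
    have := (mB i).1 hi
    omega
  have x5 := str_cnt h1 h G K r fun i hi => by
    rw [hG, mem_fl] at hi
    exact hi.2
  have y0 : (X.card : ℝ) ≤ X1.card + X2.card := by exact_mod_cast x0
  have y1 : (X1.card : ℝ) ≤ (6 * P.card + 12 * g) / r :=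
    (le_div_iff₀ (by exact_mod_cast hr)).2 (by exact_mod_cast x1)
  have y2 : (X2.card : ℝ) ≤ 3 * B.card + 6 * g := by exact_mod_cast x2
  have y3 : (X2.card : ℝ) ≤ G.card * B.card := by exact_mod_cast x3
  have y4 : (B.card : ℝ) ≤ (6 * P.card + 12 * g) / D :=
    (le_div_iff₀ (by exact_mod_cast hD)).2 (by exact_mod_cast x4.trans (one_mul _).le)
  have y5 : (G.card : ℝ) ≤ r * (6 * P.card + 12 * g) / K :=
    (le_div_iff₀ (by exact_mod_cast hK0)).2 (by exact_mod_cast x5)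
  have y6 := mul_le_mul y5 y4 (Nat.cast_nonneg _) ((Nat.cast_nonneg _).trans y5)
  refine ⟨X, hub, ⟨hX ▸ fl_subset _ _, fun v hv => u1 v (gn v hv).1 (gn v hv).2.1,
    fun v hv w hw e => ?_, hout, fun v hv i hi e => ((gn v hv).2.2 i hi e).trans
      (Nat.le_mul_of_pos_left _ hr)⟩, fun i hi => (hh i hi).2, ?_, by linarith, by linarith⟩
  · by_contra e'
    exact absurd ((gn v hv).2.2 _ e (Ne.symm e')) (not_le.2 (ubig w (gn w hw).1 (gn w hw).2.1))
  · refine (str_cnt h1 h _ _ 1 fun i hi => ?_).trans (one_mul _).le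
    have := hh i hi
    omega

end Pool.Agent.P.MP_1fec7a_co.F
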