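import Pool.Agent.P.MP_1fec7a_co.F.Iface

/-! From critical configurations to graphs. -/

set_option autoImplicit false

namespace Pool.Agent.P.MP_1fec7a_co.F

open Finset S

theorem top_crit {V : Type} [Fintype V] [DecidableEq V] (G : SimpleGraph V) {K g : ℕ}
    (hr : reducedGenus G ≤ g) (hω : G.cliqueNum + 1 ≤ K) (hc : ¬ G.Colorable K) :
    ∃ (Λ : Type) (_ : DecidableEq Λ) (_ : Fintype Λ) (ln : Λ → Finset V) (P : Finset V),
      Cr ln P K g := by
  classical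
  obtain ⟨ι, hι, E, hE, hg⟩ := K68.exists_hyper G
  have := Fintype.ofFinite ι
  let l0 : ι → Finset V := fun i => univ.filter fun v => v ∈ E i
  have m0 : ∀ i v, v ∈ l0 i ↔ v ∈ E i := fun i v => by simp [l0]
  have adj : ∀ u v, Coll l0 u v ↔ G.Adj u v := by
    intro u v
    constructor
    · rintro ⟨huv, i, hu, hv⟩
      by_contra h
      have h1 := hE u v huv
      rw [if_neg h, Nat.card_eq_zero] at h1
      rcases h1 with h1 | h1
      · exact h1.false ⟨i, (m0 i u).1 hu, (m0 i v).1 hv⟩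
      · exact not_finite {i : ι // u ∈ E i ∧ v ∈ E i}
    · intro h
      have h1 := hE u v h.ne
      rw [if_pos h, Nat.card_eq_one_iff_exists] at h1
      obtain ⟨⟨i, hu, hv⟩, -⟩ := h1
      exact ⟨h.ne, i, (m0 i u).2 hu, (m0 i v).2 hv⟩
  have lin : Lin l0 := by
    intro i j u v huv a b c d
    have h1 := hE u v huv
    rw [if_pos ((adj u v).1 ⟨huv, i, a, b⟩), Nat.card_eq_one_iff_unique] at h1
    exact congrArg Subtype.val (h1.1.elim ⟨i, (m0 i u).1 a, (m0 i v).1 b⟩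
      ⟨j, (m0 j u).1 c, (m0 j v).1 d⟩)
  have nc : ¬ ∃ c, PC l0 univ K c := by
    rintro ⟨c, c1, c2⟩
    exact hc ⟨SimpleGraph.Coloring.mk (fun v => ⟨c v, c1 v (mem_univ v)⟩) fun {u v} h e =>
      c2 u (mem_univ u) v (mem_univ v) ((adj u v).2 h) (congrArg Fin.val e)⟩
  obtain ⟨P, hP, hmin⟩ := exists_min_image (univ.filter fun P : Finset V => ¬ ∃ c, PC l0 P K c)
    card ⟨univ, mem_filter.2 ⟨mem_univ _, nc⟩⟩
  have up : ∀ u v, Coll (fun i => l0 i ∩ P) u v → Coll l0 u v := fun u v ⟨h, i, a, b⟩ =>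
    ⟨h, i, (mem_inter.1 a).1, (mem_inter.1 b).1⟩
  refine ⟨ι, inferInstance, this, fun i => l0 i ∩ P, P, fun i => inter_subset_right,
    fun i j u v h a b c d => lin i j u v h (mem_inter.1 a).1 (mem_inter.1 b).1 (mem_inter.1 c).1
      (mem_inter.1 d).1, fun T ω h1 h2 h3 => ?_, fun Z _ hZ => ?_, ?_, fun x hx => ?_⟩
  · refine (K68.euler E T (fun p hp => (m0 _ _).1 (mem_inter.1 (h1 p hp)).1) ω h2 h3).trans ?_
    have : (genus (incidenceGraph E) : ℝ) ≤ g := Nat.cast_le.2 (hg.trans_le hr)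
    linarith
  · have h1 : G.IsClique (Z : Set V) := fun u hu v hv h => (adj u v).1 (up u v (hZ u hu v hv h))
    exact (Nat.succ_le_succ h1.card_le_cliqueNum).trans hω
  · rintro ⟨c, c1, c2⟩
    exact (mem_filter.1 hP).2 ⟨c, c1, fun u hu v hv ⟨h, i, a, b⟩ =>
      c2 u hu v hv ⟨h, i, mem_inter.2 ⟨a, hu⟩, mem_inter.2 ⟨b, hv⟩⟩⟩
  · by_contra h
    refine (hmin (P.erase x) (mem_filter.2 ⟨mem_univ _, fun ⟨c, c1, c2⟩ =>
      h ⟨c, c1, fun u hu v hv e => c2 u hu v hv (up u v e)⟩⟩)).not_gt (card_erase_lt_of_mem hx)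

theorem p_TOP (h1 : S_R1) (h2 : S_END) : S_TOP := by
  classical
  intro ε hε
  obtain ⟨C₀, K₀, H1⟩ := h1
  have e0 : 0 < min ε 1 := lt_min hε one_pos
  have e1 := min_le_left ε 1
  have e2 := min_le_right ε 1
  generalize min ε 1 = e at e0 e1 e2
  obtain ⟨K₁, H2⟩ := h2 (e / 2) C₀ (half_pos e0)
  obtain ⟨N, hN⟩ := exists_nat_ge (3 / e)
  refine ⟨max (max K₀ K₁) N, fun g hg V _ G n hr hn => not_lt.1 fun hlt => ?_⟩
  obtain ⟨a1, a2⟩ := max_lt_iff.1 hlt
  have a3 : G.cliqueNum + 1 < n := by exact_mod_cast a2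
  obtain ⟨K, rfl⟩ : ∃ K, n = K + 1 := ⟨n - 1, by omega⟩
  have g0 : (0 : ℝ) ≤ g := Nat.cast_nonneg g
  push_cast at a1
  have a4 : g ≤ K := by
    have : (g : ℝ) < K + 1 := by nlinarith
    exact Nat.lt_succ_iff.1 (by exact_mod_cast this)
  obtain ⟨Λ, _, _, ln, P, hC⟩ := top_crit G (K := K) hr (by omega) fun h => by
    have := h.chromaticNumber_le
    rw [hn] at this
    exact absurd (by exact_mod_cast this : K + 1 ≤ K) (by omega)
  refine H2 K (by omega) V Λ ln P g hC (H1 K (by omega) V Λ ln P g hC a4) ?_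
  have a5 : (N : ℝ) ≤ K := Nat.cast_le.2 (by omega)
  have a6 : 3 ≤ K * e := (div_le_iff₀ e0).1 (hN.trans a5)
  have a7 : (4 / 3 + e) * g < K + 1 := lt_of_le_of_lt (by gcongr) a1
  refine le_of_mul_le_mul_left ?_ (by positivity : 0 < 4 / 3 + e)
  nlinarith [mul_le_mul_of_nonneg_left e2 (by linarith : 0 ≤ K * e)]

end Pool.Agent.P.MP_1fec7a_co.F
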