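import Pool.Agent.P.MP_1fec7a_co.F.Iface

/-! Few generic points have two neighbours in the exceptional set off their hub. -/

set_option autoImplicit false

namespace Pool.Agent.P.MP_1fec7a_co.F

open Finset S

theorem p_TWO (h1 : S_E1) (h2 : S_E2) (h4 : S_E4) : S_TWO := by
  intro V Λ _ _ _ ln P X hub g D hL hE hS
  obtain ⟨M, hM⟩ : ∃ M : Finset Λ, M = fl univ fun i => 2 ≤ (ln i ∩ X).card := ⟨_, rfl⟩
  have hMm : ∀ i, i ∈ M ↔ 2 ≤ (ln i ∩ X).card := fun i => by simp [hM]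
  have hMc : M.card ≤ 3 * X.card + 6 * g := by
    refine le_trans ?_ (h1 V Λ ln g X hL hE)
    calc M.card = ∑ _i ∈ M, 1 := by simp
      _ ≤ ∑ i ∈ M, ((ln i ∩ X).card - 1) :=
        sum_le_sum fun i hi => by have := (hMm i).1 hi; omega
      _ ≤ _ := sum_le_sum_of_subset (subset_univ _)
  obtain ⟨T2, hT2⟩ : ∃ T : Finset V, T = fl P fun v => ∃ i ∈ hubs P X hub ∪ M,
    ∃ j ∈ hubs P X hub ∪ M, i ≠ j ∧ v ∈ ln i ∧ v ∈ ln j := ⟨_, rfl⟩
  have hT2c : T2.card ≤ 3 * ((hubs P X hub).card + M.card) + 6 * g := by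
    have a := h2 V Λ ln g P (hubs P X hub ∪ M) hL hE
    have b := card_union_le (hubs P X hub) M
    rw [← hT2] at a
    omega
  obtain ⟨T1, hT1⟩ : ∃ T : Finset V, T = fl (P \ X) fun u => Two ln X (hub u) u ∧
    ∀ i ∈ M, u ∈ ln i → i = hub u := ⟨_, rfl⟩
  have hsub : T1 ⊆ P \ X := hT1 ▸ fl_subset _ _
  have hdj : Disjoint T1 X := disjoint_left.2 fun u hu => (mem_sdiff.1 (hsub hu)).2
  have hT1c : T1.card ≤ 2 * (hubs P X hub).card + 2 * X.card + 4 * g := by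
    have a := h4 V Λ ln g D P X hub T1 X hL hE hS hsub hdj
    have b : (T1.image hub).card ≤ (hubs P X hub).card := card_le_card (image_subset_image hsub)
    have c : ∑ _u ∈ T1, 3 ≤ ∑ u ∈ T1,
        (1 + (fl univ fun i => u ∈ ln i ∧ i ≠ hub u ∧ ∃ y ∈ X, y ∈ ln i).card) := by
      refine sum_le_sum fun u hu => ?_
      rw [hT1, mem_fl] at hu
      obtain ⟨-, ⟨x, hx, y, hy, hxy, hxh, hyh, ⟨-, i, hui, hxi⟩, ⟨-, j, huj, hyj⟩⟩, hn⟩ := hu
      have hi : i ≠ hub u := fun e => hxh (e ▸ hxi)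
      have hj : j ≠ hub u := fun e => hyh (e ▸ hyj)
      have hij : i ≠ j := by
        rintro rfl
        refine hi (hn i ((hMm i).2 ?_) hui)
        exact one_lt_card.2 ⟨x, mem_inter.2 ⟨hxi, hx⟩, y, mem_inter.2 ⟨hyj, hy⟩, hxy⟩
      have : 1 < (fl univ fun i => u ∈ ln i ∧ i ≠ hub u ∧ ∃ y ∈ X, y ∈ ln i).card :=
        one_lt_card.2 ⟨i, mem_fl.2 ⟨mem_univ _, hui, hi, x, hx, hxi⟩, j,
          mem_fl.2 ⟨mem_univ _, huj, hj, y, hy, hyj⟩, hij⟩
      omega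
    rw [sum_const, smul_eq_mul] at c
    omega
  have hcov : (fl (P \ X) fun u => Two ln X (hub u) u) ⊆ T1 ∪ T2 := by
    intro u hu
    obtain ⟨hu, ht⟩ := mem_fl.1 hu
    by_cases hn : ∀ i ∈ M, u ∈ ln i → i = hub u
    · exact mem_union_left _ (hT1 ▸ mem_fl.2 ⟨hu, ht, hn⟩)
    · push Not at hn
      obtain ⟨i, hi, hui, hne⟩ := hn
      refine mem_union_right _ (hT2 ▸ mem_fl.2 ⟨(mem_sdiff.1 hu).1, i, mem_union_right _ hi,
        hub u, mem_union_left _ (mem_image_of_mem hub hu), hne, hui, hS.mem u hu⟩)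
  have a := card_le_card hcov
  have b := card_union_le T1 T2
  omega

end Pool.Agent.P.MP_1fec7a_co.F
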