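import Pool.Agent.P.MP_1fec7a_co.F.Iface

/-! The combinatorial data of the end game come from a critical configuration. -/

set_option autoImplicit false
set_option linter.unusedSectionVars false

namespace Pool.Agent.P.MP_1fec7a_co.F

open Finset S

variable {V Λ : Type} [DecidableEq V] [DecidableEq Λ] {ln : Λ → Finset V} {P X : Finset V}
  {hub : V → Λ} {K g D C : ℕ} {U A : Λ → Finset V}

lemma wt_symm {u v : V} (h : Coll ln u v) : Coll ln v u :=
  ⟨h.1.symm, h.2.imp fun _ hi => ⟨hi.2, hi.1⟩⟩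

lemma wt_U (hs : St ln P X hub D) (ha : Ap ln P X hub C U A) {h : Λ} {u : V} (hu : u ∈ U h) :
    u ∈ ln h := by
  have := mem_fl.1 (ha.usub h hu)
  rw [← this.2]
  exact hs.mem u this.1

lemma wt_kk (hc : Cr ln P K g) (hs : St ln P X hub D) (ha : Ap ln P X hub C U A) {h : Λ}
    (hh : h ∈ hubs P X hub) {v : V} (hv : v ∈ kk ln U A h) : v ∈ gam P (hubs P X hub) U := by
  rcases mem_union.1 hv with hv | hv
  · rw [mem_sdiff] at hv
    refine mem_fl.2 ⟨hc.sub h hv.1, fun h' _ hv' => hv.2 ?_⟩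
    obtain ⟨w, hw, rfl⟩ := mem_image.1 hh
    have := mem_fl.1 (ha.usub h' hv')
    rw [← hs.uniq v this.1 w hw hv.1, this.2]
    exact hv'
  · exact (ha.asub h v hv).1

lemma wt_gen (ha : Ap ln P X hub C U A) {h : Λ} (hh : h ∈ hubs P X hub) (h3 : (A h).card ≤ 3)
    (B E : Finset V) (j : ℕ) (hB : ∀ w ∈ B, w ∈ gam P (hubs P X hub) U ∧ w ∉ kk ln U A h)
    (h4 : B.card ≤ 4) (hE : E.card ≤ 3 * C)
    (hS : ∀ u ∈ U h, u ∉ E → ∃ S ⊆ B, S.card = j ∧ ∀ w ∈ S, Coll ln u w) :
    Wt ln (gam P (hubs P X hub) U) U C h ((A h).card + j) := by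
  refine ⟨A h ∪ B, union_subset (fun x hx => (ha.asub h x hx).1) fun w hw => (hB w hw).1,
    (card_union_le _ _).trans (by omega), (card_le_card fun u hu => ?_).trans hE⟩
  by_contra huE
  obtain ⟨hu, hlt⟩ := mem_fl.1 hu
  obtain ⟨S, hSB, hSc, hSa⟩ := hS u hu huE
  have hd : Disjoint (A h) S :=
    disjoint_left.2 fun x hx hx' => (hB x (hSB hx')).2 (mem_union_right _ hx)
  refine absurd hlt (not_lt.2 ?_)
  rw [← hSc, ← card_union_of_disjoint hd]
  refine card_le_card fun w hw => mem_fl.2 ?_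
  rcases mem_union.1 hw with hw | hw
  · exact ⟨mem_union_left _ hw, (ha.asub h w hw).2, ha.adj h u hu w hw⟩
  · refine ⟨mem_union_right _ (hSB hw), fun hl => (hB w (hSB hw)).2 ?_, hSa w hw⟩
    exact mem_union_left _ (mem_sdiff.2 ⟨hl, (mem_fl.1 (hB w (hSB hw)).1).2 h hh⟩)

lemma wt_see {h : Λ} {u p q : V} (hu : u ∈ U h)
    (hn : u ∉ fl (U h) fun u => ¬ Coll ln u p ∧ ¬ Coll ln u q) : Coll ln u p ∨ Coll ln u q := by
  by_contra hc
  exact hn (mem_fl.2 ⟨hu, not_or.1 hc⟩)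

lemma wt_pair {B : Finset V} {u p q : V} (hp : p ∈ B) (hq : q ∈ B) (hpq : p ≠ q)
    (h1 : Coll ln u p) (h2 : Coll ln u q) : ∃ S ⊆ B, S.card = 2 ∧ ∀ w ∈ S, Coll ln u w := by
  refine ⟨{p, q}, insert_subset hp (singleton_subset_iff.2 hq), card_pair hpq, fun w hw => ?_⟩
  rcases mem_insert.1 hw with rfl | hw
  · exact h1
  · rw [mem_singleton.1 hw]; exact h2

theorem p_WT : S_WT := by
  intro V Λ _ _ ln P X hub K g D C U A hc hs ha hb
  refine ⟨fun p q h => ⟨h.2.1, h.1, h.2.2.1.symm, fun k => h.2.2.2 (wt_symm k)⟩,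
    fun p h => h.2.2.1 rfl, fun h e he => ⟨he.1, he.2.1⟩, fun h _ => ?_, fun h hh Z hZ => ?_, hb,
    fun h _ y hy hya => ?_, fun h hh h3 e hN hC => ?_, fun h hh h3 e e' hN hN' hD hC hC' => ?_,
    fun h hh h3 p q r hpq hpr hqr c1 c2 c3 => ?_⟩
  · have h1 : (kk ln U A h).card ≤ (ln h \ U h).card + (A h).card := card_union_le _ _
    have h2 := card_sdiff_add_card_eq_card (show U h ⊆ ln h from fun u hu => wt_U hs ha hu)
    have h3 := hc.clq (ln h) (hc.sub h) fun u hu v hv huv => ⟨huv, h, hu, hv⟩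
    omega
  · have hU : ∀ u ∈ U h, ∀ v ∈ kk ln U A h, Coll ln u v := by
      intro u hu v hv
      rcases mem_union.1 hv with hv | hv
      · rw [mem_sdiff] at hv
        exact ⟨fun e => hv.2 (e ▸ hu), h, wt_U hs ha hu, hv.1⟩
      · exact ha.adj h u hu v hv
    have h1 := hc.clq ((kk ln U A h \ Z) ∪ U h)
      (union_subset (fun v hv => (mem_fl.1 (wt_kk hc hs ha hh (mem_sdiff.1 hv).1)).1)
        fun u hu => hc.sub h (wt_U hs ha hu)) (by
      intro u hu v hv huv
      rcases mem_union.1 hu with hu | hu <;> rcases mem_union.1 hv with hv | hv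
      · rw [mem_sdiff] at hu hv
        by_contra hn
        exact (hZ u hu.1 v hv.1
          ⟨wt_kk hc hs ha hh hu.1, wt_kk hc hs ha hh hv.1, huv, hn⟩).elim hu.2 hv.2
      · exact wt_symm (hU v hv u (mem_sdiff.1 hu).1)
      · exact hU u hu v (mem_sdiff.1 hv).1
      · exact ⟨huv, h, wt_U hs ha hu, wt_U hs ha hv⟩)
    rw [card_union_of_disjoint (disjoint_left.2 fun v hv =>
      (mem_fl.1 (wt_kk hc hs ha hh (mem_sdiff.1 hv).1)).2 h hh)] at h1
    have h2 := le_card_sdiff Z (kk ln U A h)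
    omega
  · obtain ⟨Y, hY, hYc⟩ := exists_subset_card_eq hya
    refine ⟨Y, fun x hx => (ha.asub h x (hY hx)).1, by omega, (card_le_card (t := ∅) fun u hu => ?_).trans
      (by simp)⟩
    obtain ⟨hu, hlt⟩ := mem_fl.1 hu
    refine absurd hlt (not_lt.2 ?_)
    rw [← hYc]
    exact card_le_card fun w hw =>
      mem_fl.2 ⟨hw, (ha.asub h w (hY hw)).2, ha.adj h u hu w (hY hw)⟩
  · refine wt_gen ha hh h3 {e.1, e.2} _ 1 ?_ (card_le_two.trans (by omega))
      (hC.2.2.le.trans (by omega)) fun u hu hn => ?_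
    · simp only [mem_insert, mem_singleton]
      rintro w (rfl | rfl)
      · exact ⟨hN.1, hC.1⟩
      · exact ⟨hN.2.1, hC.2.1⟩
    · rcases wt_see hu hn with k | k
      · exact ⟨{e.1}, by simp, rfl, by simpa using k⟩
      · exact ⟨{e.2}, by simp, rfl, by simpa using k⟩
  · refine wt_gen ha hh h3 {e.1, e.2, e'.1, e'.2}
      ((fl (U h) fun u => ¬ Coll ln u e.1 ∧ ¬ Coll ln u e.2) ∪
        fl (U h) fun u => ¬ Coll ln u e'.1 ∧ ¬ Coll ln u e'.2) 2 ?_ card_le_four
      ((card_union_le _ _).trans (by have := hC.2.2; have := hC'.2.2; omega)) fun u hu hn => ?_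
    · simp only [mem_insert, mem_singleton]
      rintro w (rfl | rfl | rfl | rfl)
      · exact ⟨hN.1, hC.1⟩
      · exact ⟨hN.2.1, hC.2.1⟩
      · exact ⟨hN'.1, hC'.1⟩
      · exact ⟨hN'.2.1, hC'.2.1⟩
    · rw [mem_union, not_or] at hn
      rcases wt_see hu hn.1 with k | k <;> rcases wt_see hu hn.2 with k' | k'
      · exact wt_pair (by simp) (by simp) hD.1 k k'
      · exact wt_pair (by simp) (by simp) hD.2.1 k k'
      · exact wt_pair (by simp) (by simp) hD.2.2.1 k k'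
      · exact wt_pair (by simp) (by simp) hD.2.2.2 k k'
  · refine wt_gen ha hh h3 {p, q, r}
      ((fl (U h) fun u => ¬ Coll ln u p ∧ ¬ Coll ln u q) ∪
        (fl (U h) fun u => ¬ Coll ln u p ∧ ¬ Coll ln u r) ∪
        fl (U h) fun u => ¬ Coll ln u q ∧ ¬ Coll ln u r) 2 ?_ (card_le_three.trans (by omega))
      ((card_union_le _ _).trans ((add_le_add (card_union_le _ _) le_rfl).trans (by
        have a1 := c1.2.2; have a2 := c2.2.2; have a3 := c3.2.2
        simp only at a1 a2 a3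
        omega))) fun u hu hn => ?_
    · simp only [mem_insert, mem_singleton]
      rintro w (rfl | rfl | rfl)
      · exact ⟨hpq.1, c1.1⟩
      · exact ⟨hpq.2.1, c1.2.1⟩
      · exact ⟨hpr.2.1, c2.2.1⟩
    · rw [mem_union, mem_union, not_or, not_or] at hn
      rcases wt_see hu hn.1.1 with k | k
      · rcases wt_see hu hn.2 with k' | k'
        · exact wt_pair (by simp) (by simp) hpq.2.2.1 k k'
        · exact wt_pair (by simp) (by simp) hpr.2.2.1 k k'
      · rcases wt_see hu hn.1.2 with k' | k'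
        · exact wt_pair (by simp) (by simp) hpq.2.2.1 k' k
        · exact wt_pair (by simp) (by simp) hqr.2.2.1 k k'

end Pool.Agent.P.MP_1fec7a_co.F
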