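import Pool.Agent.P.MP_1fec7a_co.F.M
import Pool.Agent.P.MP_1fec7a_co.F.E12
import Pool.Agent.P.MP_1fec7a_co.F.E3
import Pool.Agent.P.MP_1fec7a_co.F.E4
import Pool.Agent.P.MP_1fec7a_co.F.STR
import Pool.Agent.P.MP_1fec7a_co.F.L3
import Pool.Agent.P.MP_1fec7a_co.F.TWO
import Pool.Agent.P.MP_1fec7a_co.F.R1
import Pool.Agent.P.MP_1fec7a_co.F.APX
import Pool.Agent.P.MP_1fec7a_co.F.EXT
import Pool.Agent.P.MP_1fec7a_co.F.COL
import Pool.Agent.P.MP_1fec7a_co.F.BUD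
import Pool.Agent.P.MP_1fec7a_co.F.WT
import Pool.Agent.P.MP_1fec7a_co.F.CORE
import Pool.Agent.P.MP_1fec7a_co.F.END
import Pool.Agent.P.MP_1fec7a_co.F.TOP
import Pool.Agent.P.MP_1fec7a_co.F.Low3

/-! All steps put together. -/

set_option autoImplicit false

namespace Pool.Agent.P.MP_1fec7a_co.F

theorem top : S_TOP :=
  have e1 := p_E1 p_M3
  have e2 := p_E2 p_M3
  have e4 := p_E4 p_M2
  have st := p_STR e1 e2
  p_TOP (p_R1 (p_E3 p_M3) st p_L3 (p_TWO e1 e2 e4))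
    (p_END st p_APX (p_COL p_EXT) (p_BUD e4) p_WT (p_CORE p_GR))

theorem low : S_LOW := low43

end Pool.Agent.P.MP_1fec7a_co.F
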